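import Pool.Agent.H792R2.CE.Defs

set_option autoImplicit false

open Filter Topology Metric Set Polynomial MeasureTheory
open scoped OnePoint

namespace Pool.Agent.H792R2.CE

open Pool.Agent.Helper114.Herman

/-- B1. continuity of the rational map on the sphere -/
theorem B1_continuous {d : ℕ} {P Q : ℂ[X]} (hc : IsCoprime P Q) (hPd : P.natDegree ≤ d)
    (hQd : Q.natDegree = d) : Continuous (sph d P Q) := by
  have hd : d = max P.natDegree Q.natDegree := by omega
  have hQd' : Q.natDegree ≤ d := hQd.le
  have hnb : ∀ z : ℂ, P.eval z ≠ 0 ∨ Q.eval z ≠ 0 := by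
    intro z
    by_contra hcon
    push Not at hcon
    obtain ⟨h1, h2⟩ := hcon
    obtain ⟨a, b, hab⟩ := hc
    have := congrArg (Polynomial.eval z) hab
    simp [h1, h2] at this
  rw [OnePoint.continuous_iff]
  constructor
  · rw [coclosedCompact_eq_cocompact, ← Metric.cobounded_eq_cocompact, sph_infty]
    rcases Nat.eq_zero_or_pos d with h0 | h0
    · have e1 : P.natDegree = 0 := by omega
      have e2 : Q.natDegree = 0 := by omega
      have : (fun x : ℂ => sph d P Q (x : OnePoint ℂ)) = fun _ => pr (P.coeff d) (Q.coeff d) := by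
        funext z
        rw [sph_coe]
        rw [Polynomial.eq_C_of_natDegree_eq_zero e1, Polynomial.eq_C_of_natDegree_eq_zero e2, h0]
        simp
      rw [this]
      exact tendsto_const_nhds
    · have h1 : Tendsto (fun z : ℂ => pr (hom P d 1 z⁻¹) (hom Q d 1 z⁻¹)) (Bornology.cobounded ℂ)
          (𝓝 (pr (hom P d 1 0) (hom Q d 1 0))) := by
        have h2 : ContinuousAt (fun w : ℂ => pr (hom P d 1 w) (hom Q d 1 w)) 0 :=
          ContinuousAt.comp (f := fun w => (hom P d 1 w, hom Q d 1 w))
            (g := fun p : ℂ × ℂ => pr p.1 p.2) (x := (0 : ℂ))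
            (continuousAt_pr (hom_not_both hc hd (Or.inl one_ne_zero) h0))
            (((continuous_hom P d).comp (Continuous.prodMk_right 1)).continuousAt.prodMk
              ((continuous_hom Q d).comp (Continuous.prodMk_right 1)).continuousAt)
        exact Tendsto.comp (g := fun w : ℂ => pr (hom P d 1 w) (hom Q d 1 w)) h2.tendsto
          tendsto_inv₀_cobounded
      rw [hom_zero, hom_zero, one_pow, mul_one, mul_one] at h1
      refine h1.congr' ?_
      filter_upwards [Bornology.eventually_ne_cobounded (0 : ℂ)] with z hz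
      have hz' : z⁻¹ ≠ 0 := inv_ne_zero hz
      rw [sph_coe, hom_ne hPd hz', hom_ne hQd' hz',
        Pool.Agent.Helper114.Konig.pr_smul (pow_ne_zero _ hz'), one_div, inv_inv]
  · rw [continuous_iff_continuousAt]
    intro z
    exact ContinuousAt.comp (f := fun w : ℂ => (P.eval w, Q.eval w))
      (g := fun p : ℂ × ℂ => pr p.1 p.2) (x := z) (continuousAt_pr (hnb z))
      (P.continuous.continuousAt.prodMk Q.continuous.continuousAt)

end Pool.Agent.H792R2.CE
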