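import Pool.Agent.H792R2.CE.Defs

/-!
C2, C3, C4 of project CE (helper541): attracted points, sinks, local injectivity.
-/

set_option autoImplicit false

open Filter Topology Metric Set Polynomial MeasureTheory
open scoped OnePoint

namespace Pool.Agent.H792R2.CE

open Pool.Agent.Helper114.Herman Pool.Agent.H762R2.Rt

namespace C2x

theorem rf_strict {P Q : ℂ[X]} {c : ℂ} (hQ : Q.eval c ≠ 0) :
    HasStrictDerivAt (rf P Q) ((wr P Q).eval c / Q.eval c ^ 2) c := by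
  have h := (P.hasStrictDerivAt c).div (Q.hasStrictDerivAt c) hQ
  have h2 : (wr P Q).eval c = (derivative P).eval c * Q.eval c -
      P.eval c * (derivative Q).eval c := by
    unfold wr
    simp
  rw [h2]
  exact h

theorem rf_diff {P Q : ℂ[X]} {c : ℂ} (hQ : Q.eval c ≠ 0) : DifferentiableAt ℂ (rf P Q) c :=
  (rf_strict hQ).hasDerivAt.differentiableAt

/-- a finite orbit -/
theorem orbit {d : ℕ} {P Q : ℂ[X]} {z : ℂ}
    (h : ∀ i : ℕ, (sph d P Q)^[i] (z : OnePoint ℂ) ≠ ∞) (i : ℕ) :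
    (sph d P Q)^[i] (z : OnePoint ℂ) = (((rf P Q)^[i] z : ℂ) : OnePoint ℂ) ∧
      Q.eval ((rf P Q)^[i] z) ≠ 0 := by
  induction i with
  | zero =>
    refine ⟨rfl, ?_⟩
    intro h0
    have h1 := h 1
    rw [Function.iterate_one, sph_coe] at h1
    simp only [Function.iterate_zero, id] at h0
    rw [h0, pr_zero] at h1
    exact h1 rfl
  | succ i ih =>
    have e1 : (sph d P Q)^[i + 1] (z : OnePoint ℂ) =
        (((rf P Q)^[i + 1] z : ℂ) : OnePoint ℂ) := by
      rw [Function.iterate_succ_apply', ih.1, sph_coe_of_ne ih.2, Function.iterate_succ_apply']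
    refine ⟨e1, ?_⟩
    intro h0
    have h1 := h (i + 1 + 1)
    rw [Function.iterate_succ_apply', e1, sph_coe, h0, pr_zero] at h1
    exact h1 rfl

theorem iter_coe {d : ℕ} {P Q : ℂ[X]} {z : ℂ} (n : ℕ)
    (h : ∀ i < n, Q.eval ((rf P Q)^[i] z) ≠ 0) :
    (sph d P Q)^[n] (z : OnePoint ℂ) = (((rf P Q)^[n] z : ℂ) : OnePoint ℂ) := by
  induction n with
  | zero => rfl
  | succ n ih =>
    rw [Function.iterate_succ_apply', ih (fun i hi => h i (by omega)),
      sph_coe_of_ne (h n (by omega)), Function.iterate_succ_apply']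

theorem iter_diff {P Q : ℂ[X]} {z : ℂ} (n : ℕ)
    (h : ∀ i < n, Q.eval ((rf P Q)^[i] z) ≠ 0) : DifferentiableAt ℂ ((rf P Q)^[n]) z := by
  induction n with
  | zero => exact differentiableAt_id
  | succ n ih =>
    rw [Function.iterate_succ']
    exact (rf_diff (h n (by omega))).comp z (ih (fun i hi => h i (by omega)))

end C2x

open C2x

/-- C2. -/
theorem C2_step {d : ℕ} {P Q : ℂ[X]} (hcont : Continuous (sph d P Q)) {x : OnePoint ℂ}
    (h : Att d P Q (sph d P Q x)) : Att d P Q x := by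
  obtain ⟨n, hn, z, hfin, hper, hder, ht⟩ := h
  obtain ⟨m, rfl⟩ : ∃ m, n = m + 1 := ⟨n - 1, by omega⟩
  obtain ⟨z', hz'⟩ : ∃ z', z' = (rf P Q)^[m] z := ⟨_, rfl⟩
  have horb := orbit hfin
  have hFm : (sph d P Q)^[m] (z : OnePoint ℂ) = (z' : OnePoint ℂ) := by
    rw [hz']; exact (horb m).1
  have hgz : rf P Q z' = z := by
    have h1 := (horb (m + 1)).1
    rw [hper, OnePoint.coe_eq_coe, Function.iterate_succ_apply', ← hz'] at h1
    exact h1.symm
  have hQz' : Q.eval z' ≠ 0 := by rw [hz']; exact (horb m).2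
  have hQi : ∀ i < m, Q.eval ((rf P Q)^[i] z) ≠ 0 := fun i _ => (horb i).2
  refine ⟨m + 1, hn, z', ?_, ?_, ?_, ?_⟩
  · intro i
    rw [← hFm, ← Function.iterate_add_apply]
    exact hfin _
  · rw [← hFm, ← Function.iterate_add_apply, Nat.add_comm, Function.iterate_add_apply, hper]
  · have d1 : DifferentiableAt ℂ ((rf P Q)^[m]) (rf P Q z') := by
      rw [hgz]; exact iter_diff m hQi
    have h1 : deriv ((rf P Q)^[m + 1]) z' = deriv ((rf P Q)^[m]) z * deriv (rf P Q) z' := by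
      rw [Function.iterate_succ, deriv_comp _ d1 (rf_diff hQz'), hgz]
    have d2 : DifferentiableAt ℂ (rf P Q) ((rf P Q)^[m] z) := by
      rw [← hz']; exact rf_diff hQz'
    have h2 : deriv ((rf P Q)^[m + 1]) z = deriv (rf P Q) z' * deriv ((rf P Q)^[m]) z := by
      rw [Function.iterate_succ', deriv_comp _ d2 (iter_diff m hQi), ← hz']
    rw [h1, mul_comm, ← h2]
    exact hder
  · rw [← tendsto_add_atTop_iff_nat 1]
    have h3 : (fun k : ℕ => (sph d P Q)^[(m + 1) * (k + 1)] x) =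
        fun k : ℕ => (sph d P Q)^[m] ((sph d P Q)^[(m + 1) * k] (sph d P Q x)) := by
      ext k
      rw [← Function.iterate_succ_apply, ← Function.iterate_add_apply]
      have h4 : (m + 1) * (k + 1) = m + ((m + 1) * k).succ := by
        rw [Nat.succ_eq_add_one]; ring
      rw [h4]
    rw [h3, ← hFm]
    exact ((hcont.iterate m).tendsto _).comp ht

/-- C3. -/
theorem C3_sinks {d : ℕ} {P Q : ℂ[X]} (hcont : Continuous (sph d P Q)) {x : OnePoint ℂ}
    (h : Att d P Q x) : Sinks (sph d P Q) x := by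
  obtain ⟨n, hn, z, hfin, hper, hder, ht⟩ := h
  have horb := orbit hfin
  have hGz : (rf P Q)^[n] z = z := by
    have h1 := (horb n).1
    rw [hper, OnePoint.coe_eq_coe] at h1
    exact h1.symm
  have hQi : ∀ n, ∀ i < n, Q.eval ((rf P Q)^[i] z) ≠ 0 := fun _ i _ => (horb i).2
  have hd : HasDerivAt ((rf P Q)^[n]) (deriv ((rf P Q)^[n]) z) z :=
    (iter_diff n (hQi n)).hasDerivAt
  obtain ⟨lam, hlam1, hlam2⟩ := exists_between hder
  have hlam0 : 0 ≤ lam := (norm_nonneg _).trans hlam1.le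
  -- contraction
  have ev1 : ∀ᶠ w in 𝓝 z, ‖(rf P Q)^[n] w - z‖ ≤ lam * ‖w - z‖ := by
    have h1 := (hasDerivAt_iff_isLittleO.1 hd).bound
      (show 0 < lam - ‖deriv ((rf P Q)^[n]) z‖ by linarith)
    filter_upwards [h1] with w hw
    rw [hGz] at hw
    have h2 : ‖(rf P Q)^[n] w - z‖ ≤ ‖(rf P Q)^[n] w - z - (w - z) • deriv ((rf P Q)^[n]) z‖ +
        ‖(w - z) • deriv ((rf P Q)^[n]) z‖ := by
      refine le_trans (le_of_eq ?_) (norm_add_le _ _)
      congr 1
      ring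
    rw [norm_smul] at h2
    calc ‖(rf P Q)^[n] w - z‖ ≤ (lam - ‖deriv ((rf P Q)^[n]) z‖) * ‖w - z‖ +
          ‖w - z‖ * ‖deriv ((rf P Q)^[n]) z‖ := h2.trans (add_le_add hw le_rfl)
      _ = lam * ‖w - z‖ := by ring
  have ev2 : ∀ᶠ w in 𝓝 z, ∀ i < n, Q.eval ((rf P Q)^[i] w) ≠ 0 := by
    have h1 : ∀ i ∈ Finset.range n, ∀ᶠ w in 𝓝 z, Q.eval ((rf P Q)^[i] w) ≠ 0 := by
      intro i _
      have h2 : ContinuousAt (fun w => Q.eval ((rf P Q)^[i] w)) z :=
        ContinuousAt.comp (g := fun y => Q.eval y) Q.continuous.continuousAt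
          (iter_diff i (hQi i)).continuousAt
      exact h2.eventually_ne (horb i).2
    have h3 := (Filter.eventually_all_finset (Finset.range n)).2 h1
    filter_upwards [h3] with w hw i hi
    exact hw i (Finset.mem_range.2 hi)
  obtain ⟨ρ, hρ, hball⟩ := Metric.mem_nhds_iff.1 (ev1.and ev2)
  have hstep : ∀ w ∈ ball z ρ, (rf P Q)^[n] w ∈ ball z ρ := by
    intro w hw
    have h1 := (hball hw).1
    rw [mem_ball, dist_eq_norm] at hw ⊢
    nlinarith [norm_nonneg (w - z)]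
  have hk : ∀ w ∈ ball z ρ, ∀ k : ℕ, ((rf P Q)^[n])^[k] w ∈ ball z ρ ∧
      ‖((rf P Q)^[n])^[k] w - z‖ ≤ lam ^ k * ‖w - z‖ ∧
      (sph d P Q)^[n * k] (w : OnePoint ℂ) = ((((rf P Q)^[n])^[k] w : ℂ) : OnePoint ℂ) := by
    intro w hw k
    induction k with
    | zero => exact ⟨hw, by simp, rfl⟩
    | succ k ih =>
      obtain ⟨i1, i2, i3⟩ := ih
      rw [Function.iterate_succ_apply']
      refine ⟨hstep _ i1, ?_, ?_⟩
      · calc ‖(rf P Q)^[n] (((rf P Q)^[n])^[k] w) - z‖ ≤ lam * ‖((rf P Q)^[n])^[k] w - z‖ :=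
              (hball i1).1
          _ ≤ lam * (lam ^ k * ‖w - z‖) := mul_le_mul_of_nonneg_left i2 hlam0
          _ = lam ^ (k + 1) * ‖w - z‖ := by ring
      · rw [Nat.mul_succ, Nat.add_comm, Function.iterate_add_apply, i3]
        exact iter_coe n (hball i1).2
  refine ⟨(z : OnePoint ℂ), n, hn, hper, ⟨(fun y : ℂ => (y : OnePoint ℂ)) '' ball z ρ, ?_, ?_⟩, ht⟩
  · exact (OnePoint.isOpenEmbedding_coe (X := ℂ)).isOpenMap.image_mem_nhds (ball_mem_nhds z hρ)
  · rintro _ ⟨w, hw, rfl⟩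
    have h1 : Tendsto (fun k : ℕ => ((rf P Q)^[n])^[k] w) atTop (𝓝 z) := by
      rw [tendsto_iff_norm_sub_tendsto_zero]
      have h0 : Tendsto (fun k : ℕ => lam ^ k * ‖w - z‖) atTop (𝓝 0) := by
        simpa using (tendsto_pow_atTop_nhds_zero_of_lt_one hlam0 hlam2).mul_const ‖w - z‖
      exact squeeze_zero (fun k => norm_nonneg _) (fun k => (hk w hw k).2.1) h0
    have h2 := ((OnePoint.continuous_coe (X := ℂ)).tendsto z).comp h1
    refine h2.congr fun k => ?_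
    exact ((hk w hw k).2.2).symm

/-- C4. -/
theorem C4_inj {d : ℕ} {P Q : ℂ[X]} {c : ℂ} (hQ : Q.eval c ≠ 0) (hN : (wr P Q).eval c ≠ 0) :
    ∃ U ∈ 𝓝 (c : OnePoint ℂ), Set.InjOn (sph d P Q) U := by
  have h1 := rf_strict (P := P) hQ
  have h0 : (wr P Q).eval c / Q.eval c ^ 2 ≠ 0 := div_ne_zero hN (pow_ne_zero _ hQ)
  have h2 := h1.hasStrictFDerivAt_equiv h0
  have hsrc := (h2.toOpenPartialHomeomorph (rf P Q)).open_source.mem_nhds
    h2.mem_toOpenPartialHomeomorph_source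
  have hinj := (h2.toOpenPartialHomeomorph (rf P Q)).injOn
  rw [h2.toOpenPartialHomeomorph_coe] at hinj
  have hUQ : {x : ℂ | Q.eval x ≠ 0} ∈ 𝓝 c :=
    (isOpen_ne_fun Q.continuous continuous_const).mem_nhds hQ
  refine ⟨(fun x : ℂ => (x : OnePoint ℂ)) ''
    ((h2.toOpenPartialHomeomorph (rf P Q)).source ∩ {x : ℂ | Q.eval x ≠ 0}), ?_, ?_⟩
  · exact (OnePoint.isOpenEmbedding_coe (X := ℂ)).isOpenMap.image_mem_nhds (inter_mem hsrc hUQ)
  · rintro _ ⟨x, ⟨hx, hxQ⟩, rfl⟩ _ ⟨y, ⟨hy, hyQ⟩, rfl⟩ hxy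
    simp only at hxy
    rw [sph_coe_of_ne hxQ, sph_coe_of_ne hyQ, OnePoint.coe_eq_coe] at hxy
    rw [hinj hx hy hxy]

end Pool.Agent.H792R2.CE
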