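import Pool.Agent.H792R2.CE.Defs

set_option autoImplicit false

open Filter Topology Metric Set Polynomial MeasureTheory
open scoped OnePoint

namespace Pool.Agent.H792R2.CE

open Pool.Agent.Helper114.Herman

namespace A1x

/-- The abstract branch lemma: `θ` is `C^1` near `(0, c)`, `θ (0,c) ≠ 0`, and `θ (b, z)` depends on
`b` only through `b ^ k`; the equation `(z - c)^k = b^k θ (b, z)` is solved by a branch. -/
theorem branch {θ : ℂ × ℂ → ℂ} {c : ℂ} {k : ℕ} (hk : 1 ≤ k) (hθ : ContDiffAt ℂ 1 θ (0, c))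
    (hθ0 : θ (0, c) ≠ 0) (hθk : ∀ b b' z, b ^ k = b' ^ k → θ (b, z) = θ (b', z)) :
    ∃ (τ : ℂ → ℂ) (t : ℂ), t ≠ 0 ∧ τ 0 = c ∧ HasDerivAt τ t 0 ∧
      (∀ᶠ b in 𝓝 (0 : ℂ), DifferentiableAt ℂ τ b) ∧
      (∀ᶠ b in 𝓝 (0 : ℂ), (τ b - c) ^ k = b ^ k * θ (b, τ b)) ∧
      ∃ ρ > 0, ∀ z b, ‖z - c‖ < ρ → ‖b‖ < ρ → b ≠ 0 → (z - c) ^ k = b ^ k * θ (b, z) →
        ∃ ω : ℂ, ω ^ k = 1 ∧ z = τ (ω * b) := by
  have hk0 : k ≠ 0 := by omega
  have hkC : (k : ℂ) ≠ 0 := Nat.cast_ne_zero.2 hk0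
  obtain ⟨l, hl⟩ := IsAlgClosed.exists_pow_nat_eq (θ (0, c)) (n := k) (by omega)
  have hl0 : l ≠ 0 := by
    rintro rfl
    rw [zero_pow hk0] at hl
    exact hθ0 hl.symm
  -- the `k`-th root of `θ`
  set v : ℂ × ℂ → ℂ := fun p => l * Complex.exp (Complex.log (θ p / θ (0, c)) / k) with hv
  have hvc : v (0, c) = l := by
    simp only [hv]
    rw [div_self hθ0, Complex.log_one, zero_div, Complex.exp_zero, mul_one]
  have hvk : ∀ p, θ p ≠ 0 → v p ^ k = θ p := by
    intro p hp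
    simp only [hv]
    rw [mul_pow, hl, ← Complex.exp_nat_mul, mul_div_cancel₀ _ hkC,
      Complex.exp_log (div_ne_zero hp hθ0)]
    field_simp
  have hvC : ContDiffAt ℂ 1 v (0, c) := by
    have h1 : ContDiffAt ℂ 1 (fun p => Complex.log (θ p / θ (0, c))) (0, c) := by
      refine ContDiffAt.comp (0, c) (g := Complex.log) (Complex.contDiffAt_log ?_)
        (hθ.div_const _)
      rw [div_self hθ0]
      exact Complex.one_mem_slitPlane
    exact contDiffAt_const.mul (h1.div_const _).cexp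
  set f : ℂ × ℂ → ℂ := fun p => p.2 - c - p.1 * v p with hf
  have hfC : ContDiffAt ℂ 1 f (0, c) :=
    (contDiffAt_snd.sub contDiffAt_const).sub (contDiffAt_fst.mul hvC)
  have hf0 : f (0, c) = 0 := by simp [hf]
  have hinr : (fderiv ℂ f (0, c) ∘L .inr ℂ ℂ ℂ) = ContinuousLinearMap.id ℂ ℂ := by
    have h1 : HasFDerivAt (fun z : ℂ => f (0, z)) (fderiv ℂ f (0, c) ∘L .inr ℂ ℂ ℂ) c := by
      have h2 := (hfC.differentiableAt (by norm_num)).hasFDerivAt
      have h3 : HasFDerivAt (fun z : ℂ => ((0 : ℂ), z)) (ContinuousLinearMap.inr ℂ ℂ ℂ) c :=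
        (ContinuousLinearMap.inr ℂ ℂ ℂ).hasFDerivAt
      exact h2.comp c h3
    have h4 : HasFDerivAt (fun z : ℂ => f (0, z)) (ContinuousLinearMap.id ℂ ℂ) c := by
      have h5 : (fun z : ℂ => f (0, z)) = fun z => z - c := by
        funext z; simp [hf]
      rw [h5]
      exact (hasFDerivAt_id c).sub_const c
    exact h1.unique h4
  have hinv : (fderiv ℂ f (0, c) ∘L .inr ℂ ℂ ℂ).IsInvertible := by
    rw [hinr]
    exact ⟨ContinuousLinearEquiv.refl ℂ ℂ, rfl⟩
  set τ := hfC.implicitFunction (by norm_num) hinv with hτ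
  have hτ0 : τ 0 = c := hfC.implicitFunction_apply_self (by norm_num) hinv
  have hτC : ContDiffAt ℂ 1 τ 0 := hfC.contDiffAt_implicitFunction (by norm_num) hinv
  have hτf : ∀ᶠ b in 𝓝 (0 : ℂ), f (b, τ b) = 0 := by
    have := hfC.eventually_apply_implicitFunction (by norm_num) hinv
    rw [hf0] at this
    exact this
  have hτi : ∀ᶠ p in 𝓝 ((0 : ℂ), c), f p = 0 ↔ τ p.1 = p.2 := by
    have := hfC.eventually_apply_eq_iff_implicitFunction (by norm_num) hinv
    rw [hf0] at this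
    exact this
  have hτcont : ContinuousAt τ 0 := hτC.continuousAt
  have hpair : Tendsto (fun b : ℂ => (b, τ b)) (𝓝 0) (𝓝 (0, c)) := by
    have h1 : ContinuousAt (fun b : ℂ => (b, τ b)) 0 := continuousAt_id.prodMk hτcont
    have h2 := h1.tendsto
    rwa [hτ0] at h2
  have hθne : ∀ᶠ p in 𝓝 ((0 : ℂ), c), θ p ≠ 0 := hθ.continuousAt.eventually_ne hθ0
  refine ⟨τ, l, hl0, hτ0, ?_, ?_, ?_, ?_⟩
  · rw [hasDerivAt_iff_tendsto_slope]
    have h1 : Tendsto (fun b : ℂ => v (b, τ b)) (𝓝[≠] 0) (𝓝 l) := by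
      have h2 : Tendsto (fun b : ℂ => v (b, τ b)) (𝓝 0) (𝓝 l) := by
        have := hvC.continuousAt.tendsto.comp hpair
        rwa [hvc] at this
      exact h2.mono_left nhdsWithin_le_nhds
    refine h1.congr' ?_
    filter_upwards [hτf.filter_mono nhdsWithin_le_nhds, self_mem_nhdsWithin] with b hb hb0
    have hb0' : b ≠ 0 := hb0
    rw [slope_def_field, hτ0, sub_zero, eq_div_iff hb0']
    have h3 : τ b - c - b * v (b, τ b) = 0 := hb
    linear_combination -h3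
  · have h1 := hτC.eventually (by norm_num)
    filter_upwards [h1] with b hb
    exact hb.differentiableAt (by norm_num)
  · filter_upwards [hτf, hpair.eventually hθne] with b hb hb'
    have h3 : τ b - c - b * v (b, τ b) = 0 := hb
    rw [sub_eq_zero.1 h3, mul_pow, hvk _ hb']
  · obtain ⟨ρ, hρ, h⟩ := Metric.eventually_nhds_iff.1 (hτi.and hθne)
    refine ⟨ρ, hρ, fun z b hz hb hb0 heq => ?_⟩
    have hd : ∀ b', ‖b'‖ < ρ → dist (b', z) ((0 : ℂ), c) < ρ := by
      intro b' hb'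
      rw [Prod.dist_eq]
      refine max_lt ?_ ?_
      · rw [dist_zero_right]; exact hb'
      · rw [dist_eq_norm]; exact hz
    have hθz : θ (b, z) ≠ 0 := (h (hd b hb)).2
    have hvz : v (b, z) ≠ 0 := by
      intro h0
      have := hvk _ hθz
      rw [h0, zero_pow hk0] at this
      exact hθz this.symm
    refine ⟨(z - c) / (b * v (b, z)), ?_, ?_⟩
    · rw [div_pow, mul_pow, hvk _ hθz, heq]
      exact div_self (mul_ne_zero (pow_ne_zero _ hb0) hθz)
    · set ω := (z - c) / (b * v (b, z)) with hω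
      have hωk : ω ^ k = 1 := by
        rw [hω, div_pow, mul_pow, hvk _ hθz, heq]
        exact div_self (mul_ne_zero (pow_ne_zero _ hb0) hθz)
      have hωn : ‖ω‖ = 1 := Complex.norm_eq_one_of_pow_eq_one hωk hk0
      have hωb : ‖ω * b‖ < ρ := by rw [norm_mul, hωn, one_mul]; exact hb
      have h1 := (h (hd _ hωb)).1
      refine (h1.1 ?_).symm
      have h2 : v (ω * b, z) = v (b, z) := by
        simp only [hv]
        rw [hθk (ω * b) b z (by rw [mul_pow, hωk, one_mul])]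
      simp only [hf]
      rw [h2, hω]
      field_simp
      ring

end A1x

/-- A1. Puiseux parametrisation of the critical points of a perturbed rational map. -/
theorem A1_branch {P Q H G : ℂ[X]} {c : ℂ} {k : ℕ} (hk : 1 ≤ k)
    (hmult : (wr P Q).rootMultiplicity c = k) (hN : wr P Q ≠ 0)
    (hN₁ : (wr H Q + wr P G).eval c ≠ 0) :
    ∃ (τ : ℂ → ℂ) (t : ℂ) (ρ : ℝ), 0 < ρ ∧ t ≠ 0 ∧ τ 0 = c ∧ HasDerivAt τ t 0 ∧
      (∀ b, ‖b‖ < ρ → DifferentiableAt ℂ τ b) ∧
      (∀ b, ‖b‖ < ρ → (wr (P + C (b ^ k) * H) (Q + C (b ^ k) * G)).eval (τ b) = 0) ∧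
      ∀ z b, ‖z - c‖ < ρ → ‖b‖ < ρ → (wr (P + C (b ^ k) * H) (Q + C (b ^ k) * G)).eval z = 0 →
        ∃ ω : ℂ, ω ^ k = 1 ∧ z = τ (ω * b) := by
  obtain ⟨g, hg, hgc⟩ := Polynomial.exists_eq_pow_rootMultiplicity_mul_and_not_dvd (wr P Q) hN c
  rw [hmult] at hg
  have hgc' : g.eval c ≠ 0 := by
    intro h
    exact hgc (Polynomial.dvd_iff_isRoot.2 h)
  set N₁ := wr H Q + wr P G with hN₁def
  set N₂ := wr H G with hN₂def
  have hev : ∀ b z : ℂ, (wr (P + C (b ^ k) * H) (Q + C (b ^ k) * G)).eval z =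
      (z - c) ^ k * g.eval z + b ^ k * (N₁.eval z + b ^ k * N₂.eval z) := by
    intro b z
    rw [wr_family, ← hN₁def, ← hN₂def, hg]
    simp only [eval_add, eval_mul, eval_C, eval_pow, eval_sub, eval_X]
    ring
  set θ : ℂ × ℂ → ℂ := fun p => -(N₁.eval p.2 + p.1 ^ k * N₂.eval p.2) / g.eval p.2 with hθ
  have hk0 : k ≠ 0 := by omega
  have hθ0 : θ (0, c) ≠ 0 := by
    simp only [hθ]
    rw [zero_pow hk0, zero_mul, add_zero]
    exact div_ne_zero (neg_ne_zero.2 hN₁) hgc'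
  have hθC : ContDiffAt ℂ 1 θ (0, c) := by
    have hp : ∀ R : ℂ[X], ContDiffAt ℂ 1 (fun q : ℂ × ℂ => R.eval q.2) (0, c) := by
      intro R
      have h1 : ContDiff ℂ 1 (fun z : ℂ => R.eval z) := R.differentiable.contDiff
      exact (h1.comp contDiff_snd).contDiffAt
    have hs : ContDiffAt ℂ 1 (fun q : ℂ × ℂ => q.1 ^ k) (0, c) := (contDiff_fst.pow k).contDiffAt
    exact ((hp N₁).add (hs.mul (hp N₂))).neg.div (hp g) hgc'
  have hθk : ∀ b b' z, b ^ k = b' ^ k → θ (b, z) = θ (b', z) := by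
    intro b b' z h
    simp only [hθ]
    rw [h]
  obtain ⟨τ, t, ht, hτ0, hτd, hτD, hτe, ρ₁, hρ₁, huniq⟩ := A1x.branch hk hθC hθ0 hθk
  have hgne : ∀ᶠ z in 𝓝 c, g.eval z ≠ 0 := g.continuous.continuousAt.eventually_ne hgc'
  have hτc : Tendsto τ (𝓝 0) (𝓝 c) := by
    have := hτd.continuousAt.tendsto
    rwa [hτ0] at this
  obtain ⟨ρ₂, hρ₂, h2⟩ := Metric.eventually_nhds_iff.1 (hτD.and (hτe.and (hτc.eventually hgne)))
  obtain ⟨ρ₃, hρ₃, h3⟩ := Metric.eventually_nhds_iff.1 hgne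
  refine ⟨τ, t, min ρ₁ (min ρ₂ ρ₃), lt_min hρ₁ (lt_min hρ₂ hρ₃), ht, hτ0, hτd, ?_, ?_, ?_⟩
  · intro b hb
    exact (h2 (by rw [dist_zero_right]; exact hb.trans_le ((min_le_right _ _).trans
      (min_le_left _ _)))).1
  · intro b hb
    obtain ⟨-, h4, h5⟩ := h2 (show dist b 0 < ρ₂ by
      rw [dist_zero_right]; exact hb.trans_le ((min_le_right _ _).trans (min_le_left _ _)))
    rw [hev, h4]
    simp only [hθ]
    field_simp
    ring
  · intro z b hz hb h
    have h4 : g.eval z ≠ 0 := h3 (show dist z c < ρ₃ by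
      rw [dist_eq_norm]; exact hz.trans_le ((min_le_right _ _).trans (min_le_right _ _)))
    rw [hev] at h
    by_cases hb0 : b = 0
    · subst hb0
      rw [zero_pow hk0, zero_mul, add_zero] at h
      have h5 : z = c := by
        rcases mul_eq_zero.1 h with h6 | h6
        · exact sub_eq_zero.1 (pow_eq_zero_iff hk0 |>.1 h6)
        · exact absurd h6 h4
      exact ⟨1, one_pow k, by rw [mul_zero, hτ0, h5]⟩
    · refine huniq z b (hz.trans_le (min_le_left _ _)) (hb.trans_le (min_le_left _ _)) hb0 ?_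
      simp only [hθ]
      field_simp
      linear_combination h

end Pool.Agent.H792R2.CE
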