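import Pool.Agent.H792R2.CE.Defs
import Pool.Agent.H792R2.Rat.Grow

set_option autoImplicit false

open Filter Topology Metric Set Polynomial

namespace Pool.Agent.H792R2.CE

/-- A2. Difference of the critical values after splitting. -/
theorem A2_split {P Q H G : ℂ[X]} {c : ℂ} {k : ℕ} (hk : 2 ≤ k) {τ : ℂ → ℂ} {t : ℂ} {ρ : ℝ}
    (hρ : 0 < ρ) (ht : t ≠ 0) (hτ0 : τ 0 = c) (hτd : HasDerivAt τ t 0)
    (hτD : ∀ b, ‖b‖ < ρ → DifferentiableAt ℂ τ b)
    (hcrit : ∀ b, ‖b‖ < ρ → (wr (P + C (b ^ k) * H) (Q + C (b ^ k) * G)).eval (τ b) = 0)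
    (hQ : Q.eval c ≠ 0) (hN₁ : (wr H Q + wr P G).eval c ≠ 0)
    {ω : ℂ} (hω : ω ^ k = 1) (hω1 : ω ≠ 1) :
    ∃ κ : ℂ, κ ≠ 0 ∧ Tendsto (fun b : ℂ =>
      (rf (P + C (b ^ k) * H) (Q + C (b ^ k) * G) (τ b) -
        rf (P + C (b ^ k) * H) (Q + C (b ^ k) * G) (τ (ω * b))) / b ^ (k + 1))
      (𝓝[≠] 0) (𝓝 κ) := by
  have hk0 : k ≠ 0 := by omega
  have hk1 : 1 ≤ k := by omega
  -- numerator and denominator along the branch
  set D : ℂ → ℂ := fun b => Q.eval (τ b) + b ^ k * G.eval (τ b) with hD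
  set A : ℂ → ℂ := fun b => P.eval (τ b) + b ^ k * H.eval (τ b) with hA
  set Λ : ℂ → ℂ := fun b => A b / D b with hΛ
  set R : ℂ → ℂ := fun z => H.eval z * Q.eval z - P.eval z * G.eval z with hR
  set h : ℂ → ℂ := fun b => R (τ b) / D b ^ 2 with hh
  have hD0 : D 0 = Q.eval c := by
    simp only [hD]
    rw [zero_pow hk0, zero_mul, add_zero, hτ0]
  have hpw : ∀ b : ℂ, HasDerivAt (fun b : ℂ => b ^ k) (k * b ^ (k - 1)) b := fun b => by
    simpa using hasDerivAt_pow k b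
  have hpoly : ∀ (S : ℂ[X]) (b u : ℂ), HasDerivAt τ u b →
      HasDerivAt (fun b => S.eval (τ b)) ((derivative S).eval (τ b) * u) b := fun S b u hu =>
    (S.hasDerivAt (τ b)).comp b hu
  have hDd : ∀ b u : ℂ, HasDerivAt τ u b → HasDerivAt D
      ((derivative Q).eval (τ b) * u + (k * b ^ (k - 1) * G.eval (τ b) +
        b ^ k * ((derivative G).eval (τ b) * u))) b := fun b u hu =>
    (hpoly Q b u hu).add ((hpw b).mul (hpoly G b u hu))
  have hAd : ∀ b u : ℂ, HasDerivAt τ u b → HasDerivAt A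
      ((derivative P).eval (τ b) * u + (k * b ^ (k - 1) * H.eval (τ b) +
        b ^ k * ((derivative H).eval (τ b) * u))) b := fun b u hu =>
    (hpoly P b u hu).add ((hpw b).mul (hpoly H b u hu))
  have hDc : ContinuousAt D 0 := (hDd 0 t hτd).continuousAt
  have hevD : ∀ᶠ b in 𝓝 (0 : ℂ), D b ≠ 0 ∧ ‖b‖ < ρ := by
    have h2 : ∀ᶠ b in 𝓝 (0 : ℂ), D b ≠ 0 := by
      refine hDc.eventually_ne ?_
      rw [hD0]; exact hQ
    have h3 : ball (0 : ℂ) ρ ∈ 𝓝 (0 : ℂ) := ball_mem_nhds _ hρ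
    filter_upwards [h2, h3] with b hb hb2
    exact ⟨hb, mem_ball_zero_iff.1 hb2⟩
  have hΛd : ∀ᶠ b in 𝓝 (0 : ℂ), HasDerivAt Λ (k * b ^ (k - 1) * h b) b := by
    filter_upwards [hevD] with b hb
    obtain ⟨hb1, hb2⟩ := hb
    have hτb : HasDerivAt τ (deriv τ b) b := (hτD b hb2).hasDerivAt
    have h1 := (hAd b _ hτb).div (hDd b _ hτb) hb1
    refine h1.congr_deriv ?_
    have h2 := hcrit b hb2
    simp only [wr, derivative_add, derivative_mul, derivative_C, zero_mul, zero_add,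
      Polynomial.eval_sub, Polynomial.eval_mul, Polynomial.eval_add, Polynomial.eval_C] at h2
    simp only [hh, hR]
    rw [div_eq_iff (pow_ne_zero 2 hb1)]
    have h4 : (k : ℂ) * b ^ (k - 1) * ((H.eval (τ b) * Q.eval (τ b) - P.eval (τ b) * G.eval (τ b)) /
        D b ^ 2) * D b ^ 2 =
        (k : ℂ) * b ^ (k - 1) * (H.eval (τ b) * Q.eval (τ b) - P.eval (τ b) * G.eval (τ b)) := by
      rw [mul_assoc, div_mul_cancel₀ _ (pow_ne_zero 2 hb1)]
    rw [h4]
    simp only [hA, hD]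
    linear_combination (deriv τ b) * h2
  set γ₀ : ℂ := (wr H Q + wr P G).eval c / Q.eval c ^ 2 * t with hγ₀
  have hhd : HasDerivAt h γ₀ 0 := by
    have h1 : HasDerivAt (fun b => R (τ b))
        (((derivative H).eval c * t * Q.eval c + H.eval c * ((derivative Q).eval c * t)) -
          ((derivative P).eval c * t * G.eval c + P.eval c * ((derivative G).eval c * t))) 0 := by
      have h2 := ((hpoly H 0 t hτd).mul (hpoly Q 0 t hτd)).sub
        ((hpoly P 0 t hτd).mul (hpoly G 0 t hτd))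
      rw [hτ0] at h2
      exact h2
    have h3 : HasDerivAt D ((derivative Q).eval c * t) 0 := by
      have h4 := hDd 0 t hτd
      rw [hτ0] at h4
      refine h4.congr_deriv ?_
      have h5 : (0 : ℂ) ^ (k - 1) = 0 := zero_pow (by omega)
      rw [h5, zero_pow hk0]
      ring
    have hD0' : D 0 ≠ 0 := by rw [hD0]; exact hQ
    have h6 := h1.div (h3.pow 2) (pow_ne_zero 2 hD0')
    refine h6.congr_deriv ?_
    have h7 := hcrit 0 (by rw [norm_zero]; exact hρ)
    rw [zero_pow hk0, hτ0] at h7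
    simp only [wr, C_0, zero_mul, add_zero, Polynomial.eval_sub, Polynomial.eval_mul] at h7
    simp only [Pi.pow_apply, hD0, hτ0, hR, hγ₀, wr, Polynomial.eval_add, Polynomial.eval_sub,
      Polynomial.eval_mul]
    field_simp
    push_cast
    linear_combination (-2 * G.eval c * Q.eval c) * h7
  set g : ℂ → ℂ := fun b => h b - h (ω * b) with hg
  set γ : ℂ := γ₀ * (1 - ω) with hγ
  have hγ0 : γ ≠ 0 := mul_ne_zero (mul_ne_zero (div_ne_zero hN₁ (pow_ne_zero _ hQ)) ht)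
    (sub_ne_zero.2 hω1.symm)
  have hgd : HasDerivAt g γ 0 := by
    have h4 : HasDerivAt (fun b : ℂ => h (ω * b)) (γ₀ * ω) 0 := by
      have h5 : HasDerivAt (fun b : ℂ => ω * b) ω 0 := by
        simpa using (hasDerivAt_id (0 : ℂ)).const_mul ω
      have h6 : HasDerivAt h γ₀ (ω * 0) := by
        rw [mul_zero]; exact hhd
      exact h6.comp (0 : ℂ) h5
    have h7 := hhd.sub h4
    refine h7.congr_deriv ?_
    rw [hγ]; ring
  have hg0 : g 0 = 0 := by simp [hg]
  have hgo : (fun b => g b - γ * b) =o[𝓝 0] fun b : ℂ => b := by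
    have h1 := hgd.isLittleO
    simpa [hg0, mul_comm] using h1
  have hΔ : ∀ᶠ b in 𝓝 (0 : ℂ), HasDerivAt (fun b => Λ b - Λ (ω * b)) (k * b ^ (k - 1) * g b) b := by
    have h1 : Tendsto (fun b : ℂ => ω * b) (𝓝 0) (𝓝 0) := by
      have : Continuous (fun b : ℂ => ω * b) := by fun_prop
      simpa using this.tendsto 0
    filter_upwards [hΛd, h1.eventually hΛd] with b hb hb2
    have h5 : HasDerivAt (fun b : ℂ => ω * b) ω b := by
      simpa using (hasDerivAt_id b).const_mul ω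
    have h6 := hb.sub (hb2.comp b h5)
    refine h6.congr_deriv ?_
    have h7 : (ω * b) ^ (k - 1) * ω = b ^ (k - 1) := by
      obtain ⟨j, rfl⟩ : ∃ j, k = j + 1 := ⟨k - 1, by omega⟩
      simp only [Nat.add_sub_cancel]
      rw [mul_pow]
      have : ω ^ j * ω = 1 := by rw [← pow_succ]; exact hω
      linear_combination b ^ j * this
    simp only [hg]
    linear_combination (-(k : ℂ) * h (ω * b)) * h7
  have hlim := Pool.Agent.H792R2.Rt.integrate_lim hk1 (Δ := fun b => Λ b - Λ (ω * b))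
    (by simp) hΔ hgo
  refine ⟨k * γ / (k + 1), ?_, ?_⟩
  · refine div_ne_zero (mul_ne_zero (by exact_mod_cast hk0) hγ0) (Nat.cast_add_one_ne_zero k)
  · refine hlim.congr fun b => ?_
    simp only [hΛ, hA, hD, rf, Polynomial.eval_add, Polynomial.eval_mul, Polynomial.eval_C]
    rw [mul_pow, hω, one_mul]

end Pool.Agent.H792R2.CE
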