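import Pool.Agent.H792R2.CE.Defs

set_option autoImplicit false

open Filter Topology Metric Set Polynomial MeasureTheory
open scoped OnePoint

namespace Pool.Agent.H792R2.CE

open Pool.Agent.Helper114.Herman

namespace B2x

theorem sph_pr {d : ℕ} {P Q : ℂ[X]} (hP : P.natDegree ≤ d) (hQ : Q.natDegree ≤ d) {u v : ℂ}
    (h : u ≠ 0 ∨ v ≠ 0) : sph d P Q (pr u v) = pr (hom P d u v) (hom Q d u v) := by
  by_cases hv : v = 0
  · subst hv
    have hu : u ≠ 0 := by simpa using h
    rw [pr_zero, sph_infty, hom_zero, hom_zero, mul_comm _ (u ^ d), mul_comm _ (u ^ d),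
      Pool.Agent.Helper114.Konig.pr_smul (pow_ne_zero _ hu)]
  · rw [pr_ne hv, sph_coe, hom_ne hP hv, hom_ne hQ hv, Pool.Agent.Helper114.Konig.pr_smul (pow_ne_zero _ hv)]

theorem hom_add_C (P H : ℂ[X]) (d : ℕ) (s u v : ℂ) :
    hom (P + C s * H) d u v = hom P d u v + s * hom H d u v := by
  simp only [hom, coeff_add, coeff_C_mul, Finset.mul_sum, ← Finset.sum_add_distrib]
  refine Finset.sum_congr rfl fun k _ => ?_
  ring

theorem deg_add_C {P H : ℂ[X]} {d : ℕ} (hP : P.natDegree ≤ d) (hH : H.natDegree ≤ d) (s : ℂ) :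
    (P + C s * H).natDegree ≤ d :=
  (natDegree_add_le _ _).trans (max_le hP ((natDegree_C_mul_le _ _).trans hH))

theorem chart {d : ℕ} {P Q H G : ℂ[X]} (hd : 0 < d) (hc : IsCoprime P Q)
    (hPd : P.natDegree ≤ d) (hQd : Q.natDegree = d) (hHd : H.natDegree ≤ d)
    (hGd : G.natDegree ≤ d) {a b : ℂ → ℂ} (ha : Continuous a) (hb : Continuous b)
    (hab : ∀ w, a w ≠ 0 ∨ b w ≠ 0) (w : ℂ) :
    ContinuousAt (fun p : ℂ × ℂ =>
      sph d (P + C p.1 * H) (Q + C p.1 * G) (pr (a p.2) (b p.2))) (0, w) := by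
  have h1 : (fun p : ℂ × ℂ => sph d (P + C p.1 * H) (Q + C p.1 * G) (pr (a p.2) (b p.2))) =
      (fun q : ℂ × ℂ => pr q.1 q.2) ∘ fun p : ℂ × ℂ =>
        (hom P d (a p.2) (b p.2) + p.1 * hom H d (a p.2) (b p.2),
          hom Q d (a p.2) (b p.2) + p.1 * hom G d (a p.2) (b p.2)) := by
    funext p
    rw [sph_pr (deg_add_C hPd hHd _) (deg_add_C hQd.le hGd _) (hab _), hom_add_C, hom_add_C]
    rfl
  rw [h1]
  have hmax : d = max P.natDegree Q.natDegree := by rw [hQd, max_eq_right hPd]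
  have hnb := hom_not_both hc hmax (hab w) hd
  have hcc : ∀ R : ℂ[X], Continuous fun p : ℂ × ℂ => hom R d (a p.2) (b p.2) := fun R =>
    (continuous_hom R d).comp ((ha.comp continuous_snd).prodMk (hb.comp continuous_snd))
  refine ContinuousAt.comp ?_ ((((hcc P).add (continuous_fst.mul (hcc H))).prodMk
    ((hcc Q).add (continuous_fst.mul (hcc G)))).continuousAt)
  have h2 := continuousAt_pr hnb
  simpa using h2

theorem step {d : ℕ} {P Q H G : ℂ[X]} (hd : 0 < d) (hc : IsCoprime P Q)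
    (hPd : P.natDegree ≤ d) (hQd : Q.natDegree = d) (hHd : H.natDegree ≤ d)
    (hGd : G.natDegree ≤ d) (x : OnePoint ℂ) :
    ContinuousAt (fun p : ℂ × OnePoint ℂ =>
      sph d (P + C p.1 * H) (Q + C p.1 * G) p.2) (0, x) := by
  have main : ∀ (e : ℂ → OnePoint ℂ) (a b : ℂ → ℂ), IsOpenEmbedding e → Continuous a →
      Continuous b → (∀ w, a w ≠ 0 ∨ b w ≠ 0) → (∀ w, e w = pr (a w) (b w)) → ∀ w : ℂ, 
      ContinuousAt (fun p : ℂ × OnePoint ℂ =>
        sph d (P + C p.1 * H) (Q + C p.1 * G) p.2) (0, e w) := by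
    intro e a b he ha hb hab hee w
    have h1 : IsOpenEmbedding (Prod.map (id : ℂ → ℂ) e) := IsOpenEmbedding.id.prodMap he
    have h2 := h1.continuousAt_iff (g := fun p : ℂ × OnePoint ℂ =>
        sph d (P + C p.1 * H) (Q + C p.1 * G) p.2) (x := ((0 : ℂ), w))
    refine h2.1 ?_
    have h3 := chart hd hc hPd hQd hHd hGd ha hb hab w
    refine h3.congr (Eventually.of_forall fun p => ?_)
    simp [hee]
  induction x using OnePoint.rec with
  | infty =>
    have he : IsOpenEmbedding (fun w : ℂ => sinv (w : OnePoint ℂ)) :=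
      sinvHomeo.isOpenEmbedding.comp OnePoint.isOpenEmbedding_coe
    have := main _ (fun _ => 1) (fun w => w) he continuous_const continuous_id
      (fun w => Or.inl one_ne_zero) (fun w => by rw [← pr_one w, sinv_pr (Or.inr one_ne_zero)]) 0
    simpa [sinv_zero] using this
  | coe z =>
    exact main _ (fun w => w) (fun _ => 1) OnePoint.isOpenEmbedding_coe continuous_id
      continuous_const (fun w => Or.inr one_ne_zero) (fun w => (pr_one w).symm) z

end B2x

/-- B2. joint continuity of the iterates at the parameter `0`. -/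
theorem B2_joint {d : ℕ} {P Q H G : ℂ[X]} (hd : 0 < d) (hc : IsCoprime P Q)
    (hPd : P.natDegree ≤ d) (hQd : Q.natDegree = d) (hHd : H.natDegree ≤ d)
    (hGd : G.natDegree ≤ d) (n : ℕ) (x : OnePoint ℂ) :
    ContinuousAt (fun p : ℂ × OnePoint ℂ =>
      (sph d (P + C p.1 * H) (Q + C p.1 * G))^[n] p.2) (0, x) := by
  induction n with
  | zero => exact continuousAt_snd
  | succ n ih =>
    have h1 : (fun p : ℂ × OnePoint ℂ => (sph d (P + C p.1 * H) (Q + C p.1 * G))^[n + 1] p.2) =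
        (fun p : ℂ × OnePoint ℂ => sph d (P + C p.1 * H) (Q + C p.1 * G) p.2) ∘
          fun p : ℂ × OnePoint ℂ => (p.1, (sph d (P + C p.1 * H) (Q + C p.1 * G))^[n] p.2) := by
      funext p
      simp [Function.iterate_succ_apply']
    rw [h1]
    exact ContinuousAt.comp (B2x.step hd hc hPd hQd hHd hGd _) (continuousAt_fst.prodMk ih)

end Pool.Agent.H792R2.CE
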