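import Pool.Agent.H792R2.CE.Defs

/-! Task B3: small perturbations are still reduced fractions of the same degree. -/

set_option autoImplicit false

open Filter Topology Metric Set Polynomial MeasureTheory
open scoped OnePoint NNReal

namespace Pool.Agent.H792R2.CE

open Pool.Agent.Helper114.Herman

namespace B3x

/-- uniform bound for the roots of a perturbation -/
theorem root_bound {d : ℕ} {Q G : ℂ[X]} (hQd : Q.natDegree = d) (hGd : G.natDegree ≤ d)
    (hq : Q.coeff d ≠ 0) {s : ℂ} (hs1 : ‖s‖ ≤ 1) (hs2 : ‖s‖ * ‖G.coeff d‖ ≤ ‖Q.coeff d‖ / 2) :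
    (Q + C s * G).natDegree = d ∧ ∀ a : ℂ, (Q + C s * G).IsRoot a →
      ‖a‖ ≤ (∑ i ∈ Finset.range d, (‖Q.coeff i‖ + ‖G.coeff i‖)) / (‖Q.coeff d‖ / 2) + 1 := by
  have hqpos : 0 < ‖Q.coeff d‖ := norm_pos_iff.mpr hq
  have hcoeff : ∀ i, (Q + C s * G).coeff i = Q.coeff i + s * G.coeff i := by
    intro i
    rw [coeff_add, coeff_C_mul]
  have hlead : ‖Q.coeff d‖ / 2 ≤ ‖(Q + C s * G).coeff d‖ := by
    rw [hcoeff]
    have h1 : ‖Q.coeff d‖ ≤ ‖Q.coeff d + s * G.coeff d‖ + ‖s * G.coeff d‖ := by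
      have := norm_sub_le (Q.coeff d + s * G.coeff d) (s * G.coeff d)
      simpa using this
    rw [norm_mul] at h1
    linarith
  have hne : (Q + C s * G).coeff d ≠ 0 := by
    intro h
    rw [h, norm_zero] at hlead
    linarith
  have hle : (Q + C s * G).natDegree ≤ d := by
    refine (natDegree_add_le _ _).trans (max_le hQd.le ?_)
    exact (natDegree_C_mul_le _ _).trans hGd
  have hdeg : (Q + C s * G).natDegree = d := natDegree_eq_of_le_of_coeff_ne_zero hle hne
  refine ⟨hdeg, fun a ha => ?_⟩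
  have hp : Q + C s * G ≠ 0 := by
    intro h
    rw [h] at hne
    simp at hne
  have h1 := ha.norm_lt_cauchyBound hp
  have h2 : (cauchyBound (Q + C s * G) : ℝ) ≤
      (∑ i ∈ Finset.range d, (‖Q.coeff i‖ + ‖G.coeff i‖)) / (‖Q.coeff d‖ / 2) + 1 := by
    unfold cauchyBound
    rw [NNReal.coe_add, NNReal.coe_div, NNReal.coe_one, leadingCoeff, hdeg, coe_nnnorm]
    apply add_le_add _ le_rfl
    have h3 : ((Finset.sup (Finset.range d) (fun i => ‖(Q + C s * G).coeff i‖₊) : ℝ≥0) : ℝ) ≤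
        ∑ i ∈ Finset.range d, (‖Q.coeff i‖ + ‖G.coeff i‖) := by
      have h4 : Finset.sup (Finset.range d) (fun i => ‖(Q + C s * G).coeff i‖₊) ≤
          ∑ i ∈ Finset.range d, (‖Q.coeff i‖₊ + ‖G.coeff i‖₊) := by
        apply Finset.sup_le
        intro i hi
        refine le_trans ?_ (Finset.single_le_sum
          (f := fun i => (‖Q.coeff i‖₊ + ‖G.coeff i‖₊)) (fun _ _ => zero_le) hi)
        rw [hcoeff]
        refine (nnnorm_add_le _ _).trans (add_le_add le_rfl ?_)
        rw [nnnorm_mul]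
        have : ‖s‖₊ ≤ 1 := by exact_mod_cast hs1
        calc ‖s‖₊ * ‖G.coeff i‖₊ ≤ 1 * ‖G.coeff i‖₊ := by gcongr
          _ = ‖G.coeff i‖₊ := one_mul _
      calc ((Finset.sup (Finset.range d) (fun i => ‖(Q + C s * G).coeff i‖₊) : ℝ≥0) : ℝ)
          ≤ ((∑ i ∈ Finset.range d, (‖Q.coeff i‖₊ + ‖G.coeff i‖₊) : ℝ≥0) : ℝ) := by
            exact_mod_cast h4
        _ = ∑ i ∈ Finset.range d, (‖Q.coeff i‖ + ‖G.coeff i‖) := by
            push_cast
            rfl
    exact div_le_div₀ (Finset.sum_nonneg fun i _ => by positivity) h3 (by positivity) hlead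
  have h5 : ‖a‖ < (cauchyBound (Q + C s * G) : ℝ) := by exact_mod_cast h1
  exact h5.le.trans h2

end B3x

/-- B3. small perturbations are still reduced fractions of the same degree. -/
theorem B3_coprime {d : ℕ} {P Q H G : ℂ[X]} (hd : 0 < d) (hc : IsCoprime P Q)
    (hPd : P.natDegree ≤ d) (hQd : Q.natDegree = d) (hHd : H.natDegree ≤ d)
    (hGd : G.natDegree ≤ d) :
    ∀ᶠ s : ℂ in 𝓝 0, IsCoprime (P + C s * H) (Q + C s * G) ∧
      (P + C s * H).natDegree ≤ d ∧ (Q + C s * G).natDegree = d := by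
  have hQ0 : Q ≠ 0 := by
    intro h
    rw [h, natDegree_zero] at hQd
    omega
  have hq : Q.coeff d ≠ 0 := by
    rw [← hQd]
    exact leadingCoeff_ne_zero.mpr hQ0
  have hqpos : 0 < ‖Q.coeff d‖ := norm_pos_iff.mpr hq
  obtain ⟨u, w, huw⟩ := hc
  set R : ℝ := (∑ i ∈ Finset.range d, (‖Q.coeff i‖ + ‖G.coeff i‖)) / (‖Q.coeff d‖ / 2) + 1
    with hR
  obtain ⟨B, hB⟩ := (isCompact_closedBall (0 : ℂ) R).exists_bound_of_continuousOn
    (f := fun z => (u * H + w * G).eval z) (u * H + w * G).continuous.continuousOn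
  have e1 : ∀ᶠ s : ℂ in 𝓝 0, ‖s‖ < 1 := by
    have : ContinuousAt (fun s : ℂ => ‖s‖) 0 := continuous_norm.continuousAt
    apply this.eventually_lt_const
    simp
  have e2 : ∀ᶠ s : ℂ in 𝓝 0, ‖s‖ * ‖G.coeff d‖ < ‖Q.coeff d‖ / 2 := by
    have : ContinuousAt (fun s : ℂ => ‖s‖ * ‖G.coeff d‖) 0 :=
      (continuous_norm.mul continuous_const).continuousAt
    apply this.eventually_lt_const
    simp only [norm_zero, zero_mul]
    linarith
  have e3 : ∀ᶠ s : ℂ in 𝓝 0, ‖s‖ * |B| < 1 := by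
    have : ContinuousAt (fun s : ℂ => ‖s‖ * |B|) 0 :=
      (continuous_norm.mul continuous_const).continuousAt
    apply this.eventually_lt_const
    simp
  filter_upwards [e1, e2, e3] with s h1 h2 h3
  obtain ⟨hdeg, hroot⟩ := B3x.root_bound hQd hGd hq h1.le h2.le
  refine ⟨?_, ?_, hdeg⟩
  · rw [Polynomial.isCoprime_iff_aeval_ne_zero_of_isAlgClosed ℂ ℂ]
    intro a
    by_contra hcon
    push Not at hcon
    simp only [coe_aeval_eq_eval] at hcon
    have ha := hroot a hcon.2
    have hb := hB a (by rw [mem_closedBall, dist_zero_right]; exact ha)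
    have h4 : u.eval a * (P + C s * H).eval a + w.eval a * (Q + C s * G).eval a =
        1 + s * (u * H + w * G).eval a := by
      have h5 := congrArg (eval a) huw
      simp only [eval_add, eval_mul, eval_one, eval_C] at h5 ⊢
      linear_combination h5
    rw [hcon.1, hcon.2, mul_zero, mul_zero, add_zero] at h4
    have h6 : s * (u * H + w * G).eval a = -1 := by linear_combination -h4
    have h7 := congrArg norm h6
    rw [norm_mul, norm_neg, norm_one] at h7
    have h8 : ‖s‖ * ‖(u * H + w * G).eval a‖ ≤ ‖s‖ * |B| :=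
      mul_le_mul_of_nonneg_left (hb.trans (le_abs_self B)) (norm_nonneg s)
    linarith
  · refine (natDegree_add_le _ _).trans (max_le hPd ?_)
    exact (natDegree_C_mul_le _ _).trans hHd

end Pool.Agent.H792R2.CE
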