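import Pool.Agent.H792R2.CE.Defs

/-! # C1 : attracted points are stable under perturbation (helper790) -/

set_option autoImplicit false

open Filter Topology Metric Set Polynomial MeasureTheory
open scoped OnePoint

namespace Pool.Agent.H792R2.CE

open Pool.Agent.Helper114.Herman

namespace C1x

theorem finite_orbit {d : ℕ} {P Q : ℂ[X]} {z : ℂ}
    (h : ∀ i : ℕ, (sph d P Q)^[i] (z : OnePoint ℂ) ≠ ∞) (i : ℕ) :
    (sph d P Q)^[i] (z : OnePoint ℂ) = (((rf P Q)^[i] z : ℂ) : OnePoint ℂ) ∧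
      Q.eval ((rf P Q)^[i] z) ≠ 0 := by
  have key : ∀ i : ℕ, (sph d P Q)^[i] (z : OnePoint ℂ) = (((rf P Q)^[i] z : ℂ) : OnePoint ℂ) →
      Q.eval ((rf P Q)^[i] z) ≠ 0 := by
    intro i hi hq
    apply h (i + 1)
    rw [Function.iterate_succ_apply', hi, sph_coe, hq, pr_zero]
  have all : ∀ i : ℕ, (sph d P Q)^[i] (z : OnePoint ℂ) = (((rf P Q)^[i] z : ℂ) : OnePoint ℂ) := by
    intro i
    induction i with
    | zero => rfl
    | succ i ih =>
      rw [Function.iterate_succ_apply', Function.iterate_succ_apply', ih,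
        sph_coe_of_ne (key i ih)]
  exact ⟨all i, key i (all i)⟩

theorem orbit_of_ne {d : ℕ} {P Q : ℂ[X]} {z : ℂ} {n : ℕ}
    (h : ∀ i < n, Q.eval ((rf P Q)^[i] z) ≠ 0) (i : ℕ) (hi : i ≤ n) :
    (sph d P Q)^[i] (z : OnePoint ℂ) = (((rf P Q)^[i] z : ℂ) : OnePoint ℂ) := by
  induction i with
  | zero => rfl
  | succ i ih =>
    rw [Function.iterate_succ_apply', Function.iterate_succ_apply', ih (by omega),
      sph_coe_of_ne (h i (by omega))]

/-- iterates of the plane family -/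
noncomputable def fn (P Q H G : ℂ[X]) (n : ℕ) (p : ℂ × ℂ) : ℂ :=
  (rf (P + C p.1 * H) (Q + C p.1 * G))^[n] p.2

theorem fn_zero_left (P Q H G : ℂ[X]) (n : ℕ) (z : ℂ) :
    fn P Q H G n (0, z) = (rf P Q)^[n] z := by
  unfold fn
  simp only [C_0, zero_mul, add_zero]

theorem fn_contDiffAt {P Q H G : ℂ[X]} {z : ℂ}
    (h : ∀ i : ℕ, Q.eval ((rf P Q)^[i] z) ≠ 0) (n : ℕ) :
    ContDiffAt ℂ 1 (fn P Q H G n) (0, z) := by
  induction n with
  | zero => exact contDiffAt_snd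
  | succ n ih =>
    have h0 : fn P Q H G n (0, z) = (rf P Q)^[n] z := fn_zero_left P Q H G n z
    have h1 : ContDiffAt ℂ 1
        (fun q : ℂ × ℂ => rf (P + C (q.1 ^ 1) * H) (Q + C (q.1 ^ 1) * G) q.2)
        ((0 : ℂ), fn P Q H G n (0, z)) := by
      apply rf_contDiffAt
      rw [h0]
      simpa using h n
    simp only [pow_one] at h1
    have h2 : ContDiffAt ℂ 1 (fun p : ℂ × ℂ => (p.1, fn P Q H G n p)) ((0 : ℂ), z) :=
      contDiffAt_fst.prodMk ih
    have h3 := ContDiffAt.comp ((0 : ℂ), z)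
      (g := fun q : ℂ × ℂ => rf (P + C q.1 * H) (Q + C q.1 * G) q.2)
      (f := fun p : ℂ × ℂ => (p.1, fn P Q H G n p)) h1 h2
    have h4 : (fn P Q H G (n + 1)) =
        (fun q : ℂ × ℂ => rf (P + C q.1 * H) (Q + C q.1 * G) q.2) ∘
          (fun p : ℂ × ℂ => (p.1, fn P Q H G n p)) := by
      funext p
      simp only [Function.comp_apply, fn, Function.iterate_succ_apply']
    rw [h4]
    exact h3

theorem den_ne {P Q H G : ℂ[X]} {z : ℂ}
    (h : ∀ i : ℕ, Q.eval ((rf P Q)^[i] z) ≠ 0) (n : ℕ) :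
    ∀ᶠ p : ℂ × ℂ in 𝓝 ((0 : ℂ), z), (Q + C p.1 * G).eval (fn P Q H G n p) ≠ 0 := by
  have hc : ContinuousAt (fun p : ℂ × ℂ => (Q + C p.1 * G).eval (fn P Q H G n p))
      ((0 : ℂ), z) := by
    have h1 : ContinuousAt (fn P Q H G n) ((0 : ℂ), z) := (fn_contDiffAt h n).continuousAt
    have h2 : ∀ R : ℂ[X], ContinuousAt (fun p : ℂ × ℂ => R.eval (fn P Q H G n p))
        ((0 : ℂ), z) := fun R => R.continuous.continuousAt.comp h1
    simp only [eval_add, eval_mul, eval_C]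
    exact (h2 Q).add (continuousAt_fst.mul (h2 G))
  apply hc.eventually_ne
  rw [fn_zero_left]
  simpa using h n

end C1x

open C1x in
/-- C1. attracted points stay attracted under perturbation of the map and of the point. -/
theorem C1_stable {d : ℕ} {P Q H G : ℂ[X]}
    (hB : ∀ (n : ℕ) (x : OnePoint ℂ), ContinuousAt (fun p : ℂ × OnePoint ℂ =>
      (sph d (P + C p.1 * H) (Q + C p.1 * G))^[n] p.2) (0, x))
    {x : OnePoint ℂ} (hx : Att d P Q x) :
    ∀ᶠ p : ℂ × OnePoint ℂ in 𝓝 (0, x), Att d (P + C p.1 * H) (Q + C p.1 * G) p.2 := by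
  obtain ⟨n, hn, z₀, hfin, hper, hmult, ht⟩ := hx
  have hQ : ∀ i : ℕ, Q.eval ((rf P Q)^[i] z₀) ≠ 0 := fun i => (finite_orbit hfin i).2
  have hfix : (rf P Q)^[n] z₀ = z₀ := by
    have h1 := (finite_orbit hfin n).1
    rw [hper] at h1
    exact (OnePoint.coe_injective h1).symm
  set g : ℂ × ℂ → ℂ := fn P Q H G n with hg
  have hg0 : ContDiffAt ℂ 1 g ((0 : ℂ), z₀) := fn_contDiffAt hQ n
  have hgd : ∀ p : ℂ × ℂ, ContDiffAt ℂ 1 g p →
      HasDerivAt ((rf (P + C p.1 * H) (Q + C p.1 * G))^[n]) (fderiv ℂ g p (0, 1)) p.2 := by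
    intro p hp
    have h1 : HasFDerivAt g (fderiv ℂ g p) (p.1, p.2) :=
      (hp.differentiableAt (by norm_num)).hasFDerivAt
    have h2 : HasDerivAt (fun w : ℂ => ((p.1, w) : ℂ × ℂ)) ((0, 1) : ℂ × ℂ) p.2 :=
      (hasDerivAt_const p.2 p.1).prodMk (hasDerivAt_id p.2)
    exact h1.comp_hasDerivAt p.2 h2
  obtain ⟨lam, hlam1, hlam2⟩ := exists_between hmult
  have hlam0 : 0 ≤ lam := (norm_nonneg _).trans hlam1.le
  have hDc : ContinuousAt (fun p : ℂ × ℂ => ‖fderiv ℂ g p (0, 1)‖) ((0 : ℂ), z₀) := by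
    have h1 : ContDiffAt ℂ 0 (fderiv ℂ g) ((0 : ℂ), z₀) := hg0.fderiv_right (by norm_num)
    exact (h1.continuousAt.clm_apply continuousAt_const).norm
  have hD0 : ‖fderiv ℂ g ((0 : ℂ), z₀) (0, 1)‖ < lam := by
    have h1 := (hgd _ hg0).deriv
    simp only [C_0, zero_mul, add_zero] at h1
    rw [← h1]
    exact hlam1
  have hev : ∀ᶠ p : ℂ × ℂ in 𝓝 ((0 : ℂ), z₀), ‖fderiv ℂ g p (0, 1)‖ < lam ∧
      ContDiffAt ℂ 1 g p ∧
      (∀ i ∈ Finset.range n, (Q + C p.1 * G).eval (fn P Q H G i p) ≠ 0) := by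
    have h1 : ∀ᶠ p : ℂ × ℂ in 𝓝 ((0 : ℂ), z₀), ‖fderiv ℂ g p (0, 1)‖ < lam :=
      hDc.tendsto.eventually (Iio_mem_nhds hD0)
    have h2 : ∀ᶠ p : ℂ × ℂ in 𝓝 ((0 : ℂ), z₀), ContDiffAt ℂ 1 g p :=
      hg0.eventually (by norm_num)
    have h3 : ∀ᶠ p : ℂ × ℂ in 𝓝 ((0 : ℂ), z₀),
        ∀ i ∈ Finset.range n, (Q + C p.1 * G).eval (fn P Q H G i p) ≠ 0 :=
      (Finset.eventually_all _).2 fun i _ => den_ne hQ i
    filter_upwards [h1, h2, h3] with p a b c
    exact ⟨a, b, c⟩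
  obtain ⟨η₀, hη₀, hball⟩ := Metric.mem_nhds_iff.1 hev
  set η := η₀ / 2 with hη
  have hηpos : 0 < η := by rw [hη]; linarith
  have hin : ∀ a z, ‖a‖ < η₀ → z ∈ closedBall z₀ η → ((a, z) : ℂ × ℂ) ∈ ball ((0 : ℂ), z₀) η₀ := by
    intro a z ha hz
    rw [mem_ball, Prod.dist_eq, max_lt_iff]
    refine ⟨by simpa using ha, ?_⟩
    rw [mem_closedBall] at hz
    exact lt_of_le_of_lt hz (by rw [hη]; linarith)
  have hgd' : ∀ a z, ‖a‖ < η₀ → z ∈ closedBall z₀ η →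
      HasDerivAt ((rf (P + C a * H) (Q + C a * G))^[n]) (fderiv ℂ g (a, z) (0, 1)) z :=
    fun a z ha hz => hgd (a, z) (hball (hin a z ha hz)).2.1
  have hDη : ∀ a z, ‖a‖ < η₀ → z ∈ closedBall z₀ η →
      ‖deriv ((rf (P + C a * H) (Q + C a * G))^[n]) z‖ ≤ lam := by
    intro a z ha hz
    rw [(hgd' a z ha hz).deriv]
    exact (hball (hin a z ha hz)).1.le
  -- displacement of the centre
  have hdisp : ∀ᶠ a : ℂ in 𝓝 0,
      ‖(rf (P + C a * H) (Q + C a * G))^[n] z₀ - z₀‖ < (1 - lam) * η := by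
    have hc : ContinuousAt (fun a : ℂ => g (a, z₀)) 0 := by
      have h1 : ContinuousAt g ((0 : ℂ), z₀) := hg0.continuousAt
      have h2 : ContinuousAt (fun a : ℂ => ((a, z₀) : ℂ × ℂ)) 0 := by fun_prop
      exact ContinuousAt.comp (f := fun a : ℂ => ((a, z₀) : ℂ × ℂ)) h1 h2
    have hc2 : ContinuousAt (fun a : ℂ => ‖g (a, z₀) - z₀‖) 0 := (hc.sub continuousAt_const).norm
    have h0 : ‖g ((0 : ℂ), z₀) - z₀‖ < (1 - lam) * η := by
      rw [hg, fn_zero_left, hfix, sub_self, norm_zero]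
      exact mul_pos (by linarith) hηpos
    exact hc2.tendsto.eventually (Iio_mem_nhds h0)
  obtain ⟨δ₁, hδ₁, hδ₁'⟩ := Metric.mem_nhds_iff.1 hdisp
  have hmap : ∀ a, ‖a‖ < min η₀ δ₁ →
      MapsTo ((rf (P + C a * H) (Q + C a * G))^[n]) (closedBall z₀ η) (closedBall z₀ η) ∧
      LipschitzOnWith ⟨lam, hlam0⟩ ((rf (P + C a * H) (Q + C a * G))^[n])
        (closedBall z₀ η) := by
    intro a ha
    have ha1 : ‖a‖ < η₀ := lt_of_lt_of_le ha (min_le_left _ _)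
    have ha2 : ‖a‖ < δ₁ := lt_of_lt_of_le ha (min_le_right _ _)
    have hL : LipschitzOnWith ⟨lam, hlam0⟩ ((rf (P + C a * H) (Q + C a * G))^[n])
        (closedBall z₀ η) := by
      apply (convex_closedBall z₀ η).lipschitzOnWith_of_nnnorm_deriv_le
        (fun z hz => (hgd' a z ha1 hz).differentiableAt)
      intro z hz
      have := hDη a z ha1 hz
      exact_mod_cast this
    refine ⟨?_, hL⟩
    intro z hz
    have h1 := hL.dist_le_mul z hz z₀ (mem_closedBall_self hηpos.le)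
    have h2 : dist ((rf (P + C a * H) (Q + C a * G))^[n] z₀) z₀ < (1 - lam) * η := by
      rw [dist_eq_norm]
      have : a ∈ ball (0 : ℂ) δ₁ := by simpa using ha2
      exact hδ₁' this
    rw [mem_closedBall] at hz ⊢
    have h3 : dist ((rf (P + C a * H) (Q + C a * G))^[n] z) z₀ ≤
        dist ((rf (P + C a * H) (Q + C a * G))^[n] z)
          ((rf (P + C a * H) (Q + C a * G))^[n] z₀) +
        dist ((rf (P + C a * H) (Q + C a * G))^[n] z₀) z₀ := dist_triangle _ _ _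
    have h4 : ((⟨lam, hlam0⟩ : NNReal) : ℝ) * dist z z₀ ≤ lam * η := by
      change lam * dist z z₀ ≤ lam * η
      exact mul_le_mul_of_nonneg_left hz hlam0
    have h5 : (1 - lam) * η + lam * η = η := by ring
    have h6 := h1.trans h4
    linarith
  -- entering time
  have hopen : IsOpen ((fun z : ℂ => (z : OnePoint ℂ)) '' ball z₀ η) :=
    OnePoint.isOpenEmbedding_coe.isOpenMap _ isOpen_ball
  obtain ⟨K, hK⟩ := (ht.eventually (hopen.mem_nhds
    ⟨z₀, mem_ball_self hηpos, rfl⟩)).exists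
  have h1 : ∀ᶠ p : ℂ × OnePoint ℂ in 𝓝 ((0 : ℂ), x),
      (sph d (P + C p.1 * H) (Q + C p.1 * G))^[n * K] p.2 ∈
        (fun z : ℂ => (z : OnePoint ℂ)) '' ball z₀ η := by
    apply (hB (n * K) x).tendsto.eventually
    apply hopen.mem_nhds
    simp only [C_0, zero_mul, add_zero]
    exact hK
  have h2 : ∀ᶠ p : ℂ × OnePoint ℂ in 𝓝 ((0 : ℂ), x), ‖p.1‖ < min η₀ δ₁ := by
    have hc : Continuous (fun p : ℂ × OnePoint ℂ => ‖p.1‖) := by fun_prop
    have h0 : ‖(((0 : ℂ), x) : ℂ × OnePoint ℂ).1‖ < min η₀ δ₁ := by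
      simpa using ⟨hη₀, hδ₁⟩
    exact (hc.tendsto ((0 : ℂ), x)).eventually (Iio_mem_nhds h0)
  filter_upwards [h1, h2] with p hp1 hp2
  obtain ⟨w, hw, hwe⟩ := hp1
  have hwe' : (sph d (P + C p.1 * H) (Q + C p.1 * G))^[n * K] p.2 = (w : OnePoint ℂ) := hwe.symm
  obtain ⟨hmaps, hL⟩ := hmap p.1 hp2
  have hp3 : ‖p.1‖ < η₀ := lt_of_lt_of_le hp2 (min_le_left _ _)
  set f : ℂ → ℂ := rf (P + C p.1 * H) (Q + C p.1 * G) with hf
  set F : OnePoint ℂ → OnePoint ℂ := sph d (P + C p.1 * H) (Q + C p.1 * G) with hF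
  have horb : ∀ z ∈ closedBall z₀ η, ∀ i ≤ n, F^[i] (z : OnePoint ℂ) =
      ((f^[i] z : ℂ) : OnePoint ℂ) := by
    intro z hz i hi
    apply orbit_of_ne (n := n) _ i hi
    intro j hj
    exact (hball (hin p.1 z hp3 hz)).2.2 j (Finset.mem_range.2 hj)
  have horb2 : ∀ k : ℕ, ∀ z ∈ closedBall z₀ η, F^[n * k] (z : OnePoint ℂ) =
      (((f^[n])^[k] z : ℂ) : OnePoint ℂ) ∧ (f^[n])^[k] z ∈ closedBall z₀ η := by
    intro k
    induction k with
    | zero => intro z hz; exact ⟨rfl, hz⟩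
    | succ k ih =>
      intro z hz
      have h3 : F^[n * (k + 1)] (z : OnePoint ℂ) = F^[n * k] (F^[n] (z : OnePoint ℂ)) := by
        rw [Nat.mul_succ, Function.iterate_add_apply]
      rw [h3, horb z hz n le_rfl, Function.iterate_succ_apply]
      exact ih _ (hmaps hz)
  have hcontr : ContractingWith ⟨lam, hlam0⟩ (hmaps.restrict (f^[n]) _ _) := by
    refine ⟨?_, hL.mapsToRestrict hmaps⟩
    exact_mod_cast hlam2
  obtain ⟨y, hys, hyf, hyt, -⟩ := hcontr.exists_fixedPoint' (isClosed_closedBall.isComplete)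
    hmaps (ball_subset_closedBall hw) (edist_ne_top _ _)
  have hyk : ∀ k : ℕ, (f^[n])^[k] y = y := fun k => hyf.iterate k
  refine ⟨n, hn, y, ?_, ?_, lt_of_le_of_lt (hDη p.1 y hp3 hys) hlam2, ?_⟩
  · intro i
    have h3 : F^[i] (y : OnePoint ℂ) = F^[i % n] (F^[n * (i / n)] (y : OnePoint ℂ)) := by
      rw [← Function.iterate_add_apply, Nat.mod_add_div]
    rw [h3, (horb2 (i / n) y hys).1, hyk, horb y hys (i % n) (Nat.mod_lt _ hn).le]
    exact OnePoint.coe_ne_infty _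
  · rw [horb y hys n le_rfl]
    have : f^[n] y = y := hyf
    rw [this]
  · rw [← tendsto_add_atTop_iff_nat K]
    have h3 : (fun k : ℕ => F^[n * (k + K)] p.2) =
        fun k : ℕ => (((f^[n])^[k] w : ℂ) : OnePoint ℂ) := by
      ext1 k
      rw [Nat.mul_add, Function.iterate_add_apply, hwe', (horb2 k w (ball_subset_closedBall hw)).1]
    rw [h3]
    exact (OnePoint.continuous_coe.tendsto y).comp hyt

end Pool.Agent.H792R2.CE
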