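import Pool.Agent.H792R2.CE.Defs

/-! D2 of project CE: invariance of the Cauchy series under the Ruelle operator. -/

set_option autoImplicit false

open Filter Topology Metric Set Polynomial MeasureTheory
open scoped OnePoint ENNReal

namespace Pool.Agent.H792R2.CE

/-- D2. invariance of the Cauchy series under the Ruelle operator. -/
theorem D2_inv {P Q : ℂ[X]} {d : ℕ} {c : ℂ} {v α : ℕ → ℂ} (hc : (wr P Q).eval c = 0)
    (hQc : Q.eval c ≠ 0) (hv0 : v 0 = rf P Q c) (hvs : ∀ j, v (j + 1) = rf P Q (v j))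
    (hα0 : α 0 = 1) (hαs : ∀ j, α (j + 1) = α j * (Q.eval (v j) ^ 2 / (wr P Q).eval (v j)))
    (hQv : ∀ j, Q.eval (v j) ≠ 0) (hNv : ∀ j, (wr P Q).eval (v j) ≠ 0)
    (hT : ∀ S : ℂ[X], S.natDegree ≤ 2 * d →
      (Summable fun j => S.eval (v j) / (wr P Q).eval (v j) * α j) ∧
      S.eval c / Q.eval c ^ 2 + ∑' j, S.eval (v j) / (wr P Q).eval (v j) * α j = 0)
    {x : ℂ} (_hx0 : P - C x * Q ≠ 0) (hxv : ∀ j, x ≠ v j)
    (hsum : Summable fun j => α j / (x - v j))
    (hsumw : ∀ w, (P - C x * Q).eval w = 0 → Summable fun j => α j / (w - v j))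
    (hpf : ∃ S : ℂ[X], S.natDegree ≤ 2 * d ∧ ∀ z, (P - C x * Q).eval z ≠ 0 →
      Q.eval z ^ 3 / (P - C x * Q).eval z = S.eval z + (wr P Q).eval z *
        ∑ w ∈ (P - C x * Q).roots.toFinset, Q.eval w ^ 4 / (wr P Q).eval w ^ 2 / (z - w)) :
    phi α v x = ∑ w ∈ (P - C x * Q).roots.toFinset,
      Q.eval w ^ 4 / (wr P Q).eval w ^ 2 * phi α v w := by
  obtain ⟨S, hSd, hS⟩ := hpf
  obtain ⟨hTs, hT0⟩ := hT S hSd
  set W : Finset ℂ := (P - C x * Q).roots.toFinset with hW
  have hroot : ∀ w ∈ W, (P - C x * Q).eval w = 0 := by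
    intro w hw
    rw [hW, Multiset.mem_toFinset] at hw
    exact (mem_roots'.1 hw).2
  -- values of `D` along the orbit
  have hD : ∀ z y : ℂ, Q.eval z ≠ 0 → y = rf P Q z → (P - C x * Q).eval z = Q.eval z * (y - x) := by
    intro z y hz hy
    rw [hy, rf]
    simp only [eval_sub, eval_mul, eval_C]
    field_simp
  -- at the critical point
  have hv0x : v 0 - x ≠ 0 := sub_ne_zero.2 (hxv 0).symm
  have hDc : (P - C x * Q).eval c = Q.eval c * (v 0 - x) := hD c (v 0) hQc hv0
  have hSc : S.eval c / Q.eval c ^ 2 = 1 / (v 0 - x) := by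
    have h := hS c (by rw [hDc]; exact mul_ne_zero hQc hv0x)
    rw [hc, zero_mul, add_zero, hDc] at h
    rw [← h]
    field_simp
  -- at the points of the orbit
  have hstep : ∀ j, α (j + 1) / (v (j + 1) - x) =
      S.eval (v j) / (wr P Q).eval (v j) * α j +
        ∑ w ∈ W, Q.eval w ^ 4 / (wr P Q).eval w ^ 2 * (α j / (v j - w)) := by
    intro j
    have hvx : v (j + 1) - x ≠ 0 := sub_ne_zero.2 (hxv (j + 1)).symm
    have hDj : (P - C x * Q).eval (v j) = Q.eval (v j) * (v (j + 1) - x) :=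
      hD (v j) (v (j + 1)) (hQv j) (hvs j)
    have h := hS (v j) (by rw [hDj]; exact mul_ne_zero (hQv j) hvx)
    have h2 : Q.eval (v j) ^ 2 / (v (j + 1) - x) = S.eval (v j) + (wr P Q).eval (v j) *
        ∑ w ∈ W, Q.eval w ^ 4 / (wr P Q).eval w ^ 2 / (v j - w) := by
      rw [← h, hDj]
      have := hQv j
      field_simp
    have h3 : α (j + 1) / (v (j + 1) - x) =
        α j / (wr P Q).eval (v j) * (Q.eval (v j) ^ 2 / (v (j + 1) - x)) := by
      rw [hαs j]
      ring
    rw [h3, h2, mul_add]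
    congr 1
    · ring
    · have hN := hNv j
      rw [← mul_assoc, div_mul_cancel₀ _ hN, Finset.mul_sum]
      exact Finset.sum_congr rfl fun w _ => by ring
  -- summation
  have hsw : ∀ w ∈ W, Summable fun j => Q.eval w ^ 4 / (wr P Q).eval w ^ 2 * (α j / (v j - w)) := by
    intro w hw
    apply Summable.mul_left
    have h := (hsumw w (hroot w hw)).neg
    refine h.congr fun j => ?_
    rw [← div_neg, neg_sub]
  have htw : ∀ w ∈ W, ∑' j, Q.eval w ^ 4 / (wr P Q).eval w ^ 2 * (α j / (v j - w)) =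
      -(Q.eval w ^ 4 / (wr P Q).eval w ^ 2 * phi α v w) := by
    intro w hw
    rw [tsum_mul_left, phi, ← mul_neg, ← tsum_neg]
    congr 1
    refine tsum_congr fun j => ?_
    rw [← div_neg, neg_sub]
  have hL : ∑' j, α (j + 1) / (v (j + 1) - x) = -(phi α v x) + 1 / (x - v 0) := by
    have h := hsum.tsum_eq_zero_add
    rw [hα0] at h
    rw [phi, h]
    have h2 : ∑' j, α (j + 1) / (v (j + 1) - x) = -∑' j, α (j + 1) / (x - v (j + 1)) := by
      rw [← tsum_neg]
      refine tsum_congr fun j => ?_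
      rw [← div_neg, neg_sub]
    rw [h2]
    ring
  have hR : ∑' j, (S.eval (v j) / (wr P Q).eval (v j) * α j +
        ∑ w ∈ W, Q.eval w ^ 4 / (wr P Q).eval w ^ 2 * (α j / (v j - w))) =
      -(1 / (v 0 - x)) + ∑ w ∈ W, -(Q.eval w ^ 4 / (wr P Q).eval w ^ 2 * phi α v w) := by
    rw [hTs.tsum_add (summable_sum hsw), Summable.tsum_finsetSum hsw,
      Finset.sum_congr rfl htw]
    congr 1
    rw [← hSc]
    exact eq_neg_of_add_eq_zero_right hT0
  have hfin : -(phi α v x) + 1 / (x - v 0) =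
      -(1 / (v 0 - x)) + ∑ w ∈ W, -(Q.eval w ^ 4 / (wr P Q).eval w ^ 2 * phi α v w) := by
    rw [← hL, ← hR]
    exact tsum_congr hstep
  have hneg : 1 / (x - v 0) = -(1 / (v 0 - x)) := by
    rw [← neg_sub (v 0) x, div_neg]
  rw [hneg, add_comm, Finset.sum_neg_distrib] at hfin
  have := add_left_cancel hfin
  exact neg_injective this

end Pool.Agent.H792R2.CE
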