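import Pool.Agent.H792R2.CE.Defs

/-!
Integrability of the Cauchy kernel and of Cauchy series.
-/

set_option autoImplicit false

open Filter Topology Metric Set Polynomial MeasureTheory
open scoped OnePoint ENNReal

namespace Pool.Agent.H792R2.CE

open Pool.Agent.Helper114.Herman Pool.Agent.H762R2.Rt

namespace D3x

theorem kernel_zero : ∫⁻ x in ball (0 : ℂ) 1, ‖x⁻¹‖ₑ ≠ ⊤ := by
  have h : IntegrableOn (fun x : ℂ => ‖x‖⁻¹) (ball (0 : ℂ) 1) volume := by
    rw [integrableOn_fun_norm_addHaar (μ := (volume : Measure ℂ)) (f := fun y : ℝ => y⁻¹)]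
    have h2 : IntegrableOn (fun _ : ℝ => (1 : ℝ)) (Ioo 0 1) := by
      simp
    refine h2.congr_fun ?_ measurableSet_Ioo
    intro y hy
    have : y ≠ 0 := hy.1.ne'
    simp [Complex.finrank_real_complex, this]
  have h3 := h.2
  rw [hasFiniteIntegral_iff_enorm] at h3
  have h4 : ∀ x : ℂ, ‖‖x‖⁻¹‖ₑ = ‖x⁻¹‖ₑ := by
    intro x
    rw [← norm_inv, enorm_norm]
  simp only [h4] at h3
  exact h3.ne

theorem summ_iff (f : ℕ → ℂ) : ∑' j, ‖f j‖ₑ ≠ ⊤ ↔ Summable fun j => ‖f j‖ := by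
  have h1 : (∑' j, ‖f j‖ₑ) = ∑' j, ((‖f j‖₊ : NNReal) : ℝ≥0∞) := rfl
  rw [h1, ENNReal.tsum_coe_ne_top_iff_summable, ← NNReal.summable_coe]
  rfl

theorem meas_term (α v : ℕ → ℂ) (j : ℕ) : Measurable fun x : ℂ => α j / (x - v j) :=
  measurable_const.div (measurable_id.sub measurable_const)

theorem ball_fin {α v : ℕ → ℂ} (hα : Summable fun j => ‖α j‖)
    (hker : ∀ R : ℝ, ∃ C : ℝ≥0∞, C ≠ ⊤ ∧ ∀ v : ℂ, ∫⁻ x in ball (0 : ℂ) R, ‖(x - v)⁻¹‖ₑ ≤ C)
    (R : ℝ) : ∫⁻ x in ball (0 : ℂ) R, ∑' j, ‖α j / (x - v j)‖ₑ ≠ ⊤ := by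
  obtain ⟨C, hC, hCv⟩ := hker R
  rw [lintegral_tsum fun j => (meas_term α v j).enorm.aemeasurable]
  have hα' : ∑' j, ‖α j‖ₑ ≠ ⊤ := (summ_iff α).mpr hα
  have hle : ∑' j, ∫⁻ x in ball (0 : ℂ) R, ‖α j / (x - v j)‖ₑ ≤ ∑' j, ‖α j‖ₑ * C := by
    apply ENNReal.tsum_le_tsum
    intro j
    have : ∀ x : ℂ, ‖α j / (x - v j)‖ₑ = ‖α j‖ₑ * ‖(x - v j)⁻¹‖ₑ := fun x => by
      rw [div_eq_mul_inv, enorm_mul]
    simp only [this]
    rw [lintegral_const_mul]
    · gcongr
      exact hCv _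
    · exact ((measurable_id.sub measurable_const).inv).enorm
  rw [ENNReal.tsum_mul_right] at hle
  exact ne_top_of_le_ne_top (ENNReal.mul_ne_top hα' hC) hle

end D3x

open D3x

/-- D3a. the Cauchy kernel is locally integrable, uniformly in the pole. -/
theorem D3a_kernel (R : ℝ) : ∃ C : ℝ≥0∞, C ≠ ⊤ ∧ ∀ v : ℂ,
    ∫⁻ x in ball (0 : ℂ) R, ‖(x - v)⁻¹‖ₑ ≤ C := by
  refine ⟨(∫⁻ x in ball (0 : ℂ) 1, ‖x⁻¹‖ₑ) + volume (ball (0 : ℂ) R),
    ENNReal.add_ne_top.mpr ⟨kernel_zero, measure_ball_lt_top.ne⟩, fun v => ?_⟩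
  set g : ℂ → ℝ≥0∞ := (ball (0 : ℂ) 1).indicator fun x => ‖x⁻¹‖ₑ with hg
  have hpt : ∀ x : ℂ, ‖(x - v)⁻¹‖ₑ ≤ g (x - v) + 1 := by
    intro x
    by_cases hx : x - v ∈ ball (0 : ℂ) 1
    · rw [hg, indicator_of_mem hx]
      exact le_self_add
    · rw [hg, indicator_of_notMem hx, zero_add]
      have h1 : 1 ≤ ‖x - v‖ := by
        rw [mem_ball_zero_iff, not_lt] at hx
        exact hx
      have h2 : ‖(x - v)⁻¹‖ ≤ 1 := by
        rw [norm_inv]
        exact inv_le_one_of_one_le₀ h1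
      rw [← ofReal_norm]
      exact ENNReal.ofReal_le_one.mpr h2
  calc ∫⁻ x in ball (0 : ℂ) R, ‖(x - v)⁻¹‖ₑ
      ≤ ∫⁻ x in ball (0 : ℂ) R, (g (x - v) + 1) := lintegral_mono hpt
    _ = (∫⁻ x in ball (0 : ℂ) R, g (x - v)) + ∫⁻ _x in ball (0 : ℂ) R, 1 := by
        rw [lintegral_add_right _ measurable_const]
    _ ≤ (∫⁻ x, g (x - v)) + volume (ball (0 : ℂ) R) := by
        gcongr
        · exact Measure.restrict_le_self
        · simp
    _ = (∫⁻ x, g x) + volume (ball (0 : ℂ) R) := by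
        rw [lintegral_sub_right_eq_self (fun x => g x) v]
    _ = (∫⁻ x in ball (0 : ℂ) 1, ‖x⁻¹‖ₑ) + volume (ball (0 : ℂ) R) := by
        rw [hg, lintegral_indicator measurableSet_ball]

/-- D3b. -/
theorem D3b_ae {α v : ℕ → ℂ} (hα : Summable fun j => ‖α j‖)
    (hker : ∀ R : ℝ, ∃ C : ℝ≥0∞, C ≠ ⊤ ∧ ∀ v : ℂ, ∫⁻ x in ball (0 : ℂ) R, ‖(x - v)⁻¹‖ₑ ≤ C) :
    ∀ᵐ x : ℂ, Summable fun j => ‖α j / (x - v j)‖ := by
  have hmeas : Measurable fun x : ℂ => ∑' j, ‖α j / (x - v j)‖ₑ :=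
    Measurable.ennreal_tsum fun j => (meas_term α v j).enorm
  have h1 : ∀ n : ℕ, ∀ᵐ x : ℂ, x ∈ ball (0 : ℂ) n → ∑' j, ‖α j / (x - v j)‖ₑ < ⊤ := by
    intro n
    rw [← ae_restrict_iff' measurableSet_ball]
    exact ae_lt_top hmeas (ball_fin hα hker n)
  have h2 := ae_all_iff.mpr h1
  filter_upwards [h2] with x hx
  rw [← summ_iff]
  obtain ⟨n, hn⟩ := exists_nat_gt ‖x‖
  exact (hx n (mem_ball_zero_iff.mpr hn)).ne

/-- D3c. -/
theorem D3c_int {α v : ℕ → ℂ} (hα : Summable fun j => ‖α j‖) {M : ℝ} (hM : ∀ j, ‖v j‖ ≤ M)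
    (hker : ∀ R : ℝ, ∃ C : ℝ≥0∞, C ≠ ⊤ ∧ ∀ v : ℂ, ∫⁻ x in ball (0 : ℂ) R, ‖(x - v)⁻¹‖ₑ ≤ C)
    (h0 : ∑' j, α j = 0) (h1 : ∑' j, α j * v j = 0) (h2 : ∑' j, α j * v j ^ 2 = 0) :
    Measurable (phi α v) ∧ ∫⁻ x : ℂ, ‖phi α v x‖ₑ ≠ ⊤ := by
  have hM0 : 0 ≤ M := (norm_nonneg _).trans (hM 0)
  have hmeas : Measurable fun x : ℂ => ∑' j, ‖α j / (x - v j)‖ₑ :=
    Measurable.ennreal_tsum fun j => (meas_term α v j).enorm
  constructor
  · set S : Set ℂ := {x | ∑' j, ‖α j / (x - v j)‖ₑ < ⊤} with hS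
    have hSm : MeasurableSet S := measurableSet_lt hmeas measurable_const
    have hF : ∀ n : ℕ, Measurable (S.indicator fun x => ∑ j ∈ Finset.range n, α j / (x - v j)) := by
      intro n
      exact (Finset.measurable_sum _ fun j _ => meas_term α v j).indicator hSm
    refine measurable_of_tendsto_metrizable hF ?_
    rw [tendsto_pi_nhds]
    intro x
    by_cases hx : x ∈ S
    · simp only [indicator_of_mem hx]
      have hs : Summable fun j => α j / (x - v j) := by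
        apply Summable.of_norm
        exact (summ_iff _).mp (ne_of_lt hx)
      exact hs.hasSum.tendsto_sum_nat
    · simp only [indicator_of_notMem hx]
      have hs : ¬ Summable fun j => α j / (x - v j) := by
        intro hs
        apply hx
        rw [← summable_norm_iff, ← summ_iff] at hs
        exact lt_top_iff_ne_top.mpr hs
      have : phi α v x = 0 := tsum_eq_zero_of_not_summable hs
      rw [this]
      exact tendsto_const_nhds
  · set R : ℝ := 2 * M + 1 with hR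
    rw [← lintegral_add_compl (fun x => ‖phi α v x‖ₑ) (measurableSet_ball (x := (0 : ℂ)) (ε := R))]
    refine ENNReal.add_ne_top.mpr ⟨?_, ?_⟩
    · refine ne_top_of_le_ne_top (ball_fin (v := v) hα hker R) (lintegral_mono fun x => ?_)
      unfold phi
      by_cases hs : Summable fun j => ‖α j / (x - v j)‖
      · rw [← ofReal_norm]
        calc ENNReal.ofReal ‖∑' j, α j / (x - v j)‖
            ≤ ENNReal.ofReal (∑' j, ‖α j / (x - v j)‖) :=
              ENNReal.ofReal_le_ofReal (norm_tsum_le_tsum_norm hs)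
          _ = ∑' j, ENNReal.ofReal ‖α j / (x - v j)‖ :=
              ENNReal.ofReal_tsum_of_nonneg (fun _ => norm_nonneg _) hs
          _ = ∑' j, ‖α j / (x - v j)‖ₑ := by simp only [ofReal_norm]
      · have : ∑' j, ‖α j / (x - v j)‖ₑ = ⊤ := by
          by_contra hcon
          exact hs ((summ_iff _).mp hcon)
        change _ ≤ ∑' j, ‖α j / (x - v j)‖ₑ
        rw [this]
        exact le_top
    · -- the bound at infinity
      set A : ℝ := ∑' j, ‖α j‖ with hA
      have hA0 : 0 ≤ A := tsum_nonneg fun _ => norm_nonneg _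
      have hint := integrable_one_add_norm (E := ℂ) (μ := volume) (r := 4)
        (by rw [Complex.finrank_real_complex]; norm_num)
      have hint2 : Integrable (fun x : ℂ => (32 * A * M ^ 3) * (1 + ‖x‖) ^ (-4 : ℝ)) volume :=
        hint.const_mul _
      have hfin := hint2.2
      rw [hasFiniteIntegral_iff_enorm] at hfin
      refine ne_top_of_le_ne_top hfin.ne ?_
      refine le_trans ?_ (setLIntegral_le_lintegral (ball (0 : ℂ) R)ᶜ _)
      refine setLIntegral_mono' measurableSet_ball.compl fun x hx => ?_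
      have hx1 : R ≤ ‖x‖ := by
        simpa using hx
      have hxpos : 1 ≤ ‖x‖ := by rw [hR] at hx1; linarith
      have hx0 : x ≠ 0 := by
        intro h; rw [h, norm_zero] at hxpos; linarith
      have hdist : ∀ j, ‖x‖ / 2 ≤ ‖x - v j‖ := by
        intro j
        have h3 := norm_sub_norm_le x (v j)
        have h4 := hM j
        rw [hR] at hx1
        linarith
      have hne : ∀ j, x - v j ≠ 0 := by
        intro j h
        have := hdist j
        rw [h, norm_zero] at this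
        linarith
      have hs0 : Summable α := Summable.of_norm hα
      have hbd : ∀ (w : ℕ → ℂ) (K : ℝ), (∀ j, ‖w j‖ ≤ K) → Summable fun j => ‖α j * w j‖ := by
        intro w K hw
        refine Summable.of_nonneg_of_le (fun _ => norm_nonneg _) (fun j => ?_) (hα.mul_right K)
        rw [norm_mul]
        gcongr
        exact hw j
      have hs1 : Summable fun j => α j * v j := Summable.of_norm (hbd v M hM)
      have hs2 : Summable fun j => α j * v j ^ 2 := by
        refine Summable.of_norm (hbd (fun j => v j ^ 2) (M ^ 2) fun j => ?_)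
        rw [norm_pow]
        exact pow_le_pow_left₀ (norm_nonneg _) (hM j) 2
      have hs3n : Summable fun j => ‖α j * (v j ^ 3 / (x - v j))‖ := by
        refine hbd (fun j => v j ^ 3 / (x - v j)) (M ^ 3 * (2 / ‖x‖)) fun j => ?_
        rw [norm_div, norm_pow, div_eq_mul_inv]
        have h5 : ‖x - v j‖⁻¹ ≤ 2 / ‖x‖ := by
          rw [← inv_div]
          exact inv_anti₀ (by positivity) (hdist j)
        have h6 := pow_le_pow_left₀ (norm_nonneg _) (hM j) 3
        exact mul_le_mul h6 h5 (by positivity) (by positivity)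
      have hs3 : Summable fun j => α j * (v j ^ 3 / (x - v j)) := Summable.of_norm hs3n
      have hident : phi α v x = (x ^ 3)⁻¹ * ∑' j, α j * (v j ^ 3 / (x - v j)) := by
        have hterm : ∀ j, α j / (x - v j) = x⁻¹ * α j + (x ^ 2)⁻¹ * (α j * v j) +
            (x ^ 3)⁻¹ * (α j * v j ^ 2) + (x ^ 3)⁻¹ * (α j * (v j ^ 3 / (x - v j))) := by
          intro j
          have := hne j
          field_simp
          ring
        unfold phi
        simp only [hterm]
        rw [((hs0.mul_left _).add (hs1.mul_left _)).add (hs2.mul_left _) |>.tsum_add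
            (hs3.mul_left _),
          ((hs0.mul_left _).add (hs1.mul_left _)).tsum_add (hs2.mul_left _),
          (hs0.mul_left _).tsum_add (hs1.mul_left _), tsum_mul_left, tsum_mul_left, tsum_mul_left,
          tsum_mul_left, h0, h1, h2]
        ring
      have hnorm : ‖phi α v x‖ ≤ (32 * A * M ^ 3) * (1 + ‖x‖) ^ (-4 : ℝ) := by
        rw [hident, norm_mul, norm_inv, norm_pow]
        have h7 : ‖∑' j, α j * (v j ^ 3 / (x - v j))‖ ≤ A * (M ^ 3 * (2 / ‖x‖)) := by
          refine (norm_tsum_le_tsum_norm hs3n).trans ?_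
          rw [hA, ← tsum_mul_right]
          refine hs3n.tsum_le_tsum (fun j => ?_) (hα.mul_right _)
          rw [norm_mul]
          gcongr
          rw [norm_div, norm_pow, div_eq_mul_inv]
          have h5 : ‖x - v j‖⁻¹ ≤ 2 / ‖x‖ := by
            rw [← inv_div]
            exact inv_anti₀ (by positivity) (hdist j)
          have h6 := pow_le_pow_left₀ (norm_nonneg _) (hM j) 3
          exact mul_le_mul h6 h5 (by positivity) (by positivity)
        have h8 : (1 + ‖x‖) ^ (-4 : ℝ) = ((1 + ‖x‖) ^ 4)⁻¹ := by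
          rw [Real.rpow_neg (by positivity)]
          norm_cast
        have h9 : (‖x‖ ^ 4)⁻¹ ≤ 16 * ((1 + ‖x‖) ^ 4)⁻¹ := by
          have : (1 + ‖x‖) ^ 4 ≤ 16 * ‖x‖ ^ 4 := by
            have h10 : (1 + ‖x‖) ^ 4 ≤ (2 * ‖x‖) ^ 4 :=
              pow_le_pow_left₀ (by positivity) (by linarith) 4
            calc (1 + ‖x‖) ^ 4 ≤ (2 * ‖x‖) ^ 4 := h10
              _ = 16 * ‖x‖ ^ 4 := by ring
          rw [inv_le_iff_one_le_mul₀ (by positivity)]
          rw [show 16 * ((1 + ‖x‖) ^ 4)⁻¹ * ‖x‖ ^ 4 = (16 * ‖x‖ ^ 4) / (1 + ‖x‖) ^ 4 by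
            rw [div_eq_mul_inv]; ring]
          rw [one_le_div (by positivity)]
          exact this
        calc (‖x‖ ^ 3)⁻¹ * ‖∑' j, α j * (v j ^ 3 / (x - v j))‖
            ≤ (‖x‖ ^ 3)⁻¹ * (A * (M ^ 3 * (2 / ‖x‖))) := by gcongr
          _ = 2 * A * M ^ 3 * (‖x‖ ^ 4)⁻¹ := by
              have : ‖x‖ ≠ 0 := by positivity
              field_simp
          _ ≤ 2 * A * M ^ 3 * (16 * ((1 + ‖x‖) ^ 4)⁻¹) := by gcongr
          _ = (32 * A * M ^ 3) * (1 + ‖x‖) ^ (-4 : ℝ) := by rw [h8]; ring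
      rw [← ofReal_norm, ← ofReal_norm]
      exact ENNReal.ofReal_le_ofReal (hnorm.trans (le_abs_self _))

end Pool.Agent.H792R2.CE
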