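import Pool.Agent.H792R2.CE.Defs

set_option autoImplicit false

open Filter Topology Metric Set Polynomial MeasureTheory
open scoped OnePoint ENNReal NNReal

namespace Pool.Agent.H792R2.CE

namespace D4x

theorem det_smulRight (z : ℂ) :
    |((ContinuousLinearMap.smulRight (1 : ℂ →L[ℂ] ℂ) z).restrictScalars ℝ).det| = ‖z‖ ^ 2 := by
  have h : (((ContinuousLinearMap.smulRight (1 : ℂ →L[ℂ] ℂ) z).restrictScalars ℝ : ℂ →L[ℝ] ℂ) :
      ℂ →ₗ[ℝ] ℂ) = Algebra.lmul ℝ ℂ z := by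
    ext x
    simp [mul_comm]
  have h2 : ((ContinuousLinearMap.smulRight (1 : ℂ →L[ℂ] ℂ) z).restrictScalars ℝ).det =
      Algebra.norm ℝ z := by
    rw [Algebra.norm_apply, ← h]
  rw [h2, Algebra.norm_complex_apply, abs_of_nonneg (Complex.normSq_nonneg z),
    Complex.normSq_eq_norm_sq]

theorem hasDerivAt_rf {P Q : ℂ[X]} {w : ℂ} (hQ : Q.eval w ≠ 0) :
    HasDerivAt (rf P Q) ((wr P Q).eval w / Q.eval w ^ 2) w := by
  have h := (P.hasDerivAt w).div (Q.hasDerivAt w) hQ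
  have he : (wr P Q).eval w = (derivative P).eval w * Q.eval w - P.eval w * (derivative Q).eval w := by
    simp [wr]
  rw [he]
  exact h

theorem measurable_eval (P : ℂ[X]) : Measurable (fun z : ℂ => P.eval z) :=
  P.continuous.measurable

theorem measurable_rf (P Q : ℂ[X]) : Measurable (rf P Q) :=
  (measurable_eval P).div (measurable_eval Q)

/-- the good set -/
def V (P Q : ℂ[X]) : Set ℂ := {w | Q.eval w ≠ 0 ∧ (wr P Q).eval w ≠ 0}

theorem measurableSet_V (P Q : ℂ[X]) : MeasurableSet (V P Q) := by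
  have h1 : IsOpen {w : ℂ | Q.eval w ≠ 0} := isOpen_ne_fun Q.continuous continuous_const
  have h2 : IsOpen {w : ℂ | (wr P Q).eval w ≠ 0} := isOpen_ne_fun (wr P Q).continuous continuous_const
  exact (h1.inter h2).measurableSet

noncomputable def D (P Q : ℂ[X]) (w : ℂ) : ℂ →L[ℝ] ℂ :=
  (ContinuousLinearMap.smulRight (1 : ℂ →L[ℂ] ℂ) ((wr P Q).eval w / Q.eval w ^ 2)).restrictScalars ℝ

theorem hasFDerivAt_rf {P Q : ℂ[X]} {w : ℂ} (hQ : Q.eval w ≠ 0) :
    HasFDerivAt (rf P Q) (D P Q w) w :=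
  (hasDerivAt_rf hQ).hasFDerivAt.restrictScalars ℝ

/-- measurable partition of the good set into pieces of injectivity -/
theorem partition (P Q : ℂ[X]) : ∃ t : ℕ → Set ℂ, Pairwise (Function.onFun Disjoint t) ∧
    (∀ n, MeasurableSet (t n)) ∧ (V P Q ⊆ ⋃ n, t n) ∧ ∀ n, InjOn (rf P Q) (V P Q ∩ t n) := by
  classical
  obtain ⟨t, A, hdisj, hmeas, hcov, happ, hne⟩ :=
    exists_partition_approximatesLinearOn_of_hasFDerivWithinAt (rf P Q) (V P Q) (D P Q)
      (fun x hx => (hasFDerivAt_rf hx.1).hasFDerivWithinAt)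
      (fun B => if h : ∃ e : ℂ ≃L[ℝ] ℂ, (e : ℂ →L[ℝ] ℂ) = B then
        ‖(h.choose.symm : ℂ →L[ℝ] ℂ)‖₊⁻¹ / 2 else 1)
      (by
        intro B
        split_ifs with h
        · have h0 : ‖(h.choose.symm : ℂ →L[ℝ] ℂ)‖₊ ≠ 0 := by
            intro h00
            have : (h.choose.symm : ℂ →L[ℝ] ℂ) = 0 := by
              rw [← nnnorm_eq_zero]; exact h00
            have h1 : h.choose.symm (1 : ℂ) = 0 := by
              have := congrArg (fun f : ℂ →L[ℝ] ℂ => f 1) this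
              simpa using this
            simp at h1
          positivity
        · exact one_ne_zero)
  refine ⟨t, hdisj, hmeas, hcov, fun n => ?_⟩
  by_cases hV : (V P Q).Nonempty
  · obtain ⟨y, hy, hAy⟩ := hne hV n
    have hz : (wr P Q).eval y / Q.eval y ^ 2 ≠ 0 := div_ne_zero hy.2 (pow_ne_zero _ hy.1)
    have hex : ∃ e : ℂ ≃L[ℝ] ℂ, (e : ℂ →L[ℝ] ℂ) = A n := by
      rw [hAy]
      refine ⟨(ContinuousLinearEquiv.unitsEquivAut ℂ (Units.mk0 _ hz)).restrictScalars ℝ, ?_⟩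
      ext <;> simp [D]
    have h := happ n
    rw [dif_pos hex] at h
    have h2 : ApproximatesLinearOn (rf P Q) ((hex.choose : ℂ ≃L[ℝ] ℂ) : ℂ →L[ℝ] ℂ) (V P Q ∩ t n)
        (‖(hex.choose.symm : ℂ →L[ℝ] ℂ)‖₊⁻¹ / 2) := by
      rw [hex.choose_spec]; exact h
    refine h2.injOn (Or.inr ?_)
    have h0 : ‖(hex.choose.symm : ℂ →L[ℝ] ℂ)‖₊ ≠ 0 := by
      intro h00
      have : (hex.choose.symm : ℂ →L[ℝ] ℂ) = 0 := by
        rw [← nnnorm_eq_zero]; exact h00
      have h1 : hex.choose.symm (1 : ℂ) = 0 := by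
        have := congrArg (fun f : ℂ →L[ℝ] ℂ => f 1) this
        simpa using this
      simp at h1
    exact NNReal.half_lt_self (inv_ne_zero h0)
  · intro a ha
    exact absurd ⟨a, ha.1⟩ hV

/-- the density at `w` -/
noncomputable def term (P Q : ℂ[X]) (u : ℂ → ℝ≥0∞) (w : ℂ) : ℝ≥0∞ :=
  ‖Q.eval w ^ 4 / (wr P Q).eval w ^ 2‖ₑ * u w

theorem measurable_term (P Q : ℂ[X]) {u : ℂ → ℝ≥0∞} (hu : Measurable u) :
    Measurable (term P Q u) :=
  ((((measurable_eval Q).pow_const 4).div ((measurable_eval (wr P Q)).pow_const 2)).enorm).mul hu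

/-- the branch function on the `n`-th piece -/
noncomputable def G (P Q : ℂ[X]) (u : ℂ → ℝ≥0∞) (S : Set ℂ) : ℂ → ℝ≥0∞ :=
  Function.extend (S.domRestrict (rf P Q)) (S.domRestrict (term P Q u)) 0

theorem emb {P Q : ℂ[X]} {S : Set ℂ} (hS : MeasurableSet S) (hV : S ⊆ V P Q)
    (hinj : InjOn (rf P Q) S) : MeasurableEmbedding (S.domRestrict (rf P Q)) :=
  measurableEmbedding_of_fderivWithin (f' := D P Q) hS
    (fun x hx => (hasFDerivAt_rf (hV hx).1).hasFDerivWithinAt) hinj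

theorem measurable_G {P Q : ℂ[X]} {u : ℂ → ℝ≥0∞} (hu : Measurable u) {S : Set ℂ}
    (hS : MeasurableSet S) (hV : S ⊆ V P Q) (hinj : InjOn (rf P Q) S) :
    Measurable (G P Q u S) :=
  (emb hS hV hinj).measurable_extend ((measurable_term P Q hu).comp measurable_subtype_coe)
    measurable_const

theorem G_apply {P Q : ℂ[X]} {u : ℂ → ℝ≥0∞} {S : Set ℂ} (hinj : InjOn (rf P Q) S) {w : ℂ}
    (hw : w ∈ S) : G P Q u S (rf P Q w) = term P Q u w := by
  have h1 : Function.Injective (S.domRestrict (rf P Q)) := injOn_iff_injective.mp hinj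
  have h2 := h1.extend_apply (S.domRestrict (term P Q u)) 0 ⟨w, hw⟩
  exact h2

theorem G_zero {P Q : ℂ[X]} {u : ℂ → ℝ≥0∞} {S : Set ℂ} {x : ℂ} (hx : x ∉ rf P Q '' S) :
    G P Q u S x = 0 := by
  unfold G
  rw [Function.extend_apply']
  · rfl
  · rintro ⟨a, ha⟩
    exact hx ⟨a, a.2, ha⟩

theorem int_G {P Q : ℂ[X]} {u : ℂ → ℝ≥0∞} {S : Set ℂ}
    (hS : MeasurableSet S) (hV : S ⊆ V P Q) (hinj : InjOn (rf P Q) S) {A : Set ℂ}
    (hA : MeasurableSet A) :
    ∫⁻ x in A, G P Q u S x = ∫⁻ w in S ∩ rf P Q ⁻¹' A, u w := by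
  have hf := measurable_rf P Q
  have hSA : MeasurableSet (S ∩ rf P Q ⁻¹' A) := hS.inter (hf hA)
  have him : rf P Q '' (S ∩ rf P Q ⁻¹' A) = A ∩ rf P Q '' S := by
    ext x
    constructor
    · rintro ⟨w, ⟨hw, hwA⟩, rfl⟩
      exact ⟨hwA, w, hw, rfl⟩
    · rintro ⟨hx, w, hw, rfl⟩
      exact ⟨w, ⟨hw, hx⟩, rfl⟩
  have hmimg : MeasurableSet (rf P Q '' S) := by
    have := (emb hS hV hinj).measurableSet_range
    rwa [range_domRestrict] at this
  have h1 : ∫⁻ x in A, G P Q u S x = ∫⁻ x in A ∩ rf P Q '' S, G P Q u S x := by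
    rw [← lintegral_indicator hA, ← lintegral_indicator (hA.inter hmimg)]
    congr 1
    ext x
    by_cases hx : x ∈ A
    · by_cases hx2 : x ∈ rf P Q '' S
      · rw [indicator_of_mem hx, indicator_of_mem (show x ∈ A ∩ rf P Q '' S from ⟨hx, hx2⟩)]
      · rw [indicator_of_mem hx, indicator_of_notMem (fun h => hx2 h.2), G_zero hx2]
    · rw [indicator_of_notMem hx, indicator_of_notMem (fun h => hx h.1)]
  rw [h1, ← him, lintegral_image_eq_lintegral_abs_det_fderiv_mul volume hSA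
    (f' := D P Q) (fun x hx => (hasFDerivAt_rf (hV hx.1).1).hasFDerivWithinAt)
    (hinj.mono inter_subset_left)]
  refine setLIntegral_congr_fun hSA (fun w hw => ?_)
  have hw1 := hV hw.1
  rw [G_apply hinj hw.1, term, ← mul_assoc]
  have hz : (wr P Q).eval w / Q.eval w ^ 2 ≠ 0 := div_ne_zero hw1.2 (pow_ne_zero _ hw1.1)
  have h3 : ENNReal.ofReal |(D P Q w).det| * ‖Q.eval w ^ 4 / (wr P Q).eval w ^ 2‖ₑ = 1 := by
    rw [D, det_smulRight, ← ofReal_norm, ← ENNReal.ofReal_mul (by positivity)]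
    rw [← norm_pow, ← norm_mul]
    have : ((wr P Q).eval w / Q.eval w ^ 2) ^ 2 * (Q.eval w ^ 4 / (wr P Q).eval w ^ 2) = 1 := by
      have := hw1.1
      have := hw1.2
      field_simp
    rw [this]
    simp
  rw [h3, one_mul]

theorem coprime_ne {P Q : ℂ[X]} (hc : IsCoprime P Q) {x w : ℂ}
    (hw : (P - C x * Q).eval w = 0) : Q.eval w ≠ 0 := by
  intro hQ
  obtain ⟨a, b, hab⟩ := hc
  have h1 := congrArg (fun R : ℂ[X] => R.eval w) hab
  simp only [eval_add, eval_mul, eval_one, eval_sub, eval_C, hQ, mul_zero, sub_zero] at h1 hw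
  rw [hw] at h1
  simp at h1

theorem sum_le {P Q : ℂ[X]} (hc : IsCoprime P Q) {u : ℂ → ℝ≥0∞} {t : ℕ → Set ℂ}
    (hcov : V P Q ⊆ ⋃ n, t n) (hinj : ∀ n, InjOn (rf P Q) (V P Q ∩ t n)) (x : ℂ) :
    ∑ w ∈ (P - C x * Q).roots.toFinset, term P Q u w ≤ ∑' n, G P Q u (V P Q ∩ t n) x := by
  classical
  have hroot : ∀ w ∈ (P - C x * Q).roots.toFinset, (P - C x * Q).eval w = 0 := by
    intro w hw
    rw [Multiset.mem_toFinset] at hw
    exact isRoot_of_mem_roots hw
  have hsum : ∑ w ∈ (P - C x * Q).roots.toFinset, term P Q u w =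
      ∑ w ∈ (P - C x * Q).roots.toFinset.filter (fun w => (wr P Q).eval w ≠ 0), term P Q u w := by
    symm
    refine Finset.sum_filter_of_ne (fun w _ h => ?_)
    intro h0
    apply h
    simp [term, h0]
  rw [hsum]
  have hmem : ∀ w ∈ (P - C x * Q).roots.toFinset.filter (fun w => (wr P Q).eval w ≠ 0),
      w ∈ V P Q ∧ rf P Q w = x := by
    intro w hw
    rw [Finset.mem_filter] at hw
    have h1 := hroot w hw.1
    have h2 := coprime_ne hc h1
    refine ⟨⟨h2, hw.2⟩, ?_⟩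
    simp only [eval_sub, eval_mul, eval_C] at h1
    rw [rf, div_eq_iff h2]
    linear_combination h1
  have hk : ∀ w ∈ V P Q, ∃ n, w ∈ t n := fun w hw => by simpa using hcov hw
  choose! k hk using hk
  have hkinj : Set.InjOn k ((P - C x * Q).roots.toFinset.filter
      (fun w => (wr P Q).eval w ≠ 0) : Finset ℂ) := by
    intro a ha b hb hab
    obtain ⟨ha1, ha2⟩ := hmem a ha
    obtain ⟨hb1, hb2⟩ := hmem b hb
    refine hinj (k a) ⟨ha1, hk a ha1⟩ ⟨hb1, ?_⟩ (ha2.trans hb2.symm)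
    rw [hab]; exact hk b hb1
  calc ∑ w ∈ (P - C x * Q).roots.toFinset.filter (fun w => (wr P Q).eval w ≠ 0), term P Q u w
      = ∑ w ∈ (P - C x * Q).roots.toFinset.filter (fun w => (wr P Q).eval w ≠ 0),
          G P Q u (V P Q ∩ t (k w)) x := by
        refine Finset.sum_congr rfl (fun w hw => ?_)
        obtain ⟨h1, h2⟩ := hmem w hw
        rw [← G_apply (u := u) (hinj (k w)) (show w ∈ V P Q ∩ t (k w) from ⟨h1, hk w h1⟩), h2]
    _ = ∑ n ∈ ((P - C x * Q).roots.toFinset.filter (fun w => (wr P Q).eval w ≠ 0)).image k,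
          G P Q u (V P Q ∩ t n) x := by
        rw [Finset.sum_image hkinj]
    _ ≤ ∑' n, G P Q u (V P Q ∩ t n) x := ENNReal.sum_le_tsum _

end D4x

open D4x in
/-- D4. change of variables for the branched cover `P / Q`. -/
theorem D4_area {P Q : ℂ[X]} (hc : IsCoprime P Q) (hN : wr P Q ≠ 0) {u : ℂ → ℝ≥0∞}
    (hu : Measurable u) {A : Set ℂ} (hA : MeasurableSet A) :
    ∫⁻ x in A, (∑ w ∈ (P - C x * Q).roots.toFinset,
      ‖Q.eval w ^ 4 / (wr P Q).eval w ^ 2‖ₑ * u w) ≤ ∫⁻ w in rf P Q ⁻¹' A, u w := by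
  obtain ⟨t, hdisj, hmeas, hcov, hinj⟩ := partition P Q
  have hVm := measurableSet_V P Q
  have hm : ∀ n, MeasurableSet (V P Q ∩ t n) := fun n => hVm.inter (hmeas n)
  calc ∫⁻ x in A, (∑ w ∈ (P - C x * Q).roots.toFinset,
      ‖Q.eval w ^ 4 / (wr P Q).eval w ^ 2‖ₑ * u w)
      ≤ ∫⁻ x in A, ∑' n, G P Q u (V P Q ∩ t n) x :=
        lintegral_mono (fun x => sum_le hc hcov hinj x)
    _ = ∑' n, ∫⁻ x in A, G P Q u (V P Q ∩ t n) x :=
        lintegral_tsum (fun n => (measurable_G hu (hm n) inter_subset_left (hinj n)).aemeasurable)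
    _ = ∑' n, ∫⁻ w in (V P Q ∩ t n) ∩ rf P Q ⁻¹' A, u w := by
        congr 1
        ext n
        exact int_G (hm n) inter_subset_left (hinj n) hA
    _ = ∫⁻ w in ⋃ n, (V P Q ∩ t n) ∩ rf P Q ⁻¹' A, u w := by
        rw [lintegral_iUnion (fun n => (hm n).inter (measurable_rf P Q hA))]
        intro i j hij
        exact (hdisj hij).mono (fun x hx => hx.1.2) (fun x hx => hx.1.2)
    _ ≤ ∫⁻ w in rf P Q ⁻¹' A, u w :=
        lintegral_mono_set (iUnion_subset (fun n => inter_subset_right))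

end Pool.Agent.H792R2.CE
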