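import Pool.Agent.H792R2.CE.Defs

set_option autoImplicit false

open Filter Topology Metric Set Polynomial MeasureTheory
open scoped OnePoint ENNReal

namespace Pool.Agent.H792R2.CE

namespace D6x

/-- change of variables `x = r u + p` -/
theorem lint_scale (f : ℂ → ℝ≥0∞) (hf : Measurable f) (p : ℂ) {r : ℝ} (hr : 0 < r) :
    ∫⁻ x, f x = ENNReal.ofReal (r ^ 2) * ∫⁻ u, f (r • u + p) := by
  have h1 : ∫⁻ x, f (x + p) = ∫⁻ x, f x := lintegral_add_right_eq_self f p
  have hg : Measurable (fun x => f (x + p)) := hf.comp (measurable_add_const p)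
  have h2 := Measure.map_addHaar_smul (volume : Measure ℂ) hr.ne'
  have h3 : ∫⁻ u, f (r • u + p) = ∫⁻ x, f (x + p) ∂(Measure.map (fun u : ℂ => r • u) volume) := by
    rw [lintegral_map hg (measurable_const_smul r)]
  rw [h3]
  have h4 : Measure.map (fun u : ℂ => r • u) (volume : Measure ℂ) =
      ENNReal.ofReal |(r ^ Module.finrank ℝ ℂ)⁻¹| • volume := h2
  rw [h4, lintegral_smul_measure, h1, Complex.finrank_real_complex, smul_eq_mul, ← mul_assoc,
    ← ENNReal.ofReal_mul (by positivity), abs_of_pos (by positivity),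
    mul_inv_cancel₀ (by positivity), ENNReal.ofReal_one, one_mul]

theorem scale (C : ℝ≥0∞) (hC : ∀ v : ℂ, ∫⁻ x in ball (0 : ℂ) 1, ‖(x - v)⁻¹‖ₑ ≤ C) (p v : ℂ)
    {r : ℝ} (hr : 0 < r) :
    ∫⁻ x in ball p r, ‖(x - v)⁻¹‖ₑ ≤ ENNReal.ofReal r * C := by
  have hm : ∀ v : ℂ, Measurable (fun x : ℂ => ‖(x - v)⁻¹‖ₑ) := fun v => by fun_prop
  rw [← lintegral_indicator measurableSet_ball,
    lint_scale _ ((hm v).indicator measurableSet_ball) p hr]
  have h1 : ∀ u : ℂ, (ball p r).indicator (fun x => ‖(x - v)⁻¹‖ₑ) (r • u + p) =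
      ENNReal.ofReal r⁻¹ * (ball (0:ℂ) 1).indicator (fun x => ‖(x - ((v - p) / r))⁻¹‖ₑ) u := by
    intro u
    have hmem : r • u + p ∈ ball p r ↔ u ∈ ball (0:ℂ) 1 := by
      rw [mem_ball_iff_norm, mem_ball_zero_iff, add_sub_cancel_right, norm_smul, Real.norm_eq_abs,
        abs_of_pos hr]
      constructor
      · intro h
        by_contra h'
        push Not at h'
        nlinarith
      · intro h
        nlinarith
    by_cases hu : u ∈ ball (0:ℂ) 1
    · rw [indicator_of_mem (hmem.2 hu), indicator_of_mem hu]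
      have h2 : r • u + p - v = (r : ℂ) * (u - (v - p) / r) := by
        have : (r : ℂ) ≠ 0 := by exact_mod_cast hr.ne'
        rw [Complex.real_smul]
        field_simp
        ring
      rw [h2, mul_inv, enorm_mul]
      congr 1
      rw [← Complex.ofReal_inv, ← ofReal_norm, Complex.norm_real,
        Real.norm_of_nonneg (by positivity)]
    · rw [indicator_of_notMem (fun h => hu (hmem.1 h)), indicator_of_notMem hu, mul_zero]
  simp_rw [h1]
  rw [lintegral_const_mul _ ((hm _).indicator measurableSet_ball),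
    lintegral_indicator measurableSet_ball, ← mul_assoc, ← ENNReal.ofReal_mul (by positivity)]
  have h3 : r ^ 2 * r⁻¹ = r := by field_simp
  rw [h3]
  exact mul_le_mul_right (hC _) _

/-- the kernel integral -/
noncomputable def J (p v : ℂ) (r : ℝ) : ℂ := ∫ x in ball p r, (x - p) / (x - v)

theorem lintJ (C : ℝ≥0∞) (hC : ∀ v : ℂ, ∫⁻ x in ball (0 : ℂ) 1, ‖(x - v)⁻¹‖ₑ ≤ C) (p v : ℂ)
    {r : ℝ} (hr : 0 < r) :
    ∫⁻ x in ball p r, ‖(x - p) / (x - v)‖ₑ ≤ ENNReal.ofReal (r ^ 2) * C := by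
  calc ∫⁻ x in ball p r, ‖(x - p) / (x - v)‖ₑ ≤
        ∫⁻ x in ball p r, ENNReal.ofReal r * ‖(x - v)⁻¹‖ₑ := by
        apply setLIntegral_mono' measurableSet_ball
        intro x hx
        rw [div_eq_mul_inv, enorm_mul]
        gcongr
        rw [← ofReal_norm]
        exact ENNReal.ofReal_le_ofReal (mem_ball_iff_norm.1 hx).le
    _ = ENNReal.ofReal r * ∫⁻ x in ball p r, ‖(x - v)⁻¹‖ₑ :=
        lintegral_const_mul _ (by fun_prop)
    _ ≤ ENNReal.ofReal r * (ENNReal.ofReal r * C) := mul_le_mul_right (scale C hC p v hr) _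
    _ = ENNReal.ofReal (r ^ 2) * C := by
        rw [← mul_assoc, ← ENNReal.ofReal_mul hr.le, sq]

theorem normJ {C : ℝ≥0∞} (hCt : C ≠ ⊤)
    (hC : ∀ v : ℂ, ∫⁻ x in ball (0 : ℂ) 1, ‖(x - v)⁻¹‖ₑ ≤ C) (p v : ℂ)
    {r : ℝ} (hr : 0 < r) : ‖J p v r‖ ≤ r ^ 2 * C.toReal := by
  have h1 := (enorm_integral_le_lintegral_enorm (μ := volume.restrict (ball p r))
    (fun x => (x - p) / (x - v))).trans (lintJ C hC p v hr)
  have h2 := ENNReal.toReal_mono (by finiteness) h1
  rw [toReal_enorm, ENNReal.toReal_mul, ENNReal.toReal_ofReal (by positivity)] at h2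
  exact h2

theorem volball (p : ℂ) {r : ℝ} (hr : 0 < r) :
    (volume.restrict (ball p r)).real univ = Real.pi * r ^ 2 := by
  rw [measureReal_restrict_apply_univ, measureReal_def, Complex.volume_ball, ENNReal.toReal_mul,
    ENNReal.toReal_pow, ENNReal.toReal_ofReal hr.le]
  simp
  ring

theorem J_self (p : ℂ) {r : ℝ} (hr : 0 < r) : J p p r = ((Real.pi * r ^ 2 : ℝ) : ℂ) := by
  unfold J
  have h1 : ∀ᵐ x : ℂ ∂(volume.restrict (ball p r)), (x - p) / (x - p) = (1 : ℂ) := by
    have h2 : ∀ᵐ x : ℂ ∂(volume.restrict (ball p r)), x ≠ p := by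
      apply ae_restrict_of_ae
      exact compl_mem_ae_iff.2 (measure_singleton p)
    filter_upwards [h2] with x hx
    exact div_self (sub_ne_zero.2 hx)
  rw [integral_congr_ae h1, integral_const, volball p hr]
  simp

theorem J_ne (p v : ℂ) (hv : v ≠ p) {r : ℝ} (hr : 0 < r) (hr2 : 2 * r ≤ ‖v - p‖) :
    ‖J p v r‖ ≤ (2 * r / ‖v - p‖) * (Real.pi * r ^ 2) := by
  have h0 : 0 < ‖v - p‖ := norm_pos_iff.2 (sub_ne_zero.2 hv)
  have h1 := norm_setIntegral_le_of_norm_le_const (μ := (volume : Measure ℂ)) (s := ball p r)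
    (f := fun x => (x - p) / (x - v)) (C := 2 * r / ‖v - p‖) measure_ball_lt_top (by
      intro x hx
      have hx' := mem_ball_iff_norm.1 hx
      rw [norm_div]
      have h2 : ‖v - p‖ / 2 ≤ ‖x - v‖ := by
        have h3 : ‖v - p‖ ≤ ‖x - p‖ + ‖x - v‖ := by
          calc ‖v - p‖ = ‖(x - p) - (x - v)‖ := by congr 1; ring
            _ ≤ _ := norm_sub_le _ _
        linarith
      rw [div_le_div_iff₀ (by linarith) h0]
      nlinarith [norm_nonneg (x - p)])
  refine h1.trans (le_of_eq ?_)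
  rw [← volball p hr, measureReal_restrict_apply_univ]

end D6x

open D6x in
/-- D6. a Cauchy series which vanishes almost everywhere has no mass at any point. -/
theorem D6_unique {α v : ℕ → ℂ} (hα : Summable fun j => ‖α j‖)
    (hker : ∀ R : ℝ, ∃ C : ℝ≥0∞, C ≠ ⊤ ∧ ∀ v : ℂ, ∫⁻ x in ball (0 : ℂ) R, ‖(x - v)⁻¹‖ₑ ≤ C)
    (h : ∀ᵐ x : ℂ, phi α v x = 0) (p : ℂ) :
    ∑' j, (open Classical in if v j = p then α j else 0) = 0 := by
  classical
  obtain ⟨C, hCt, hC⟩ := hker 1
  -- the sum of the kernel integrals vanishes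
  have hsum : ∀ r : ℝ, 0 < r → ∑' j, α j * J p (v j) r = 0 := by
    intro r hr
    have h1 : ∫ x in ball p r, ∑' j, α j * ((x - p) / (x - v j)) =
        ∑' j, ∫ x in ball p r, α j * ((x - p) / (x - v j)) := by
      apply integral_tsum
      · intro j
        have : Measurable (fun x : ℂ => α j * ((x - p) / (x - v j))) := by fun_prop
        exact this.aestronglyMeasurable
      · have h2 : ∀ j, ∫⁻ x in ball p r, ‖α j * ((x - p) / (x - v j))‖ₑ ≤
            ‖α j‖ₑ * (ENNReal.ofReal (r ^ 2) * C) := by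
          intro j
          simp_rw [enorm_mul]
          rw [lintegral_const_mul _ (by fun_prop)]
          exact mul_le_mul_right (lintJ C hC p (v j) hr) _
        refine ne_of_lt (lt_of_le_of_lt (ENNReal.tsum_le_tsum h2) ?_)
        rw [ENNReal.tsum_mul_right]
        apply ENNReal.mul_lt_top
        · have h3 : ∑' j, ‖α j‖ₑ = ENNReal.ofReal (∑' j, ‖α j‖) := by
            rw [ENNReal.ofReal_tsum_of_nonneg (fun j => norm_nonneg _) hα]
            simp_rw [ofReal_norm]
          rw [h3]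
          exact ENNReal.ofReal_lt_top
        · exact ENNReal.mul_lt_top ENNReal.ofReal_lt_top (lt_top_iff_ne_top.2 hCt)
    have h4 : ∫ x in ball p r, ∑' j, α j * ((x - p) / (x - v j)) = 0 := by
      have h5 : ∀ᵐ x : ℂ ∂(volume.restrict (ball p r)),
          ∑' j, α j * ((x - p) / (x - v j)) = 0 := by
        filter_upwards [ae_restrict_of_ae h] with x hx
        have h6 : ∀ j, α j * ((x - p) / (x - v j)) = (x - p) * (α j / (x - v j)) := by
          intro j; ring
        simp_rw [h6]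
        rw [tsum_mul_left]
        have h7 : ∑' j, α j / (x - v j) = 0 := hx
        rw [h7, mul_zero]
      rw [integral_congr_ae h5]
      simp
    rw [h4] at h1
    rw [h1]
    apply tsum_congr
    intro j
    unfold J
    rw [integral_const_mul]
  -- the radii
  set ρ : ℕ → ℝ := fun n => 1 / ((n : ℝ) + 1) with hρ
  have hρ0 : ∀ n, 0 < ρ n := fun n => by rw [hρ]; positivity
  have hρt : Tendsto ρ atTop (𝓝 0) := tendsto_one_div_add_atTop_nhds_zero_nat
  have hz : ∀ n, ∑' j, α j * (J p (v j) (ρ n) / ((Real.pi * ρ n ^ 2 : ℝ) : ℂ)) = 0 := by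
    intro n
    have h1 : ∀ j, α j * (J p (v j) (ρ n) / ((Real.pi * ρ n ^ 2 : ℝ) : ℂ)) =
        (α j * J p (v j) (ρ n)) * (((Real.pi * ρ n ^ 2 : ℝ) : ℂ))⁻¹ := by
      intro j; ring
    simp_rw [h1]
    rw [tsum_mul_right, hsum _ (hρ0 n), zero_mul]
  have hlim : Tendsto (fun n => ∑' j, α j * (J p (v j) (ρ n) / ((Real.pi * ρ n ^ 2 : ℝ) : ℂ)))
      atTop (𝓝 (∑' j, (if v j = p then α j else 0))) := by
    apply tendsto_tsum_of_dominated_convergence (bound := fun j => ‖α j‖ * (C.toReal / Real.pi))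
    · exact hα.mul_right _
    · intro j
      split_ifs with hj
      · have h1 : ∀ n, α j * (J p (v j) (ρ n) / ((Real.pi * ρ n ^ 2 : ℝ) : ℂ)) = α j := by
          intro n
          rw [hj, J_self p (hρ0 n), div_self, mul_one]
          have : Real.pi * ρ n ^ 2 ≠ 0 := by have := hρ0 n; positivity
          exact_mod_cast this
        simp_rw [h1]
        exact tendsto_const_nhds
      · have h0 : 0 < ‖v j - p‖ := norm_pos_iff.2 (sub_ne_zero.2 hj)
        rw [← mul_zero (α j)]
        apply Tendsto.const_mul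
        have h1 : ∀ᶠ n in atTop, ρ n < ‖v j - p‖ / 2 :=
          hρt.eventually_lt_const (by linarith)
        have h2 : Tendsto (fun n => 2 * ρ n / ‖v j - p‖) atTop (𝓝 0) := by
          have := (hρt.const_mul 2).div_const ‖v j - p‖
          simpa using this
        apply squeeze_zero_norm' _ h2
        filter_upwards [h1] with n hn
        have h3 := J_ne p (v j) hj (hρ0 n) (by linarith)
        have h4 : 0 < Real.pi * ρ n ^ 2 := by have := hρ0 n; positivity
        rw [norm_div, Complex.norm_real, Real.norm_of_nonneg h4.le, div_le_iff₀ h4]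
        exact h3
    · refine Eventually.of_forall fun n j => ?_
      have h4 : 0 < Real.pi * ρ n ^ 2 := by have := hρ0 n; positivity
      rw [norm_mul, norm_div, Complex.norm_real, Real.norm_of_nonneg h4.le]
      apply mul_le_mul_of_nonneg_left _ (norm_nonneg _)
      rw [div_le_div_iff₀ h4 Real.pi_pos]
      have h5 := normJ hCt hC p (v j) (hρ0 n)
      have h6 := Real.pi_pos
      nlinarith
  have hz' : (fun n => ∑' j, α j * (J p (v j) (ρ n) / ((Real.pi * ρ n ^ 2 : ℝ) : ℂ))) =
      fun _ => (0 : ℂ) := funext hz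
  rw [hz'] at hlim
  exact (tendsto_nhds_unique hlim tendsto_const_nhds)

end Pool.Agent.H792R2.CE
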