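import Pool.Agent.H792R2.CE.D1
import Pool.Agent.H792R2.CE.D2
import Pool.Agent.H792R2.CE.D3
import Pool.Agent.H792R2.CE.D4
import Pool.Agent.H792R2.CE.D6

set_option autoImplicit false

open Filter Topology Metric Set Polynomial MeasureTheory
open scoped OnePoint ENNReal

namespace Pool.Agent.H792R2.CE

/-- wandering sets are null for a finite measure which does not decrease under preimages -/
theorem D5_null {g : ℂ → ℂ} (hg : Measurable g) {m : Measure ℂ} [IsFiniteMeasure m]
    (h : ∀ A, MeasurableSet A → m A ≤ m (g ⁻¹' A)) {A : Set ℂ} (hA : MeasurableSet A)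
    (hw : ∀ x ∈ A, ∀ k, 0 < k → g^[k] x ∉ A) : m A = 0 := by
  by_contra hne
  have hmeas : ∀ n : ℕ, MeasurableSet (g^[n] ⁻¹' A) := fun n => (hg.iterate n) hA
  have hle : ∀ n : ℕ, m A ≤ m (g^[n] ⁻¹' A) := by
    intro n
    induction n with
    | zero => simp
    | succ n ih =>
      refine ih.trans ((h _ (hmeas n)).trans (le_of_eq ?_))
      rw [← Set.preimage_comp, ← Function.iterate_succ]
  have hdisj : Pairwise (Function.onFun Disjoint fun n : ℕ => g^[n] ⁻¹' A) := by
    have key : ∀ i j : ℕ, i < j → Disjoint (g^[i] ⁻¹' A) (g^[j] ⁻¹' A) := by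
      intro i j hij
      rw [Set.disjoint_left]
      intro x hx hx'
      have h1 := hw _ hx (j - i) (by omega)
      apply h1
      rw [← Function.iterate_add_apply]
      have e : j - i + i = j := by omega
      rw [e]
      exact hx'
    intro i j hij
    rcases lt_or_gt_of_ne hij with h1 | h1
    · exact key i j h1
    · exact (key j i h1).symm
  have h1 : m (⋃ n : ℕ, g^[n] ⁻¹' A) = ∑' n : ℕ, m (g^[n] ⁻¹' A) :=
    measure_iUnion hdisj hmeas
  have h2 : (∑' _ : ℕ, m A) ≤ ∑' n : ℕ, m (g^[n] ⁻¹' A) := ENNReal.tsum_le_tsum hle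
  rw [ENNReal.tsum_const_eq_top_of_ne_zero hne, ← h1, top_le_iff] at h2
  exact measure_ne_top m _ h2

/-- degree of the Wronskian -/
theorem wr_natDegree {P Q : ℂ[X]} {d : ℕ} (hd : 1 ≤ d) (hPd : P.natDegree ≤ d)
    (hQd : Q.natDegree ≤ d) : (wr P Q).natDegree ≤ 2 * d - 2 := by
  have h1 : (wr P Q).natDegree ≤ 2 * d - 1 := by
    unfold wr
    refine (Polynomial.natDegree_sub_le _ _).trans (max_le ?_ ?_)
    · refine Polynomial.natDegree_mul_le.trans ?_
      have := Polynomial.natDegree_derivative_le P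
      omega
    · refine Polynomial.natDegree_mul_le.trans ?_
      have := Polynomial.natDegree_derivative_le Q
      omega
  by_contra hcon
  push Not at hcon
  have h2 : (wr P Q).natDegree = 2 * d - 1 := by omega
  have h3 : (wr P Q).coeff (2 * d - 1) = 0 := by
    obtain ⟨e, rfl⟩ : ∃ e, d = e + 1 := ⟨d - 1, by omega⟩
    have e1 : 2 * (e + 1) - 1 = e + (e + 1) := by omega
    have hdP : (derivative P).natDegree ≤ e := by
      have := Polynomial.natDegree_derivative_le P
      omega
    have hdQ : (derivative Q).natDegree ≤ e := by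
      have := Polynomial.natDegree_derivative_le Q
      omega
    unfold wr
    rw [e1, Polynomial.coeff_sub, Polynomial.coeff_mul_add_eq_of_natDegree_le hdP hQd,
      Nat.add_comm e (e + 1), Polynomial.coeff_mul_add_eq_of_natDegree_le hPd hdQ,
      Polynomial.coeff_derivative, Polynomial.coeff_derivative]
    ring
  have h4 : wr P Q = 0 := by
    rw [← Polynomial.leadingCoeff_eq_zero, Polynomial.leadingCoeff, h2]
    exact h3
  rw [h4] at h2
  simp at h2
  omega

theorem rf_measurable (P Q : ℂ[X]) : Measurable (rf P Q) := by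
  unfold rf
  exact P.continuous.measurable.div Q.continuous.measurable

theorem rf_hasDerivAt {P Q : ℂ[X]} {z : ℂ} (h : Q.eval z ≠ 0) :
    HasDerivAt (rf P Q) ((wr P Q).eval z / Q.eval z ^ 2) z := by
  have h1 := (P.hasDerivAt z).div (Q.hasDerivAt z) h
  refine h1.congr_deriv ?_
  simp [wr, Polynomial.eval_sub, Polynomial.eval_mul]

theorem rf_iter_diff {P Q : ℂ[X]} {z : ℂ} (n : ℕ) (h : ∀ j < n, Q.eval ((rf P Q)^[j] z) ≠ 0) :
    DifferentiableAt ℂ ((rf P Q)^[n]) z := by
  induction n with
  | zero => simp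
  | succ n ih =>
    rw [Function.iterate_succ']
    exact DifferentiableAt.comp z (rf_hasDerivAt (h n (Nat.lt_succ_self n))).differentiableAt
      (ih fun j hj => h j (by omega))

theorem rf_iter_deriv_succ {P Q : ℂ[X]} {z : ℂ} (n : ℕ) (h : ∀ j ≤ n, Q.eval ((rf P Q)^[j] z) ≠ 0) :
    deriv ((rf P Q)^[n + 1]) z = (wr P Q).eval ((rf P Q)^[n] z) / Q.eval ((rf P Q)^[n] z) ^ 2 *
      deriv ((rf P Q)^[n]) z := by
  rw [Function.iterate_succ', deriv_comp _ (rf_hasDerivAt (h n le_rfl)).differentiableAt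
    (rf_iter_diff n fun j hj => h j hj.le), (rf_hasDerivAt (h n le_rfl)).deriv]

theorem rf_iter_deriv_add {P Q : ℂ[X]} {z : ℂ} (m n : ℕ)
    (h : ∀ j < n + m, Q.eval ((rf P Q)^[j] z) ≠ 0) :
    deriv ((rf P Q)^[m + n]) z = deriv ((rf P Q)^[m]) ((rf P Q)^[n] z) *
      deriv ((rf P Q)^[n]) z := by
  rw [Function.iterate_add, deriv_comp]
  · refine rf_iter_diff m fun j hj => ?_
    rw [← Function.iterate_add_apply]
    exact h _ (by omega)
  · exact rf_iter_diff n fun j hj => h j (by omega)

/-- the Cauchy series is continuous off the closure of its poles -/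
theorem phi_continuousAt {α v : ℕ → ℂ} (hα : Summable fun j => ‖α j‖) {x : ℂ}
    (hx : x ∉ closure (Set.range v)) : ContinuousAt (phi α v) x := by
  obtain ⟨δ, hδ, hδs⟩ := Metric.mem_nhds_iff.1
    ((isClosed_closure (s := Set.range v)).isOpen_compl.mem_nhds hx)
  have hfar : ∀ y ∈ ball x (δ / 2), ∀ j, δ / 2 ≤ ‖y - v j‖ := by
    intro y hy j
    by_contra hlt
    push Not at hlt
    have h1 : v j ∈ ball x δ := by
      rw [mem_ball] at hy ⊢
      have h2 : dist (v j) y < δ / 2 := by
        rw [dist_comm, dist_eq_norm]; exact hlt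
      have := dist_triangle (v j) y x
      linarith
    exact hδs h1 (subset_closure ⟨j, rfl⟩)
  have h3 : ContinuousOn (phi α v) (ball x (δ / 2)) := by
    unfold phi
    refine continuousOn_tsum (u := fun j => ‖α j‖ * (2 / δ)) ?_ (hα.mul_right _) ?_
    · intro j y hy
      have h4 : y - v j ≠ 0 := by
        rw [← norm_pos_iff]
        exact lt_of_lt_of_le (by positivity) (hfar y hy j)
      have h5 : ContinuousAt (fun y : ℂ => α j / (y - v j)) y :=
        continuousAt_const.div (by fun_prop) h4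
      exact h5.continuousWithinAt
    · intro j y hy
      rw [norm_div, div_eq_mul_inv]
      refine mul_le_mul_of_nonneg_left ?_ (norm_nonneg _)
      rw [← inv_div]
      exact inv_anti₀ (by positivity) (hfar y hy j)
  exact h3.continuousAt (ball_mem_nhds x (by positivity))

/-- **Transversality.** A summable critical orbit is moved by some perturbation. -/
theorem transversal {P Q : ℂ[X]} {d : ℕ} (hd : 2 ≤ d) (hPQ : IsCoprime P Q)
    (hPd : P.natDegree ≤ d) (hQd : Q.natDegree = d) {c : ℂ} (hc : (wr P Q).eval c = 0)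
    (hN : wr P Q ≠ 0) {K : Set ℂ} (hK : IsCompact K) (hKc : ∀ j, (rf P Q)^[j] c ∈ K)
    (hKQ : ∀ z ∈ K, Q.eval z ≠ 0) (hne : ∀ j, deriv ((rf P Q)^[j]) (rf P Q c) ≠ 0)
    (hsum : Summable fun j => ‖deriv ((rf P Q)^[j]) (rf P Q c)‖⁻¹)
    {A₀ : Set ℂ} (hA₀o : IsOpen A₀) (hA₀d : Dense A₀) (hA₀K : ∀ x ∈ A₀, x ∉ K)
    (hwand : ∀ᵐ x : ℂ, x ∈ A₀ → ∃ U : Set ℂ, x ∈ U ∧ IsOpen U ∧
      ∀ y ∈ U, ∀ k, 0 < k → (rf P Q)^[k] y ∉ U)
    (hvol : volume (closure (Set.range fun j => (rf P Q)^[j] (rf P Q c))) = 0) :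
    ∃ S : ℂ[X], S.natDegree ≤ 2 * d ∧ ∑' j, S.eval ((rf P Q)^[j] c) /
      Q.eval ((rf P Q)^[j] c) ^ 2 / deriv ((rf P Q)^[j]) (rf P Q c) ≠ 0 := by
  classical
  by_contra hcon
  push Not at hcon
  obtain ⟨g, hg⟩ : ∃ g, g = rf P Q := ⟨_, rfl⟩
  rw [← hg] at hKc hne hsum hwand hcon hvol
  set v : ℕ → ℂ := fun j => g^[j] (g c) with hv
  set α : ℕ → ℂ := fun j => (deriv (g^[j]) (g c))⁻¹ with hα
  have hvc : ∀ j, v j = g^[j + 1] c := fun j => (Function.iterate_succ_apply g j c).symm
  have hvK : ∀ j, v j ∈ K := fun j => by rw [hvc]; exact hKc _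
  have hQv : ∀ j, Q.eval (v j) ≠ 0 := fun j => hKQ _ (hvK j)
  have hQc : Q.eval c ≠ 0 := by
    have := hKQ _ (hKc 0)
    simpa using this
  have hvs : ∀ j, v (j + 1) = rf P Q (v j) := by
    intro j
    simp only [hv, Function.iterate_succ_apply', hg]
  have hderiv : ∀ j, deriv (g^[j + 1]) (g c) = (wr P Q).eval (v j) / Q.eval (v j) ^ 2 *
      deriv (g^[j]) (g c) := by
    intro j
    have h1 := rf_iter_deriv_succ (P := P) (Q := Q) (z := g c) j (fun i _ => by
      rw [← hg]; exact hQv i)
    rw [← hg] at h1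
    exact h1
  have hNv : ∀ j, (wr P Q).eval (v j) ≠ 0 := by
    intro j h0
    have h1 := hderiv j
    rw [h0, zero_div, zero_mul] at h1
    exact hne _ h1
  have hα0 : α 0 = 1 := by
    simp [hα]
  have hαs : ∀ j, α (j + 1) = α j * (Q.eval (v j) ^ 2 / (wr P Q).eval (v j)) := by
    intro j
    simp only [hα]
    rw [hderiv j, mul_inv, inv_div, mul_comm]
  have hαn : Summable fun j => ‖α j‖ := by
    simpa only [hα, norm_inv] using hsum
  have hαsum : Summable α := hαn.of_norm
  -- the functional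
  have hT : ∀ S : ℂ[X], S.natDegree ≤ 2 * d →
      (Summable fun j => S.eval (v j) / (wr P Q).eval (v j) * α j) ∧
      S.eval c / Q.eval c ^ 2 + ∑' j, S.eval (v j) / (wr P Q).eval (v j) * α j = 0 := by
    intro S hS
    have hterm : ∀ j, S.eval (v j) / (wr P Q).eval (v j) * α j =
        S.eval (v j) / Q.eval (v j) ^ 2 * α (j + 1) := by
      intro j
      rw [hαs]
      have := hQv j
      have := hNv j
      field_simp
    obtain ⟨B, hB⟩ := hK.exists_bound_of_continuousOn
      (f := fun z => S.eval z / Q.eval z ^ 2)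
      (S.continuous.continuousOn.div (Q.continuous.continuousOn.pow 2)
        fun z hz => pow_ne_zero _ (hKQ z hz))
    have hsm : Summable fun j => S.eval (v j) / (wr P Q).eval (v j) * α j := by
      have h1 : Summable fun j => B * ‖α (j + 1)‖ :=
        ((summable_nat_add_iff 1).2 hαn).mul_left B
      refine Summable.of_norm_bounded h1 fun j => ?_
      rw [hterm, norm_mul]
      exact mul_le_mul_of_nonneg_right (hB _ (hvK j)) (norm_nonneg _)
    refine ⟨hsm, ?_⟩
    set a : ℕ → ℂ := fun j => S.eval (g^[j] c) / Q.eval (g^[j] c) ^ 2 / deriv (g^[j]) (g c) with ha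
    have ha1 : ∀ j, a (j + 1) = S.eval (v j) / (wr P Q).eval (v j) * α j := by
      intro j
      rw [hterm]
      simp only [ha, hα, ← hvc]
      rw [div_eq_mul_inv]
    have ha0 : a 0 = S.eval c / Q.eval c ^ 2 := by
      simp [ha]
    have hasum : Summable a := by
      rw [← summable_nat_add_iff 1]
      exact hsm.congr fun j => (ha1 j).symm
    have h2 : ∑' j, a j = 0 := hcon S hS
    rw [hasum.tsum_eq_zero_add, ha0] at h2
    rw [← h2]
    congr 1
    exact tsum_congr fun j => (ha1 j).symm
  have hmom : ∀ h : ℂ[X], h.natDegree ≤ 2 → ∑' j, h.eval (v j) * α j = 0 := by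
    intro h hh
    have h1 : (wr P Q * h).natDegree ≤ 2 * d := by
      refine Polynomial.natDegree_mul_le.trans ?_
      have := wr_natDegree (by omega) hPd hQd.le
      omega
    obtain ⟨-, h2⟩ := hT _ h1
    rw [Polynomial.eval_mul, hc, zero_mul, zero_div, zero_add] at h2
    rw [← h2]
    refine tsum_congr fun j => ?_
    rw [Polynomial.eval_mul, mul_div_cancel_left₀ _ (hNv j)]
  have hm0 : ∑' j, α j = 0 := by
    have := hmom 1 (by simp)
    simpa using this
  have hm1 : ∑' j, α j * v j = 0 := by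
    have := hmom X (by simp)
    rw [← this]
    exact tsum_congr fun j => by rw [Polynomial.eval_X, mul_comm]
  have hm2 : ∑' j, α j * v j ^ 2 = 0 := by
    have := hmom (X ^ 2) (by simp)
    rw [← this]
    exact tsum_congr fun j => by rw [Polynomial.eval_pow, Polynomial.eval_X, mul_comm]
  obtain ⟨M, hM⟩ := hK.isBounded.exists_norm_le
  have hker := D3a_kernel
  obtain ⟨hφm, hφi⟩ := D3c_int hαn (fun j => hM _ (hvK j)) hker hm0 hm1 hm2
  have hgood := D3b_ae (v := v) hαn hker
  have hgm : Measurable g := by rw [hg]; exact rf_measurable P Q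
  have hNfin : {z : ℂ | (wr P Q).eval z = 0}.Finite := by
    refine ((wr P Q).roots.toFinset.finite_toSet).subset ?_
    intro z hz
    simp only [Finset.mem_coe, Multiset.mem_toFinset, Polynomial.mem_roots hN]
    exact hz
  have hnotboth : ∀ w, Q.eval w = 0 → P.eval w ≠ 0 := by
    intro w h1 h2
    obtain ⟨a, b, hab⟩ := hPQ
    have := congrArg (Polynomial.eval w) hab
    simp [h1, h2] at this
  have hlead : Q.coeff d ≠ 0 := by
    intro h0
    have h1 : Q.leadingCoeff = 0 := by rw [Polynomial.leadingCoeff, hQd]; exact h0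
    rw [Polynomial.leadingCoeff_eq_zero] at h1
    rw [h1] at hQd
    simp at hQd
    omega
  -- the pointwise inequality
  have hineq : ∀ᵐ x : ℂ, ‖phi α v x‖ₑ ≤ ∑ w ∈ (P - C x * Q).roots.toFinset,
      ‖Q.eval w ^ 4 / (wr P Q).eval w ^ 2‖ₑ * ‖phi α v w‖ₑ := by
    have hx1 : ∀ᵐ x : ℂ, x ∉ ({P.coeff d / Q.coeff d} : Set ℂ) ∪ rf P Q '' {z : ℂ | (wr P Q).eval z = 0} ∪
        Set.range v := by
      have h1 : (({P.coeff d / Q.coeff d} : Set ℂ) ∪ rf P Q '' {z : ℂ | (wr P Q).eval z = 0} ∪
        Set.range v).Countable :=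
        ((Set.countable_singleton _).union (hNfin.image _).countable).union (Set.countable_range v)
      exact h1.ae_notMem volume
    have hx2 : ∀ᵐ x : ℂ, x ∉ rf P Q '' ({w : ℂ | ¬ Summable fun j => ‖α j / (w - v j)‖} ∩
        {w | Q.eval w ≠ 0}) := by
      have h1 : volume (rf P Q '' ({w : ℂ | ¬ Summable fun j => ‖α j / (w - v j)‖} ∩
        {w | Q.eval w ≠ 0})) = 0 := by
        refine addHaar_image_eq_zero_of_differentiableOn_of_addHaar_eq_zero volume ?_ ?_
        · intro w hw
          exact ((rf_hasDerivAt hw.2).differentiableAt.restrictScalars ℝ).differentiableWithinAt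
        · exact measure_mono_null Set.inter_subset_left (ae_iff.1 hgood)
      exact measure_eq_zero_iff_ae_notMem.1 h1
    filter_upwards [hgood, hx1, hx2] with x hx hx1 hx2
    have hxz : x ≠ P.coeff d / Q.coeff d := fun h => hx1 (Or.inl (Or.inl h))
    have hxc : ∀ w, (wr P Q).eval w = 0 → rf P Q w ≠ x := fun w hw h =>
      hx1 (Or.inl (Or.inr ⟨w, hw, h⟩))
    have hxv : ∀ j, x ≠ v j := fun j h => hx1 (Or.inr ⟨j, h.symm⟩)
    have hroot : ∀ w, (P - C x * Q).eval w = 0 → Q.eval w ≠ 0 ∧ rf P Q w = x := by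
      intro w hw
      simp only [Polynomial.eval_sub, Polynomial.eval_mul, Polynomial.eval_C] at hw
      have hQw : Q.eval w ≠ 0 := by
        intro h0
        rw [h0, mul_zero, sub_zero] at hw
        exact hnotboth w h0 hw
      refine ⟨hQw, ?_⟩
      rw [rf, div_eq_iff hQw]
      exact sub_eq_zero.1 hw
    have hdeg : (P - C x * Q).natDegree = d := by
      refine le_antisymm ?_ (Polynomial.le_natDegree_of_ne_zero ?_)
      · refine (Polynomial.natDegree_sub_le _ _).trans (max_le hPd ?_)
        exact (Polynomial.natDegree_C_mul_le _ _).trans hQd.le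
      · rw [Polynomial.coeff_sub, Polynomial.coeff_C_mul, sub_ne_zero]
        intro h
        apply hxz
        rw [eq_div_iff hlead]
        exact h.symm
    have hx0 : P - C x * Q ≠ 0 := by
      intro h
      rw [h] at hdeg
      simp at hdeg
      omega
    have hpf := D1_pf hPd hQd.le hdeg hx0 (fun w hw h0 => hxc w h0 (hroot w hw).2)
    have h1 := D2_inv hc hQc (v := v) (α := α) (by simp [hv, hg]) hvs hα0 hαs hQv hNv hT hx0 hxv
      hx.of_norm (fun w hw => by
        have h2 := hroot w hw
        by_contra h3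
        apply hx2
        refine ⟨w, ⟨fun h4 => h3 h4.of_norm, h2.1⟩, h2.2⟩) hpf
    rw [h1]
    refine (enorm_sum_le _ _).trans (le_of_eq ?_)
    exact Finset.sum_congr rfl fun w _ => enorm_mul _ _
  -- the measure
  set m : Measure ℂ := volume.withDensity (fun x => ‖phi α v x‖ₑ) with hm
  have hφe : Measurable fun x => ‖phi α v x‖ₑ := hφm.enorm
  have hfinm : IsFiniteMeasure m := by
    refine isFiniteMeasure_withDensity hφi
  have hmono : ∀ A, MeasurableSet A → m A ≤ m (g ⁻¹' A) := by
    intro A hA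
    rw [hm, withDensity_apply _ hA, withDensity_apply _ (hgm hA)]
    refine (lintegral_mono_ae (ae_restrict_of_ae hineq)).trans ?_
    have := D4_area hPQ hN hφe hA
    rw [← hg] at this
    exact this
  have hmz : m A₀ = 0 := by
    set Gd : Set ℂ := {x | ∃ U : Set ℂ, x ∈ U ∧ IsOpen U ∧ ∀ y ∈ U, ∀ k, 0 < k → g^[k] y ∉ U}
      with hGd
    have h1 : m Gd = 0 := by
      refine measure_null_of_locally_null Gd fun x hx => ?_
      obtain ⟨U, hxU, hU, hw⟩ := hx
      exact ⟨U, mem_nhdsWithin_of_mem_nhds (hU.mem_nhds hxU),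
        D5_null hgm hmono hU.measurableSet hw⟩
    have h2 : m (A₀ \ Gd) = 0 := by
      have h3 : volume (A₀ \ Gd) = 0 := by
        refine measure_mono_null ?_ (ae_iff.1 hwand)
        rintro x ⟨hx1, hx2⟩
        simp only [Set.mem_setOf_eq, Classical.not_imp]
        exact ⟨hx1, hx2⟩
      exact (withDensity_absolutelyContinuous _ _) h3
    have h4 : m A₀ ≤ m Gd + m (A₀ \ Gd) := by
      refine (measure_mono ?_).trans (measure_union_le _ _)
      intro x hx
      by_cases h : x ∈ Gd
      · exact Or.inl h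
      · exact Or.inr ⟨hx, h⟩
    rw [h1, h2, add_zero] at h4
    exact nonpos_iff_eq_zero.1 h4
  have hclK : closure (Set.range v) ⊆ K :=
    closure_minimal (Set.range_subset_iff.2 hvK) hK.isClosed
  have hφA : ∀ x ∈ A₀, phi α v x = 0 := by
    rw [hm, withDensity_apply _ hA₀o.measurableSet, lintegral_eq_zero_iff hφe] at hmz
    have h1 : phi α v =ᵐ[volume.restrict A₀] (fun _ => (0 : ℂ)) := by
      filter_upwards [hmz] with x hx
      simpa using hx
    exact Measure.eqOn_open_of_ae_eq h1 hA₀o
      (fun x hx => (phi_continuousAt hαn fun h => hA₀K x hx (hclK h)).continuousWithinAt)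
      continuousOn_const
  have hφΩ : ∀ x, x ∉ closure (Set.range v) → phi α v x = 0 := by
    intro x hx
    by_contra hne0
    have h1 : ∀ᶠ y in 𝓝 x, phi α v y ≠ 0 := (phi_continuousAt hαn hx).eventually_ne hne0
    obtain ⟨y, hy1, hy2⟩ := (hA₀d.inter_nhds_nonempty h1)
    exact hy2 (hφA y hy1)
  have hφ0 : ∀ᵐ x : ℂ, phi α v x = 0 := by
    rw [ae_iff]
    refine measure_mono_null ?_ hvol
    intro x hx
    by_contra h
    exact hx (hφΩ x h)
  -- the contradiction
  have hu := D6_unique hαn hker hφ0 (v 0)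
  have hsj : Summable fun j => (if v j = v 0 then α j else 0) := by
    refine Summable.of_norm_bounded hαn fun j => ?_
    split_ifs
    · exact le_rfl
    · simp
  by_cases hper : ∃ p, 0 < p ∧ v p = v 0
  · set p := Nat.find hper with hp
    obtain ⟨hp0, hpv⟩ := Nat.find_spec hper
    rw [← hp] at hp0 hpv
    have hvp : ∀ j, v (j + p) = v j := by
      intro j
      simp only [hv] at hpv ⊢
      rw [Function.iterate_add_apply, hpv]
      simp
    have hαp : ∀ j, α (j + p) = α p * α j := by
      intro j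
      simp only [hα]
      have h1 := rf_iter_deriv_add (P := P) (Q := Q) (z := g c) j p (fun i _ => by
        rw [← hg]; exact hQv i)
      rw [← hg] at h1
      have h2 : g^[p] (g c) = g c := by
        have := hpv
        simp only [hv] at this
        simpa using this
      rw [h1, h2, mul_inv, mul_comm]
    have h3 : (∑ j ∈ Finset.range p, (if v j = v 0 then α j else 0)) = 1 := by
      rw [Finset.sum_eq_single 0]
      · rw [if_pos rfl, hα0]
      · intro j hj hj0
        rw [if_neg]
        intro h4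
        exact Nat.find_min hper (Finset.mem_range.1 hj) ⟨Nat.pos_of_ne_zero hj0, h4⟩
      · intro h4
        exact absurd (Finset.mem_range.2 hp0) h4
    have h5 := hsj.sum_add_tsum_nat_add p
    rw [h3, hu] at h5
    have h6 : ∑' j, (if v (j + p) = v 0 then α (j + p) else 0) =
        α p * ∑' j, (if v j = v 0 then α j else 0) := by
      rw [← tsum_mul_left]
      refine tsum_congr fun j => ?_
      rw [hvp, hαp, mul_ite, mul_zero]
    rw [h6, hu, mul_zero, add_zero] at h5
    exact one_ne_zero h5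
  · push Not at hper
    have h1 : ∑' j, (if v j = v 0 then α j else 0) = α 0 := by
      rw [tsum_eq_single 0]
      · rw [if_pos rfl]
      · intro j hj
        rw [if_neg (hper j (Nat.pos_of_ne_zero hj))]
    rw [hu, hα0] at h1
    exact zero_ne_one h1

end Pool.Agent.H792R2.CE
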