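import Pool.Agent.H792R2.CE.Defs

set_option autoImplicit false

open Filter Topology Metric Set Polynomial MeasureTheory
open scoped OnePoint

namespace Pool.Agent.H792R2.CE

open Pool.Agent.Helper114.Herman Pool.Agent.H762R2.Rt

namespace D8x

theorem sph_iter {d : ℕ} {P Q : ℂ[X]} {x : ℂ} {k : ℕ}
    (h : ∀ i < k, Q.eval ((rf P Q)^[i] x) ≠ 0) :
    (sph d P Q)^[k] (x : OnePoint ℂ) = (((rf P Q)^[k] x : ℂ) : OnePoint ℂ) := by
  induction k with
  | zero => rfl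
  | succ k ih =>
    rw [Function.iterate_succ_apply', ih (fun i hi => h i (by omega)),
      sph_coe_of_ne (h k (by omega)), Function.iterate_succ_apply']

theorem cycle_ne {d : ℕ} {P Q : ℂ[X]} {z : ℂ}
    (h : ∀ i : ℕ, (sph d P Q)^[i] (z : OnePoint ℂ) ≠ ∞) (i : ℕ) :
    Q.eval ((rf P Q)^[i] z) ≠ 0 := by
  induction i using Nat.strong_induction_on with
  | _ i ih =>
    intro h0
    have h1 := sph_iter (d := d) (k := i) ih
    apply h (i + 1)
    rw [Function.iterate_succ_apply', h1, sph_coe, h0, pr_zero]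

theorem sub_ne {d : ℕ} {P Q : ℂ[X]} (hd : 2 ≤ d) (hc : IsCoprime P Q)
    (hQd : Q.natDegree = d) (y : ℂ) : P - C y * Q ≠ 0 := by
  intro h
  have h1 : P = C y * Q := sub_eq_zero.mp h
  have h2 : IsUnit Q := by
    rw [h1] at hc
    have : Q ∣ C y * Q := Dvd.intro_left _ rfl
    exact hc.isUnit_of_dvd' this dvd_rfl
  have h3 := Polynomial.natDegree_eq_zero_of_isUnit h2
  omega

theorem root_countable {R : ℂ[X]} (hR : R ≠ 0) : {z : ℂ | R.eval z = 0}.Countable := by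
  have : {z : ℂ | R.eval z = 0} = {z : ℂ | R.IsRoot z} := rfl
  rw [this]
  exact (Polynomial.finite_setOfPred_isRoot hR).countable

theorem preimage_countable {d : ℕ} {P Q : ℂ[X]} (hd : 2 ≤ d) (hc : IsCoprime P Q)
    (hQd : Q.natDegree = d) {S : Set ℂ} (hS : S.Countable) : ((rf P Q) ⁻¹' S).Countable := by
  have hQ : Q ≠ 0 := by
    rintro rfl
    rw [natDegree_zero] at hQd
    omega
  have h1 : ((rf P Q) ⁻¹' S) ⊆ {z : ℂ | Q.eval z = 0} ∪ ⋃ y ∈ S, {z : ℂ | (P - C y * Q).eval z = 0} := by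
    intro z hz
    by_cases h0 : Q.eval z = 0
    · exact Or.inl h0
    · right
      rw [mem_iUnion₂]
      refine ⟨rf P Q z, hz, ?_⟩
      simp only [mem_ofPred_eq, eval_sub, eval_mul, eval_C, rf]
      field_simp
      ring
  refine Countable.mono h1 ((root_countable hQ).union ?_)
  exact hS.biUnion fun y _ => root_countable (sub_ne hd hc hQd y)

theorem iter_preimage_countable {d : ℕ} {P Q : ℂ[X]} (hd : 2 ≤ d) (hc : IsCoprime P Q)
    (hQd : Q.natDegree = d) {S : Set ℂ} (hS : S.Countable) (k : ℕ) :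
    (((rf P Q)^[k]) ⁻¹' S).Countable := by
  induction k with
  | zero => simpa using hS
  | succ k ih =>
    rw [Function.iterate_succ, preimage_comp]
    exact preimage_countable hd hc hQd ih

theorem pole_countable {d : ℕ} {P Q : ℂ[X]} (hd : 2 ≤ d) (hc : IsCoprime P Q)
    (hQd : Q.natDegree = d) : {x : ℂ | ∃ k, Q.eval ((rf P Q)^[k] x) = 0}.Countable := by
  have hQ : Q ≠ 0 := by
    rintro rfl
    rw [natDegree_zero] at hQd
    omega
  have h1 : {x : ℂ | ∃ k, Q.eval ((rf P Q)^[k] x) = 0} =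
      ⋃ k, ((rf P Q)^[k]) ⁻¹' {z : ℂ | Q.eval z = 0} := by
    ext x
    simp
  rw [h1]
  exact countable_iUnion fun k => iter_preimage_countable hd hc hQd (root_countable hQ) k

theorem diff_rf {P Q : ℂ[X]} {x : ℂ} (h : Q.eval x ≠ 0) : DifferentiableAt ℂ (rf P Q) x := by
  unfold rf
  exact (P.differentiableAt).div (Q.differentiableAt) h

theorem diff_iter {P Q : ℂ[X]} {x : ℂ} {k : ℕ}
    (h : ∀ i < k, Q.eval ((rf P Q)^[i] x) ≠ 0) : DifferentiableAt ℂ ((rf P Q)^[k]) x := by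
  induction k with
  | zero => exact differentiableAt_id
  | succ k ih =>
    rw [Function.iterate_succ']
    exact DifferentiableAt.comp x (diff_rf (h k (by omega))) (ih fun i hi => h i (by omega))

theorem contr {f : ℂ → ℂ} {z : ℂ} (hz : f z = z) (hf : DifferentiableAt ℂ f z)
    (hd : ‖deriv f z‖ < 1) : ∃ q : ℝ, 0 ≤ q ∧ q < 1 ∧ ∀ᶠ y in 𝓝 z, ‖f y - z‖ ≤ q * ‖y - z‖ := by
  set c := (1 - ‖deriv f z‖) / 2 with hcdef
  have hc : 0 < c := by
    rw [hcdef]
    linarith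
  refine ⟨‖deriv f z‖ + c, by positivity, by rw [hcdef]; linarith, ?_⟩
  have h1 := (hasDerivAt_iff_isLittleO.mp hf.hasDerivAt).def hc
  filter_upwards [h1] with y hy
  rw [hz] at hy
  calc ‖f y - z‖ = ‖(f y - z - (y - z) • deriv f z) + (y - z) • deriv f z‖ := by
        congr 1
        ring
    _ ≤ ‖f y - z - (y - z) • deriv f z‖ + ‖(y - z) • deriv f z‖ := norm_add_le _ _
    _ ≤ c * ‖y - z‖ + ‖y - z‖ * ‖deriv f z‖ := by
        rw [norm_smul]
        linarith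
    _ = (‖deriv f z‖ + c) * ‖y - z‖ := by ring

theorem contr_ball {f : ℂ → ℂ} {z : ℂ} (hz : f z = z) (hf : DifferentiableAt ℂ f z)
    (hd : ‖deriv f z‖ < 1) : ∃ ε : ℝ, 0 < ε ∧ (∀ η ≤ ε, ∀ y ∈ ball z η, f y ∈ ball z η) ∧
      ∀ y ∈ ball z ε, Tendsto (fun k : ℕ => f^[k] y) atTop (𝓝 z) := by
  obtain ⟨q, hq0, hq1, hq⟩ := contr hz hf hd
  obtain ⟨ε, hε, hb⟩ := Metric.eventually_nhds_iff_ball.mp hq
  have h1 : ∀ η ≤ ε, ∀ y ∈ ball z η, f y ∈ ball z η := by
    intro η hη y hy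
    have h2 := hb y (ball_subset_ball hη hy)
    rw [mem_ball, dist_eq_norm] at hy ⊢
    nlinarith [norm_nonneg (y - z)]
  refine ⟨ε, hε, h1, ?_⟩
  intro y hy
  have h3 : ∀ k : ℕ, f^[k] y ∈ ball z ε ∧ ‖f^[k] y - z‖ ≤ q ^ k * ‖y - z‖ := by
    intro k
    induction k with
    | zero => simpa using hy
    | succ k ih =>
      rw [Function.iterate_succ_apply']
      refine ⟨h1 ε le_rfl _ ih.1, ?_⟩
      have h4 := hb _ ih.1
      calc ‖f (f^[k] y) - z‖ ≤ q * ‖f^[k] y - z‖ := h4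
        _ ≤ q * (q ^ k * ‖y - z‖) := by gcongr; exact ih.2
        _ = q ^ (k + 1) * ‖y - z‖ := by ring
  rw [tendsto_iff_norm_sub_tendsto_zero]
  refine squeeze_zero (fun k => norm_nonneg _) (fun k => (h3 k).2) ?_
  have := (tendsto_pow_atTop_nhds_zero_of_lt_one hq0 hq1).mul_const ‖y - z‖
  simpa using this

theorem iter_mul_fix {f : ℂ → ℂ} {x : ℂ} {m : ℕ} (h : f^[m] x = x) (k : ℕ) :
    f^[m * k] x = x := by
  rw [Function.iterate_mul]
  exact Function.iterate_fixed h k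

/-- a periodic point attracted to `z` equals `z` -/
theorem periodic_eq {f : ℂ → ℂ} {x z : ℂ} {n m : ℕ} (_hn : 0 < n) (hm : 0 < m) (h : f^[m] x = x)
    (ht : Tendsto (fun k : ℕ => f^[n * k] x) atTop (𝓝 z)) : x = z := by
  have h1 : Tendsto (fun j : ℕ => f^[n * (m * j)] x) atTop (𝓝 z) := by
    have h2 : Tendsto (fun j : ℕ => m * j) atTop atTop := by
      exact tendsto_id.const_mul_atTop' hm
    exact ht.comp h2
  have h3 : (fun j : ℕ => f^[n * (m * j)] x) = fun _ => x := by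
    funext j
    have : n * (m * j) = m * (n * j) := by ring
    rw [this]
    exact iter_mul_fix h _
  rw [h3] at h1
  exact tendsto_nhds_unique tendsto_const_nhds h1

/-- attracting periodic points -/
def T (P Q : ℂ[X]) : Set ℂ := {z : ℂ | ∃ n : ℕ, 0 < n ∧ (∀ i, Q.eval ((rf P Q)^[i] z) ≠ 0) ∧
  (rf P Q)^[n] z = z ∧ ‖deriv ((rf P Q)^[n]) z‖ < 1}

theorem T_countable (P Q : ℂ[X]) : (T P Q).Countable := by
  have hdisc : DiscreteTopology (T P Q) := by
    rw [discreteTopology_subtype_iff]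
    intro z hz
    obtain ⟨n, hn, hi, hfix, hder⟩ := hz
    obtain ⟨ε, hε, -, hconv⟩ := contr_ball hfix (diff_iter fun i _ => hi i) hder
    rw [← Filter.empty_mem_iff_bot, Filter.mem_inf_principal]
    change ∀ᶠ y in 𝓝[≠] z, y ∈ T P Q → y ∈ (∅ : Set ℂ)
    rw [eventually_nhdsWithin_iff]
    filter_upwards [ball_mem_nhds z hε] with y hy hne hyT
    obtain ⟨m, hm, -, hfix', -⟩ := hyT
    apply absurd _ hne
    have h1 := hconv y hy
    have h2 : (fun k : ℕ => ((rf P Q)^[n])^[k] y) = fun k : ℕ => (rf P Q)^[n * k] y := by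
      funext k
      rw [Function.iterate_mul]
    rw [h2] at h1
    simpa using periodic_eq hn hm hfix' h1
  rw [← countable_coe_iff]
  exact countable_of_Lindelof_of_discrete

theorem orbit_countable (P Q : ℂ[X]) :
    {x : ℂ | ∃ z ∈ T P Q, ∃ i, x = (rf P Q)^[i] z}.Countable := by
  have : {x : ℂ | ∃ z ∈ T P Q, ∃ i, x = (rf P Q)^[i] z} =
      ⋃ i : ℕ, ((rf P Q)^[i]) '' (T P Q) := by
    ext x
    simp only [mem_ofPred_eq, mem_iUnion, mem_image]
    constructor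
    · rintro ⟨z, hz, i, hi⟩
      exact ⟨i, z, hz, hi.symm⟩
    · rintro ⟨i, z, hz, hi⟩
      exact ⟨z, hz, i, hi.symm⟩
  rw [this]
  exact countable_iUnion fun i => (T_countable P Q).image _

theorem good {d : ℕ} {P Q : ℂ[X]} {x : ℂ} (hE : ∀ k, Q.eval ((rf P Q)^[k] x) ≠ 0)
    (hA : Att d P Q (x : OnePoint ℂ)) (hS : ¬ ∃ z ∈ T P Q, ∃ i, x = (rf P Q)^[i] z) :
    ∃ U : Set ℂ, x ∈ U ∧ IsOpen U ∧ ∀ y ∈ U, ∀ k, 0 < k → (rf P Q)^[k] y ∉ U := by
  obtain ⟨n, hn, z, hcyc, hfix, hder, ht⟩ := hA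
  have hz := cycle_ne hcyc
  have hfix' : (rf P Q)^[n] z = z := by
    rw [sph_iter fun i _ => hz i] at hfix
    exact_mod_cast hfix
  have hzT : z ∈ T P Q := ⟨n, hn, hz, hfix', hder⟩
  have hx : ∀ i, x ≠ (rf P Q)^[i] z := fun i hi => hS ⟨z, hzT, i, hi⟩
  have ht' : Tendsto (fun k : ℕ => (rf P Q)^[n * k] x) atTop (𝓝 z) := by
    have h1 : (fun k : ℕ => (sph d P Q)^[n * k] (x : OnePoint ℂ)) =
        (fun w : ℂ => (w : OnePoint ℂ)) ∘ fun k : ℕ => (rf P Q)^[n * k] x := by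
      funext k
      exact sph_iter fun i _ => hE i
    rw [h1] at ht
    exact OnePoint.isOpenEmbedding_coe.tendsto_nhds_iff.mpr ht
  obtain ⟨ε, hε, hinv, -⟩ := contr_ball hfix' (diff_iter fun i _ => hz i) hder
  have hcz : ∀ i, ContinuousAt ((rf P Q)^[i]) z := fun i => (diff_iter fun j _ => hz j).continuousAt
  have hcx : ∀ i, ContinuousAt ((rf P Q)^[i]) x := fun i => (diff_iter fun j _ => hE j).continuousAt
  -- neighbourhoods of `z` whose images avoid a neighbourhood of `x`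
  have h1 : ∀ i, ∃ V ∈ 𝓝 z, ∃ W ∈ 𝓝 x, ∀ y ∈ V, (rf P Q)^[i] y ∉ W := by
    intro i
    obtain ⟨A, B, hA, hB, hxA, hzB, hAB⟩ := t2_separation (hx i)
    refine ⟨(rf P Q)^[i] ⁻¹' B, (hcz i).preimage_mem_nhds (hB.mem_nhds hzB), A,
      hA.mem_nhds hxA, ?_⟩
    intro y hy hyA
    exact (Set.disjoint_left.mp hAB) hyA hy
  choose V hV W hW hVW using h1
  have hVn : (⋂ i ∈ Finset.range n, V i) ∈ 𝓝 z :=
    (Filter.biInter_finset_mem _).mpr fun i _ => hV i
  have hWn : (⋂ i ∈ Finset.range n, W i) ∈ 𝓝 x :=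
    (Filter.biInter_finset_mem _).mpr fun i _ => hW i
  obtain ⟨δ, hδ, hδV⟩ := Metric.mem_nhds_iff.mp hVn
  set η := min δ ε with hη
  have hη0 : 0 < η := lt_min hδ hε
  have hB : ∀ y ∈ ball z η, ∀ k, (rf P Q)^[k] y ∉ ⋂ i ∈ Finset.range n, W i := by
    intro y hy k hk
    have h2 : ∀ m, (rf P Q)^[n * m] y ∈ ball z η := by
      intro m
      rw [Function.iterate_mul]
      induction m with
      | zero => exact hy
      | succ m ih =>
        rw [Function.iterate_succ_apply']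
        exact hinv η (min_le_right _ _) _ ih
    have h3 : k = k % n + n * (k / n) := (Nat.mod_add_div k n).symm
    rw [h3, Function.iterate_add_apply] at hk
    have h4 : k % n ∈ Finset.range n := Finset.mem_range.mpr (Nat.mod_lt _ hn)
    have h5 := h2 (k / n)
    have h6 : (rf P Q)^[n * (k / n)] y ∈ V (k % n) := by
      have := hδV (ball_subset_ball (min_le_left _ _) h5)
      rw [mem_iInter₂] at this
      exact this _ h4
    rw [mem_iInter₂] at hk
    exact hVW _ _ h6 (hk _ h4)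
  obtain ⟨K, hK⟩ := (ht'.eventually (ball_mem_nhds z hη0)).exists
  have hper : ∀ k, 0 < k → x ≠ (rf P Q)^[k] x := by
    intro k hk h
    exact hx 0 (periodic_eq hn hk h.symm ht')
  have h2 : ∀ k, ∃ A ∈ 𝓝 x, 0 < k → ∀ y ∈ A, (rf P Q)^[k] y ∉ A := by
    intro k
    rcases Nat.eq_zero_or_pos k with h0 | h0
    · exact ⟨univ, univ_mem, fun h => by omega⟩
    · obtain ⟨A, B, hA, hB, hxA, hzB, hAB⟩ := t2_separation (hper k h0)
      refine ⟨A ∩ (rf P Q)^[k] ⁻¹' B, inter_mem (hA.mem_nhds hxA)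
        ((hcx k).preimage_mem_nhds (hB.mem_nhds hzB)), fun _ y hy hyA => ?_⟩
      exact (Set.disjoint_left.mp hAB) hyA.1 hy.2
  choose A hA hAk using h2
  have hAn : (⋂ i ∈ Finset.range (n * K), A i) ∈ 𝓝 x :=
    (Filter.biInter_finset_mem _).mpr fun i _ => hA i
  have hfin : ((⋂ i ∈ Finset.range (n * K), A i) ∩ (⋂ i ∈ Finset.range n, W i)) ∩
      (rf P Q)^[n * K] ⁻¹' (ball z η) ∈ 𝓝 x :=
    inter_mem (inter_mem hAn hWn)
      ((hcx _).preimage_mem_nhds (isOpen_ball.mem_nhds hK))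
  obtain ⟨U, hUs, hUo, hxU⟩ := _root_.mem_nhds_iff.mp hfin
  refine ⟨U, hxU, hUo, fun y hy k hk hkU => ?_⟩
  rcases lt_or_ge k (n * K) with hlt | hge
  · have h3 := (hUs hy).1.1
    have h4 := (hUs hkU).1.1
    rw [mem_iInter₂] at h3 h4
    have h5 := Finset.mem_range.mpr hlt
    exact hAk k hk y (h3 _ h5) (h4 _ h5)
  · have h3 := (hUs hy).2
    have h4 := (hUs hkU).1.2
    obtain ⟨j, rfl⟩ := Nat.exists_eq_add_of_le hge
    rw [add_comm, Function.iterate_add_apply] at h4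
    exact hB _ h3 j h4

end D8x

/-- D8. almost every point has a wandering neighbourhood. -/
theorem D8_wandering {d : ℕ} {P Q : ℂ[X]} (hd : 2 ≤ d) (hc : IsCoprime P Q)
    (hPd : P.natDegree ≤ d) (hQd : Q.natDegree = d)
    (hvol : volume {z : ℂ | ¬ Att d P Q (z : OnePoint ℂ)} = 0) :
    ∀ᵐ x : ℂ, ∃ U : Set ℂ, x ∈ U ∧ IsOpen U ∧ ∀ y ∈ U, ∀ k, 0 < k → (rf P Q)^[k] y ∉ U := by
  have h1 : ∀ᵐ x : ℂ, x ∉ {x : ℂ | ∃ k, Q.eval ((rf P Q)^[k] x) = 0} :=
    (D8x.pole_countable hd hc hQd).ae_notMem volume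
  have h2 : ∀ᵐ x : ℂ, x ∉ {x : ℂ | ∃ z ∈ D8x.T P Q, ∃ i, x = (rf P Q)^[i] z} :=
    (D8x.orbit_countable P Q).ae_notMem volume
  have h3 : ∀ᵐ x : ℂ, Att d P Q (x : OnePoint ℂ) := ae_iff.mpr hvol
  filter_upwards [h1, h2, h3] with x hx1 hx2 hx3
  simp only [not_exists] at hx1
  exact D8x.good hx1 hx3 hx2

end Pool.Agent.H792R2.CE
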