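import Pool.Agent.H792R2.CE.Defs

/-! D9, D10 of project CE: Bezout with degrees; choice of a common direction. -/

set_option autoImplicit false

open Filter Topology Metric Set Polynomial MeasureTheory
open scoped OnePoint ENNReal

namespace Pool.Agent.H792R2.CE

/-- D9. -/
theorem D9_bezout {P Q : ℂ[X]} {d : ℕ} (hc : IsCoprime P Q) (hPd : P.natDegree ≤ d)
    (hQd : Q.natDegree = d) (hd : 0 < d) {S : ℂ[X]} (hS : S.natDegree ≤ 2 * d) :
    ∃ H G : ℂ[X], H.natDegree ≤ d ∧ G.natDegree ≤ d ∧ H * Q - P * G = S := by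
  obtain ⟨u, w, huw⟩ := hc
  have hQ0 : Q ≠ 0 := by
    rintro rfl
    simp at hQd
    omega
  set R : ℂ[X] := (S * u) % Q with hR
  have hRd : R.natDegree < d := by
    rw [hR, ← hQd]
    exact natDegree_mod_lt _ (by omega)
  have hdiv : Q * ((S * u) / Q) + R = S * u := EuclideanDomain.div_add_mod (S * u) Q
  -- `S - P * R` is divisible by `Q`
  have hkey : S - P * R = Q * (S * w + P * ((S * u) / Q)) := by
    have h1 : R = S * u - Q * ((S * u) / Q) := eq_sub_of_add_eq (by rw [add_comm]; exact hdiv)
    have h2 : S = S * (u * P + w * Q) := by rw [huw, mul_one]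
    calc S - P * R = S * (u * P + w * Q) - P * (S * u - Q * ((S * u) / Q)) := by
          rw [← h1, ← h2]
      _ = Q * (S * w + P * ((S * u) / Q)) := by ring
  refine ⟨S * w + P * ((S * u) / Q), -R, ?_, ?_, ?_⟩
  · by_cases hH : S * w + P * ((S * u) / Q) = 0
    · rw [hH]; simp
    · have h1 : (S - P * R).natDegree = Q.natDegree + (S * w + P * ((S * u) / Q)).natDegree := by
        rw [hkey, natDegree_mul hQ0 hH]
      have h2 : (S - P * R).natDegree ≤ 2 * d := by
        refine (natDegree_sub_le _ _).trans (max_le hS ?_)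
        refine (natDegree_mul_le).trans ?_
        omega
      omega
  · rw [natDegree_neg]
    exact hRd.le
  · have : (S * w + P * ((S * u) / Q)) * Q = S - P * R := by rw [hkey]; ring
    rw [this]
    ring

/-- D10. -/
theorem D10_choice {ι : Type*} [Finite ι] {D : ℕ} (L : ι → ℂ[X] → ℂ)
    (hadd : ∀ i (S T : ℂ[X]), S.natDegree ≤ D → T.natDegree ≤ D → L i (S + T) = L i S + L i T)
    (hmul : ∀ i (t : ℂ) (S : ℂ[X]), S.natDegree ≤ D → L i (C t * S) = t * L i S)
    (hne : ∀ i, ∃ S : ℂ[X], S.natDegree ≤ D ∧ L i S ≠ 0) :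
    ∃ S : ℂ[X], S.natDegree ≤ D ∧ ∀ i, L i S ≠ 0 := by
  classical
  have main : ∀ s : Set ι, s.Finite → ∃ S : ℂ[X], S.natDegree ≤ D ∧ ∀ i ∈ s, L i S ≠ 0 := by
    intro s hs
    induction s, hs using Set.Finite.induction_on with
    | empty => exact ⟨0, by simp, by simp⟩
    | @insert j s _ hs ih =>
      obtain ⟨S, hSd, hS⟩ := ih
      obtain ⟨T, hTd, hT⟩ := hne j
      -- bad values of `t`
      have hbad : ∀ i ∈ insert j s, {t : ℂ | L i S + t * L i T = 0}.Finite := by
        intro i hi
        apply Set.Subsingleton.finite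
        intro t ht t' ht'
        have ht2 : L i S + t * L i T = 0 := ht
        have ht3 : L i S + t' * L i T = 0 := ht'
        have hTi : L i T ≠ 0 := by
          intro h0
          rw [h0, mul_zero, add_zero] at ht2
          rcases hi with rfl | hi
          · exact hT h0
          · exact hS i hi ht2
        have : (t - t') * L i T = 0 := by linear_combination ht2 - ht3
        rcases mul_eq_zero.1 this with h | h
        · exact sub_eq_zero.1 h
        · exact absurd h hTi
      have hfin : (⋃ i ∈ insert j s, {t : ℂ | L i S + t * L i T = 0}).Finite :=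
        Set.Finite.biUnion (hs.insert j) hbad
      obtain ⟨t, ht⟩ := hfin.infinite_compl.nonempty
      have hCT : (C t * T).natDegree ≤ D := (natDegree_C_mul_le t T).trans hTd
      refine ⟨S + C t * T, (natDegree_add_le _ _).trans (max_le hSd hCT), fun i hi h0 => ?_⟩
      apply ht
      rw [Set.mem_iUnion₂]
      refine ⟨i, hi, ?_⟩
      rw [hadd i S _ hSd hCT, hmul i t T hTd] at h0
      exact h0
  obtain ⟨S, hSd, hS⟩ := main Set.univ Set.finite_univ
  exact ⟨S, hSd, fun i => hS i (Set.mem_univ i)⟩

end Pool.Agent.H792R2.CE
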