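import Pool.Agent.H792R2.CE.Defs

set_option autoImplicit false

open Filter Topology Metric Set Polynomial MeasureTheory
open scoped OnePoint

namespace Pool.Agent.H792R2.CE

namespace E1x

theorem rf_hasDerivAt (P Q : ℂ[X]) {z : ℂ} (h : Q.eval z ≠ 0) :
    HasDerivAt (rf P Q) ((wr P Q).eval z / Q.eval z ^ 2) z := by
  have h1 : HasDerivAt (rf P Q) _ z := (P.hasDerivAt z).div (Q.hasDerivAt z) h
  refine h1.congr_deriv ?_
  unfold wr
  simp

theorem step (P Q H G : ℂ[X]) {y : ℂ → ℂ} {y' z : ℂ} (hy : HasDerivAt y y' 0) (hy0 : y 0 = z)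
    (h : Q.eval z ≠ 0) :
    HasDerivAt (fun s : ℂ => rf (P + C s * H) (Q + C s * G) (y s))
      ((H * Q - P * G).eval z / Q.eval z ^ 2 + (wr P Q).eval z / Q.eval z ^ 2 * y') 0 := by
  subst hy0
  have hp : ∀ R S : ℂ[X], HasDerivAt (fun s : ℂ => R.eval (y s) + s * S.eval (y s))
      ((derivative R).eval (y 0) * y' + S.eval (y 0)) 0 := by
    intro R S
    have h1 : HasDerivAt (fun s : ℂ => R.eval (y s)) ((derivative R).eval (y 0) * y') 0 :=
      (R.hasDerivAt (y 0)).comp 0 hy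
    have h2 : HasDerivAt (fun s : ℂ => S.eval (y s)) ((derivative S).eval (y 0) * y') 0 :=
      (S.hasDerivAt (y 0)).comp 0 hy
    have h3 := h1.add ((hasDerivAt_id (0:ℂ)).mul h2)
    refine h3.congr_deriv ?_
    simp
  have h0 : (fun s : ℂ => Q.eval (y s) + s * G.eval (y s)) 0 ≠ 0 := by simpa using h
  have h4 := (hp P H).div (hp Q G) h0
  unfold rf
  simp only [eval_add, eval_mul, eval_C]
  refine HasDerivAt.congr_deriv h4 ?_
  unfold wr
  simp only [eval_sub, eval_mul, zero_mul, add_zero]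
  field_simp
  ring

theorem diff_iter {P Q : ℂ[X]} {c : ℂ} (hQ : ∀ j, Q.eval ((rf P Q)^[j] c) ≠ 0) (n : ℕ) :
    HasDerivAt ((rf P Q)^[n]) (deriv ((rf P Q)^[n]) (rf P Q c)) (rf P Q c) := by
  rw [hasDerivAt_deriv_iff]
  induction n with
  | zero => exact differentiableAt_id
  | succ n ih =>
    rw [Function.iterate_succ']
    apply DifferentiableAt.comp _ _ ih
    have h := hQ (n + 1)
    rw [Function.iterate_succ_apply] at h
    exact (rf_hasDerivAt P Q h).differentiableAt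

theorem deriv_succ {P Q : ℂ[X]} {c : ℂ} (hQ : ∀ j, Q.eval ((rf P Q)^[j] c) ≠ 0) (n : ℕ) :
    deriv ((rf P Q)^[n + 1]) (rf P Q c) =
      (wr P Q).eval ((rf P Q)^[n + 1] c) / Q.eval ((rf P Q)^[n + 1] c) ^ 2 *
        deriv ((rf P Q)^[n]) (rf P Q c) := by
  have h := hQ (n + 1)
  rw [Function.iterate_succ_apply] at h
  have h1 := (rf_hasDerivAt P Q h).comp (rf P Q c) (diff_iter hQ n)
  rw [← Function.iterate_succ'] at h1
  rw [Function.iterate_succ_apply]
  exact h1.deriv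

end E1x

/-- E1. derivative of the critical orbit with respect to the parameter. -/
theorem E1_orbit {P Q H G : ℂ[X]} {c : ℂ} {τ : ℂ → ℂ} {t : ℂ} (hτ0 : τ 0 = c)
    (hτd : HasDerivAt τ t 0) (hc : (wr P Q).eval c = 0)
    (hQ : ∀ j, Q.eval ((rf P Q)^[j] c) ≠ 0)
    (hne : ∀ j, deriv ((rf P Q)^[j]) (rf P Q c) ≠ 0) (n : ℕ) :
    HasDerivAt (fun s : ℂ => (rf (P + C s * H) (Q + C s * G))^[n + 1] (τ s))
      (deriv ((rf P Q)^[n]) (rf P Q c) * ∑ j ∈ Finset.range (n + 1),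
        (H * Q - P * G).eval ((rf P Q)^[j] c) / Q.eval ((rf P Q)^[j] c) ^ 2 /
          deriv ((rf P Q)^[j]) (rf P Q c)) 0 := by
  induction n with
  | zero =>
    have h := E1x.step P Q H G hτd hτ0 (hQ 0)
    refine h.congr_deriv ?_
    have e : deriv ((rf P Q)^[0]) (rf P Q c) = 1 := by
      rw [Function.iterate_zero]; exact deriv_id _
    rw [Finset.sum_range_one, e, Function.iterate_zero_apply, hc]
    simp
  | succ n ih =>
    have hy0 : (fun s : ℂ => (rf (P + C s * H) (Q + C s * G))^[n + 1] (τ s)) 0 =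
        (rf P Q)^[n + 1] c := by
      simp [hτ0]
    have h := E1x.step P Q H G ih hy0 (hQ (n + 1))
    simp only [Function.iterate_succ_apply' _ (n + 1)]
    refine h.congr_deriv ?_
    rw [Finset.sum_range_succ _ (n + 1), mul_add (deriv ((rf P Q)^[n + 1]) (rf P Q c)),
      E1x.deriv_succ hQ n]
    have h1 := hne (n + 1)
    rw [E1x.deriv_succ hQ n] at h1
    have h2 : (wr P Q).eval ((rf P Q)^[n + 1] c) / Q.eval ((rf P Q)^[n + 1] c) ^ 2 *
        deriv ((rf P Q)^[n]) (rf P Q c) *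
        ((H * Q - P * G).eval ((rf P Q)^[n + 1] c) / Q.eval ((rf P Q)^[n + 1] c) ^ 2 /
          ((wr P Q).eval ((rf P Q)^[n + 1] c) / Q.eval ((rf P Q)^[n + 1] c) ^ 2 *
            deriv ((rf P Q)^[n]) (rf P Q c))) =
        (H * Q - P * G).eval ((rf P Q)^[n + 1] c) / Q.eval ((rf P Q)^[n + 1] c) ^ 2 :=
      mul_div_cancel₀ _ h1
    rw [h2]
    ring

end Pool.Agent.H792R2.CE
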