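import Pool.Agent.H792R2.CE.A2
import Pool.Agent.H792R2.CE.E1
import Pool.Agent.H792R2.Rat.Crit

set_option autoImplicit false

open Filter Topology Metric Set Polynomial MeasureTheory
open scoped OnePoint ENNReal

namespace Pool.Agent.H792R2.CE

open Pool.Agent.H792R2.Rt (iter_at orbit_diffAt growth_loc)

/-- the family in the parameter `a` -/
noncomputable def fam (P Q H G : ℂ[X]) (K : ℕ) (a z : ℂ) : ℂ :=
  rf (P + C (a ^ K) * H) (Q + C (a ^ K) * G) z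

theorem fam_zero {P Q H G : ℂ[X]} {K : ℕ} (hK : 1 ≤ K) : fam P Q H G K 0 = rf P Q := by
  ext z
  simp [fam, zero_pow (show K ≠ 0 by omega)]

theorem fam_contDiffAt {P Q H G : ℂ[X]} {K : ℕ} :
    ∀ p ∈ {p : ℂ × ℂ | (Q + C (p.1 ^ K) * G).eval p.2 ≠ 0},
      ContDiffAt ℂ 1 (fun p : ℂ × ℂ => fam P Q H G K p.1 p.2) p :=
  fun _ hp => rf_contDiffAt hp

theorem fam_rot {P Q H G : ℂ[X]} {K : ℕ} {ξ : ℂ} (hξ : ξ ^ K = 1) (a : ℂ) :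
    fam P Q H G K (ξ * a) = fam P Q H G K a := by
  ext z
  simp only [fam, mul_pow, hξ, one_mul]

/-- growth for a split multiple critical point -/
theorem multi_growth {P Q H G : ℂ[X]} {K : ℕ} {c : ℂ} {k l : ℕ} (hk : 2 ≤ k) (hl : 1 ≤ l)
    (hlk : l * k = K) {τ : ℂ → ℂ} {t : ℂ} {ρ : ℝ} (hρ : 0 < ρ) (ht : t ≠ 0) (hτ0 : τ 0 = c)
    (hτd : HasDerivAt τ t 0) (hτD : ∀ b, ‖b‖ < ρ → DifferentiableAt ℂ τ b)
    (hcrit : ∀ b, ‖b‖ < ρ → (wr (P + C (b ^ k) * H) (Q + C (b ^ k) * G)).eval (τ b) = 0)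
    (hQ : Q.eval c ≠ 0) (hN₁ : (wr H Q + wr P G).eval c ≠ 0)
    {K₁ : Set ℂ} {M : ℝ} (hM0 : 0 ≤ M) (hM : ∀ z ∈ K₁, ‖z‖ ≤ M) {ρ₁ : ℝ}
    (hρ₁1 : ρ₁ ≤ 1) (hρ₁ρ : ρ₁ ≤ ρ)
    (hKW : ∀ a z, ‖a‖ < ρ₁ → z ∈ K₁ → (Q + C (a ^ K) * G).eval z ≠ 0)
    (hKτ : ∀ a b, ‖a‖ < ρ₁ → ‖b‖ < ρ₁ → (Q + C (a ^ K) * G).eval (τ b) ≠ 0) :
    ∃ C₀ : ℝ, 0 ≤ C₀ ∧ ∀ (m : ℕ) (r : ℝ) (ω : ℂ), 0 < r → r < ρ₁ → ω ^ k = 1 →
      (∀ j ≤ m + 1, ∀ a, ‖a‖ ≤ r → (fam P Q H G K a)^[j] (τ (ω * a ^ l)) ∈ K₁) →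
      ‖deriv ((rf P Q)^[m]) (rf P Q c)‖ * r ^ (l * (k + 1)) ≤ C₀ := by
  have hK1 : 1 ≤ K := by rw [← hlk]; exact Nat.mul_pos hl (by omega)
  -- a root of unity different from one
  obtain ⟨ω₁, hω₁, hω₁1⟩ : ∃ ω₁ : ℂ, ω₁ ^ k = 1 ∧ ω₁ ≠ 1 := by
    have h1 := Complex.isPrimitiveRoot_exp k (by omega)
    exact ⟨_, h1.pow_eq_one, h1.ne_one (by omega)⟩
  obtain ⟨κ, hκ, hlim⟩ := A2_split hk hρ ht hτ0 hτd hτD hcrit hQ hN₁ hω₁ hω₁1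
  obtain ⟨ξ, hξ⟩ := IsAlgClosed.exists_pow_nat_eq ω₁ (show 0 < l by omega)
  have hξK : ξ ^ K = 1 := by rw [← hlk, pow_mul, hξ, hω₁]
  have hξn : ‖ξ‖ = 1 := by
    have h1 : ‖ξ‖ ^ K = 1 := by rw [← norm_pow, hξK, norm_one]
    exact (pow_eq_one_iff_of_nonneg (norm_nonneg _) (by omega)).1 h1
  have hω₁n : ‖ω₁‖ = 1 := by rw [← hξ, norm_pow, hξn, one_pow]
  refine ⟨2 * M / ‖κ‖, by positivity, ?_⟩
  intro m r ω hr hrρ hω hbd
  have hωn : ‖ω‖ = 1 := by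
    have h1 : ‖ω‖ ^ k = 1 := by rw [← norm_pow, hω, norm_one]
    exact (pow_eq_one_iff_of_nonneg (norm_nonneg _) (by omega)).1 h1
  have hω0 : ω ≠ 0 := by
    intro h
    rw [h, norm_zero] at hωn
    exact zero_ne_one hωn
  set f : ℂ → ℂ → ℂ := fam P Q H G K with hf
  set u : ℂ → ℂ := fun a => f a (τ (ω * a ^ l)) with hu
  set w : ℂ → ℂ := fun a => f a (τ (ω₁ * (ω * a ^ l))) with hw
  have hsmall : ∀ (x a : ℂ), ‖x‖ = 1 → ‖a‖ < ρ₁ → ‖x * a ^ l‖ < ρ₁ := by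
    intro x a hx ha
    rw [norm_mul, hx, one_mul, norm_pow]
    have h1 : ‖a‖ ^ l ≤ ‖a‖ ^ 1 := pow_le_pow_of_le_one (norm_nonneg _) (ha.le.trans hρ₁1) hl
    rw [pow_one] at h1
    exact lt_of_le_of_lt h1 ha
  have hdiff : ∀ (x a : ℂ), ‖x‖ = 1 → ‖a‖ < ρ₁ →
      DifferentiableAt ℂ (fun a => f a (τ (x * a ^ l))) a := by
    intro x a hx ha
    have h1 := hsmall x a hx ha
    have h2 : DifferentiableAt ℂ (fun p : ℂ × ℂ => f p.1 p.2) (a, τ (x * a ^ l)) :=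
      (fam_contDiffAt (P := P) (H := H) (a, τ (x * a ^ l)) (hKτ a _ ha h1)).differentiableAt
        (by norm_num)
    have h3 : DifferentiableAt ℂ (fun a : ℂ => x * a ^ l) a := by fun_prop
    have h4 : DifferentiableAt ℂ (fun a : ℂ => τ (x * a ^ l)) a :=
      DifferentiableAt.comp (g := τ) (f := fun a : ℂ => x * a ^ l) a
        (hτD _ (lt_of_lt_of_le h1 hρ₁ρ)) h3
    exact DifferentiableAt.comp (g := fun p : ℂ × ℂ => f p.1 p.2)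
      (f := fun a : ℂ => ((a, τ (x * a ^ l)) : ℂ × ℂ)) a h2 (differentiableAt_id.prodMk h4)
  have hu0 : u 0 = rf P Q c := by
    simp only [hu, hf, fam_zero hK1, zero_pow (show l ≠ 0 by omega), mul_zero, hτ0]
  have hw0 : w 0 = rf P Q c := by
    simp only [hw, hf, fam_zero hK1, zero_pow (show l ≠ 0 by omega), mul_zero, hτ0]
  have hlim' : Tendsto (fun a => (u a - w a) / a ^ (l * (k + 1))) (𝓝[≠] 0)
      (𝓝 (κ * ω ^ (k + 1))) := by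
    have h1 : Tendsto (fun a : ℂ => ω * a ^ l) (𝓝[≠] 0) (𝓝[≠] 0) := by
      refine tendsto_nhdsWithin_iff.2 ⟨?_, ?_⟩
      · have h2 : Tendsto (fun a : ℂ => ω * a ^ l) (𝓝 0) (𝓝 (ω * 0 ^ l)) :=
          Continuous.tendsto (by fun_prop) 0
        rw [zero_pow (by omega), mul_zero] at h2
        exact h2.mono_left nhdsWithin_le_nhds
      · filter_upwards [self_mem_nhdsWithin] with a ha
        exact mul_ne_zero hω0 (pow_ne_zero _ ha)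
    have h2 := (hlim.comp h1).mul_const (ω ^ (k + 1))
    refine h2.congr' ?_
    filter_upwards [self_mem_nhdsWithin] with a ha
    have ha' : a ≠ 0 := ha
    have e1 : (ω * a ^ l) ^ k = a ^ K := by
      rw [mul_pow, hω, one_mul, ← pow_mul, hlk]
    simp only [Function.comp, hu, hw, hf, fam, e1]
    rw [mul_pow ω, ← pow_mul]
    have h3 : ω ^ (k + 1) ≠ 0 := pow_ne_zero _ hω0
    have h4 : a ^ (l * (k + 1)) ≠ 0 := pow_ne_zero _ ha'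
    field_simp
  have hub : ∀ m' ≤ m, ∀ a, ‖a‖ ≤ r → (f a)^[m'] (u a) ∈ K₁ := by
    intro m' hm' a ha
    have h1 := hbd (m' + 1) (by omega) a ha
    rw [Function.iterate_succ_apply] at h1
    exact h1
  have hwb : ∀ m' ≤ m, ∀ a, ‖a‖ ≤ r → (f a)^[m'] (w a) ∈ K₁ := by
    intro m' hm' a ha
    have h1 := hbd (m' + 1) (by omega) (ξ * a) (by rw [norm_mul, hξn, one_mul]; exact ha)
    have hrot : f (ξ * a) = f a := fam_rot hξK a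
    rw [Function.iterate_succ_apply, hrot] at h1
    have e2 : ω * (ξ * a) ^ l = ω₁ * (ω * a ^ l) := by
      rw [mul_pow, hξ]; ring
    rw [e2] at h1
    exact h1
  have h5 := growth_loc (f := f) (W := {p : ℂ × ℂ | (Q + C (p.1 ^ K) * G).eval p.2 ≠ 0})
    fam_contDiffAt hM hKW (u := u) (w := w) (fun a ha => hdiff ω a hωn ha)
    (fun a ha => by
      have := hdiff (ω₁ * ω) a (by rw [norm_mul, hωn, hω₁n, one_mul]) ha
      simpa only [hw, mul_assoc] using this)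
    hu0 hw0 hlim' m hr hrρ hub hwb
  rw [hf, fam_zero hK1, norm_mul, norm_pow, hωn, one_pow, mul_one] at h5
  have hκ0 : 0 < ‖κ‖ := norm_pos_iff.2 hκ
  rw [le_div_iff₀ hκ0]
  linarith

/-- growth for a transversal simple critical point -/
theorem simple_growth {P Q H G : ℂ[X]} {K : ℕ} (hK : 1 ≤ K) {c : ℂ} {τ : ℂ → ℂ} {t : ℂ} {ρ : ℝ}
    (hτ0 : τ 0 = c) (hτd : HasDerivAt τ t 0)
    (hτD : ∀ b, ‖b‖ < ρ → DifferentiableAt ℂ τ b) (hc : (wr P Q).eval c = 0)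
    (hQ : ∀ j, Q.eval ((rf P Q)^[j] c) ≠ 0) (hne : ∀ j, deriv ((rf P Q)^[j]) (rf P Q c) ≠ 0)
    (hTs : Summable fun j => (H * Q - P * G).eval ((rf P Q)^[j] c) /
      Q.eval ((rf P Q)^[j] c) ^ 2 / deriv ((rf P Q)^[j]) (rf P Q c))
    (hT : ∑' j, (H * Q - P * G).eval ((rf P Q)^[j] c) / Q.eval ((rf P Q)^[j] c) ^ 2 /
      deriv ((rf P Q)^[j]) (rf P Q c) ≠ 0)
    {K₁ : Set ℂ} {M : ℝ} (hM0 : 0 ≤ M) (hM : ∀ z ∈ K₁, ‖z‖ ≤ M) {ρ₁ : ℝ}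
    (hρ₁1 : ρ₁ ≤ 1) (hρ₁ρ : ρ₁ ≤ ρ)
    (hKW : ∀ a z, ‖a‖ < ρ₁ → z ∈ K₁ → (Q + C (a ^ K) * G).eval z ≠ 0) :
    ∃ (C₀ : ℝ) (n₀ : ℕ), 0 ≤ C₀ ∧ ∀ (m : ℕ) (r : ℝ), n₀ ≤ m → 0 < r → r < ρ₁ →
      (∀ j ≤ m + 1, ∀ a, ‖a‖ ≤ r → (fam P Q H G K a)^[j] (τ (a ^ K)) ∈ K₁) →
      ‖deriv ((rf P Q)^[m]) (rf P Q c)‖ * r ^ K ≤ C₀ := by
  set T : ℂ := ∑' j, (H * Q - P * G).eval ((rf P Q)^[j] c) / Q.eval ((rf P Q)^[j] c) ^ 2 /
      deriv ((rf P Q)^[j]) (rf P Q c) with hTdef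
  have hT0 : 0 < ‖T‖ := norm_pos_iff.2 hT
  have hlim := hTs.hasSum.tendsto_sum_nat
  rw [← hTdef] at hlim
  have hev : ∀ᶠ n in atTop, ‖T‖ / 2 < ‖∑ j ∈ Finset.range (n + 1),
      (H * Q - P * G).eval ((rf P Q)^[j] c) / Q.eval ((rf P Q)^[j] c) ^ 2 /
      deriv ((rf P Q)^[j]) (rf P Q c)‖ := by
    have h1 := ((tendsto_add_atTop_iff_nat 1).2 hlim).norm
    exact h1.eventually (Ioi_mem_nhds (by linarith))
  obtain ⟨n₀, hn₀⟩ := Filter.eventually_atTop.1 hev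
  refine ⟨2 * M / ‖T‖, n₀, by positivity, ?_⟩
  intro m r hm hr hrρ hbd
  set f : ℂ → ℂ → ℂ := fam P Q H G 1 with hf
  have hfK : ∀ a : ℂ, fam P Q H G K a = f (a ^ K) := by
    intro a
    ext z
    simp only [hf, fam, pow_one]
  have hroot : ∀ s : ℂ, ‖s‖ ≤ r ^ K → ∃ a : ℂ, a ^ K = s ∧ ‖a‖ ≤ r := by
    intro s hs
    obtain ⟨a, ha⟩ := IsAlgClosed.exists_pow_nat_eq s (show 0 < K by omega)
    refine ⟨a, ha, ?_⟩
    rw [← ha, norm_pow] at hs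
    exact (pow_le_pow_iff_left₀ (norm_nonneg _) hr.le (by omega)).1 hs
  have hin : ∀ s : ℂ, ‖s‖ ≤ r ^ K → ∀ j ≤ m + 1, (f s)^[j] (τ s) ∈ K₁ := by
    intro s hs j hj
    obtain ⟨a, ha, har⟩ := hroot s hs
    have h1 := hbd j hj a har
    rw [hfK, ha] at h1
    exact h1
  set y : ℂ → ℂ := fun s => (f s)^[m + 1] (τ s) with hy
  have hsρ : ∀ s : ℂ, ‖s‖ ≤ r ^ K → ‖s‖ < ρ := by
    intro s hs
    have h1 : r ^ K ≤ r ^ 1 := pow_le_pow_of_le_one hr.le (by linarith) hK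
    rw [pow_one] at h1
    linarith
  have hyd : ∀ s : ℂ, ‖s‖ ≤ r ^ K → DifferentiableAt ℂ y s := by
    intro s hs
    refine orbit_diffAt (W := {p : ℂ × ℂ | (Q + C (p.1 ^ 1) * G).eval p.2 ≠ 0})
      fam_contDiffAt (hτD s (hsρ s hs)) (m + 1) ?_
    intro i hi
    obtain ⟨a, ha, har⟩ := hroot s hs
    have h1 := hKW a _ (lt_of_le_of_lt har hrρ) (hin s hs i (by omega))
    rw [ha] at h1
    change (Q + C (s ^ 1) * G).eval _ ≠ 0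
    rw [pow_one]
    exact h1
  have hrK : 0 < r ^ K := pow_pos hr K
  have h2 : ‖deriv y 0‖ ≤ M / r ^ K := by
    refine Complex.norm_deriv_le_of_forall_mem_sphere_norm_le hrK ?_ ?_
    · refine ⟨?_, ?_⟩
      · intro s hs
        rw [mem_ball_zero_iff] at hs
        exact (hyd s hs.le).differentiableWithinAt
      · intro s hs
        rw [closure_ball _ hrK.ne', mem_closedBall_zero_iff] at hs
        exact (hyd s hs).continuousAt.continuousWithinAt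
    · intro s hs
      have hs' : ‖s‖ = r ^ K := by simpa using hs
      exact hM _ (hin s hs'.le _ le_rfl)
  have h3 := (E1_orbit (P := P) (Q := Q) (H := H) (G := G) hτ0 hτd hc hQ hne m).deriv
  have h4 : (fun s : ℂ => (rf (P + C s * H) (Q + C s * G))^[m + 1] (τ s)) = y := by
    ext s
    simp only [hy, hf]
    congr 1
    ext z
    simp only [fam, pow_one]
  rw [h4] at h3
  rw [h3, norm_mul, le_div_iff₀ hrK] at h2
  have h5 := hn₀ m hm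
  have h6 : 0 ≤ ‖deriv ((rf P Q)^[m]) (rf P Q c)‖ * r ^ K := by positivity
  rw [le_div_iff₀ hT0]
  nlinarith

end Pool.Agent.H792R2.CE
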