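import Pool.Agent.H792R2.CE.A1
import Pool.Agent.H792R2.CE.B1
import Pool.Agent.H792R2.CE.B2
import Pool.Agent.H792R2.CE.B3
import Pool.Agent.H792R2.CE.C1
import Pool.Agent.H792R2.CE.C2
import Pool.Agent.H792R2.CE.D7
import Pool.Agent.H792R2.CE.D8
import Pool.Agent.H792R2.CE.D9
import Pool.Agent.H792R2.CE.E2

set_option autoImplicit false

open Filter Topology Metric Set Polynomial MeasureTheory
open scoped OnePoint ENNReal

namespace Pool.Agent.H792R2.CE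

open Pool.Agent.Helper114.Herman Pool.Agent.H762R2.Rt
open Pool.Agent.H792R2.Rt (principle_loc)

theorem wr_ne_zero {P Q : ℂ[X]} {d : ℕ} (hd : 0 < d) (hc : IsCoprime P Q)
    (hQd : Q.natDegree = d) : wr P Q ≠ 0 := by
  intro h
  have h1 : Q ∣ P * derivative Q := by
    refine ⟨derivative P, ?_⟩
    rw [wr, sub_eq_zero] at h
    rw [← h, mul_comm]
  have h2 : Q ∣ derivative Q := hc.symm.dvd_of_dvd_mul_left h1
  have hQ' : derivative Q ≠ 0 := by
    intro h0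
    have := Polynomial.derivative_eq_zero.1 h0
    omega
  have h3 := Polynomial.natDegree_le_of_dvd h2 hQ'
  have h4 := Polynomial.natDegree_derivative_lt (p := Q) (by omega)
  omega

theorem att_zero_iff {d : ℕ} {P Q H G : ℂ[X]} {x : OnePoint ℂ} :
    Att d (P + C (0 : ℂ) * H) (Q + C (0 : ℂ) * G) x ↔ Att d P Q x := by
  simp

/-- stability in the power parameter -/
theorem att_stable_pow {d : ℕ} {P Q H G : ℂ[X]} {K : ℕ} (hK : 1 ≤ K)
    (hB : ∀ (n : ℕ) (x : OnePoint ℂ), ContinuousAt (fun p : ℂ × OnePoint ℂ =>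
      (sph d (P + C p.1 * H) (Q + C p.1 * G))^[n] p.2) (0, x))
    {x : OnePoint ℂ} (hx : Att d P Q x) :
    ∀ᶠ p : ℂ × OnePoint ℂ in 𝓝 (0, x),
      Att d (P + C (p.1 ^ K) * H) (Q + C (p.1 ^ K) * G) p.2 := by
  have h1 := C1_stable hB hx
  have h2 : Tendsto (fun p : ℂ × OnePoint ℂ => ((p.1 ^ K, p.2) : ℂ × OnePoint ℂ)) (𝓝 (0, x))
      (𝓝 (0, x)) := by
    have h3 : Continuous (fun p : ℂ × OnePoint ℂ => ((p.1 ^ K, p.2) : ℂ × OnePoint ℂ)) := by
      fun_prop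
    have h4 := h3.tendsto (0, x)
    simpa [zero_pow (show K ≠ 0 by omega)] using h4
  exact h2.eventually h1

/-- the attracted set is open -/
theorem att_open {d : ℕ} {P Q : ℂ[X]} (hd : 0 < d) (hc : IsCoprime P Q) (hPd : P.natDegree ≤ d)
    (hQd : Q.natDegree = d) : IsOpen {x : OnePoint ℂ | Att d P Q x} := by
  rw [isOpen_iff_mem_nhds]
  intro x hx
  have h1 := C1_stable (H := 0) (G := 0)
    (fun n x => B2_joint hd hc hPd hQd (by simp) (by simp) n x) hx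
  have h2 : Tendsto (fun y : OnePoint ℂ => (((0 : ℂ), y) : ℂ × OnePoint ℂ)) (𝓝 x)
      (𝓝 ((0 : ℂ), x)) :=
    (Continuous.prodMk_right (0 : ℂ)).tendsto x
  filter_upwards [h2.eventually h1] with y hy
  simpa using hy

/-- one step of the orbit of a non-attracted point -/
theorem natt_step {d : ℕ} {P Q : ℂ[X]} (hcont : Continuous (sph d P Q)) (hinf : Att d P Q ∞)
    {z : ℂ} (hz : ¬ Att d P Q (z : OnePoint ℂ)) :
    Q.eval z ≠ 0 ∧ ¬ Att d P Q ((rf P Q z : ℂ) : OnePoint ℂ) := by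
  have hQ : Q.eval z ≠ 0 := by
    intro h0
    apply hz
    apply C2_step hcont
    rw [sph_coe, h0, pr_zero]
    exact hinf
  refine ⟨hQ, fun h => hz ?_⟩
  apply C2_step hcont
  rw [sph_coe_of_ne hQ]
  exact h

theorem natt_iter {d : ℕ} {P Q : ℂ[X]} (hcont : Continuous (sph d P Q)) (hinf : Att d P Q ∞)
    {z : ℂ} (hz : ¬ Att d P Q (z : OnePoint ℂ)) (n : ℕ) :
    ¬ Att d P Q (((rf P Q)^[n] z : ℂ) : OnePoint ℂ) ∧ Q.eval ((rf P Q)^[n] z) ≠ 0 := by
  have h1 : ∀ n, ¬ Att d P Q (((rf P Q)^[n] z : ℂ) : OnePoint ℂ) := by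
    intro n
    induction n with
    | zero => simpa using hz
    | succ n ih =>
      rw [Function.iterate_succ_apply']
      exact (natt_step hcont hinf ih).2
  exact ⟨h1 n, (natt_step hcont hinf (h1 n)).1⟩

/-- the non-attracted set is compact -/
theorem natt_compact {d : ℕ} {P Q : ℂ[X]} (hd : 0 < d) (hc : IsCoprime P Q)
    (hPd : P.natDegree ≤ d) (hQd : Q.natDegree = d) (hinf : Att d P Q ∞) :
    IsCompact {z : ℂ | ¬ Att d P Q (z : OnePoint ℂ)} := by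
  have h1 : IsCompact ({x : OnePoint ℂ | Att d P Q x}ᶜ) :=
    (att_open hd hc hPd hQd).isClosed_compl.isCompact
  have h2 : {x : OnePoint ℂ | Att d P Q x}ᶜ ⊆ Set.range ((↑) : ℂ → OnePoint ℂ) := by
    intro x hx
    induction x using OnePoint.rec with
    | infty => exact absurd hinf hx
    | coe z => exact ⟨z, rfl⟩
  exact OnePoint.isOpenEmbedding_coe.isInducing.isCompact_preimage' h1 h2

/-- derivatives do not vanish along an expanding orbit -/
theorem deriv_ne_of_expanding {P Q : ℂ[X]} {v : ℂ} (hQ : ∀ j, Q.eval ((rf P Q)^[j] v) ≠ 0)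
    {μ : ℝ} (hμ : 1 < μ)
    (h : ∃ᶠ n : ℕ in atTop, ∃ m ≤ n, μ ^ n ≤ ‖deriv ((rf P Q)^[m]) v‖) (j : ℕ) :
    deriv ((rf P Q)^[j]) v ≠ 0 := by
  intro h0
  have h1 : ∀ m, j ≤ m → deriv ((rf P Q)^[m]) v = 0 := by
    intro m hm
    obtain ⟨i, rfl⟩ := Nat.exists_eq_add_of_le' hm
    rw [rf_iter_deriv_add i j (fun i _ => hQ i), h0, mul_zero]
  set B : ℝ := ∑ m ∈ Finset.range j, ‖deriv ((rf P Q)^[m]) v‖ with hB
  have h2 : ∀ m, ‖deriv ((rf P Q)^[m]) v‖ ≤ B := by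
    intro m
    by_cases hm : m < j
    · exact Finset.single_le_sum (f := fun m => ‖deriv ((rf P Q)^[m]) v‖)
        (fun _ _ => norm_nonneg _) (Finset.mem_range.2 hm)
    · rw [h1 m (by omega), norm_zero]
      exact Finset.sum_nonneg fun _ _ => norm_nonneg _
  obtain ⟨n, ⟨m, -, hm⟩, hn⟩ := (h.and_eventually
    ((tendsto_pow_atTop_atTop_of_one_lt hμ).eventually (eventually_gt_atTop B))).exists
  exact absurd (hn.trans_le (hm.trans (h2 m))) (lt_irrefl _)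

/-- at most finitely many small times are expanding -/
theorem late_of_expanding {g : ℕ → ℝ} {μ : ℝ} (hμ : 1 < μ) (n₀ : ℕ) :
    ∀ᶠ n : ℕ in atTop, ∀ m, μ ^ n ≤ g m → n₀ ≤ m := by
  set B : ℝ := ∑ m ∈ Finset.range n₀, |g m| with hB
  filter_upwards [(tendsto_pow_atTop_atTop_of_one_lt hμ).eventually (eventually_gt_atTop B)]
    with n hn m hm
  by_contra hlt
  push Not at hlt
  have h1 : |g m| ≤ B := Finset.single_le_sum (f := fun m => |g m|)
    (fun _ _ => abs_nonneg _) (Finset.mem_range.2 hlt)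
  have h2 := le_abs_self (g m)
  linarith

/-- almost every attracted point has a wandering neighbourhood -/
theorem wandering_att {d : ℕ} {P Q : ℂ[X]} (hd : 2 ≤ d) (hc : IsCoprime P Q)
    (hQd : Q.natDegree = d) :
    ∀ᵐ x : ℂ, x ∈ {z : ℂ | Att d P Q (z : OnePoint ℂ)} →
      ∃ U : Set ℂ, x ∈ U ∧ IsOpen U ∧ ∀ y ∈ U, ∀ k, 0 < k → (rf P Q)^[k] y ∉ U := by
  have h1 : ∀ᵐ x : ℂ, x ∉ {x : ℂ | ∃ k, Q.eval ((rf P Q)^[k] x) = 0} :=
    (D8x.pole_countable hd hc hQd).ae_notMem volume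
  have h2 : ∀ᵐ x : ℂ, x ∉ {x : ℂ | ∃ z ∈ D8x.T P Q, ∃ i, x = (rf P Q)^[i] z} :=
    (D8x.orbit_countable P Q).ae_notMem volume
  filter_upwards [h1, h2] with x hx1 hx2 hx3
  have hx1' : ∀ k, Q.eval ((rf P Q)^[k] x) ≠ 0 := fun k hk => hx1 ⟨k, hk⟩
  exact D8x.good hx1' hx3 hx2

end Pool.Agent.H792R2.CE
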