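import Pool.Agent.H792R2.CE.Defs

/-! # CE, task D1: partial fractions (helper619) -/

set_option autoImplicit false

open Polynomial

namespace Pool.Agent.H792R2.CE

namespace D1x

lemma natDegree_wr_le {P Q : ℂ[X]} {d : ℕ} (hPd : P.natDegree ≤ d) (hQd : Q.natDegree ≤ d) :
    (wr P Q).natDegree ≤ 2 * d := by
  unfold wr
  have h1 : (derivative P * Q).natDegree ≤ 2 * d := by
    refine natDegree_mul_le.trans ?_
    have := natDegree_derivative_le P
    omega
  have h2 : (P * derivative Q).natDegree ≤ 2 * d := by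
    refine natDegree_mul_le.trans ?_
    have := natDegree_derivative_le Q
    omega
  exact (natDegree_sub_le _ _).trans (max_le h1 h2)

/-- value of the Wronskian at a root of `P - x Q` -/
lemma wr_root {P Q : ℂ[X]} {x w : ℂ} (hw : (P - C x * Q).eval w = 0) :
    (wr P Q).eval w = Q.eval w * (derivative (P - C x * Q)).eval w := by
  unfold wr
  simp only [eval_sub, eval_mul, eval_C, derivative_sub, derivative_mul, derivative_C, zero_mul,
    zero_add, eval_add] at hw ⊢
  linear_combination (- (derivative Q).eval w) * hw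

lemma div_eval_self {D : ℂ[X]} {w : ℂ} (hw : D.eval w = 0) :
    (D /ₘ (X - C w)).eval w = (derivative D).eval w := by
  have h : (X - C w) * (D /ₘ (X - C w)) = D := mul_divByMonic_eq_iff_isRoot.2 hw
  have h2 : derivative D = (D /ₘ (X - C w)) + (X - C w) * derivative (D /ₘ (X - C w)) := by
    conv_lhs => rw [← h]
    rw [derivative_mul, derivative_sub, derivative_X, derivative_C, sub_zero, one_mul]
  rw [h2]
  simp

lemma div_eval_other {D : ℂ[X]} {w w0 : ℂ} (hw : D.eval w = 0) (hw0 : D.eval w0 = 0)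
    (hne : w0 ≠ w) : (D /ₘ (X - C w)).eval w0 = 0 := by
  have h : (X - C w) * (D /ₘ (X - C w)) = D := mul_divByMonic_eq_iff_isRoot.2 hw
  have h2 := congrArg (eval w0) h
  rw [eval_mul, eval_sub, eval_X, eval_C, hw0] at h2
  exact (mul_eq_zero.1 h2).resolve_left (sub_ne_zero.2 hne)

lemma nodup_roots {D : ℂ[X]} (hD : D ≠ 0)
    (hs : ∀ w, D.eval w = 0 → (derivative D).eval w ≠ 0) : D.roots.Nodup := by
  rw [Multiset.nodup_iff_count_le_one]
  intro a
  rw [count_roots]
  by_contra hcon
  push Not at hcon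
  obtain ⟨h1, h2⟩ := (one_lt_rootMultiplicity_iff_isRoot hD).1 hcon
  exact hs a h1 h2

/-- a polynomial vanishing at all roots of `D` (all simple) is divisible by `D` -/
lemma dvd_of_vanish {D A : ℂ[X]} (hD : D ≠ 0)
    (hs : ∀ w, D.eval w = 0 → (derivative D).eval w ≠ 0)
    (hA : ∀ w, D.eval w = 0 → A.eval w = 0) : D ∣ A := by
  by_cases hA0 : A = 0
  · rw [hA0]
    exact dvd_zero _
  have h1 := (IsAlgClosed.splits D).eq_prod_roots
  have h2 : (D.roots.map fun a => X - C a).prod ∣ A := by
    rw [Multiset.prod_X_sub_C_dvd_iff_le_roots hA0, Multiset.le_iff_subset (nodup_roots hD hs)]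
    intro a ha
    rw [mem_roots hD] at ha
    rw [mem_roots hA0]
    exact hA a ha
  rw [h1]
  have hlc : IsUnit (C D.leadingCoeff) := isUnit_C.2 (isUnit_iff_ne_zero.2 (leadingCoeff_ne_zero.2 hD))
  exact (hlc.mul_left_dvd).2 h2

end D1x

open D1x

/-- D1. partial fractions. -/
theorem D1_pf {P Q : ℂ[X]} {d : ℕ} (hPd : P.natDegree ≤ d) (hQd : Q.natDegree ≤ d) {x : ℂ}
    (hx : (P - C x * Q).natDegree = d) (hx0 : P - C x * Q ≠ 0)
    (hs : ∀ w, (P - C x * Q).eval w = 0 → (wr P Q).eval w ≠ 0) :
    ∃ S : ℂ[X], S.natDegree ≤ 2 * d ∧ ∀ z, (P - C x * Q).eval z ≠ 0 →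
      Q.eval z ^ 3 / (P - C x * Q).eval z = S.eval z + (wr P Q).eval z *
        ∑ w ∈ (P - C x * Q).roots.toFinset, Q.eval w ^ 4 / (wr P Q).eval w ^ 2 / (z - w) := by
  have hwr : ∀ w, (P - C x * Q).eval w = 0 → (wr P Q).eval w =
      Q.eval w * (derivative (P - C x * Q)).eval w := fun w hw => wr_root hw
  set D : ℂ[X] := P - C x * Q with hD
  set N : ℂ[X] := wr P Q with hN
  have hs' : ∀ w, D.eval w = 0 → (derivative D).eval w ≠ 0 := by
    intro w hw h0
    apply hs w hw
    rw [hwr w hw, h0, mul_zero]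
  have hmem : ∀ w ∈ D.roots.toFinset, D.eval w = 0 := by
    intro w hw
    rw [Multiset.mem_toFinset, mem_roots hx0] at hw
    exact hw
  set A : ℂ[X] := Q ^ 3 - N * ∑ w ∈ D.roots.toFinset,
    C (Q.eval w ^ 4 / N.eval w ^ 2) * (D /ₘ (X - C w)) with hA
  have hAv : ∀ w0, D.eval w0 = 0 → A.eval w0 = 0 := by
    intro w0 hw0
    have hw0m : w0 ∈ D.roots.toFinset := by
      rw [Multiset.mem_toFinset, mem_roots hx0]
      exact hw0
    rw [hA, eval_sub, eval_pow, eval_mul, eval_finset_sum, Finset.sum_eq_single w0]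
    · rw [eval_mul, eval_C, div_eval_self hw0, hwr w0 hw0]
      have h1 : Q.eval w0 ≠ 0 := by
        intro h0
        apply hs w0 hw0
        rw [hwr w0 hw0, h0, zero_mul]
      have h2 := hs' w0 hw0
      field_simp
      ring
    · intro w hw hne
      rw [eval_mul, div_eval_other (hmem w hw) hw0 (Ne.symm hne), mul_zero]
    · intro h
      exact absurd hw0m h
  obtain ⟨S, hS⟩ := dvd_of_vanish hx0 hs' hAv
  refine ⟨S, ?_, ?_⟩
  · by_cases hS0 : S = 0
    · rw [hS0, natDegree_zero]
      exact Nat.zero_le _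
    have h1 : A.natDegree = D.natDegree + S.natDegree := by
      rw [hS, natDegree_mul hx0 hS0]
    have h2 : A.natDegree ≤ 3 * d := by
      rw [hA]
      refine (natDegree_sub_le _ _).trans (max_le ?_ ?_)
      · refine natDegree_pow_le.trans ?_
        exact Nat.mul_le_mul_left 3 hQd
      · refine natDegree_mul_le.trans ?_
        have h3 : (∑ w ∈ D.roots.toFinset,
            C (Q.eval w ^ 4 / N.eval w ^ 2) * (D /ₘ (X - C w))).natDegree ≤ d := by
          refine natDegree_sum_le_of_forall_le _ _ fun w _ => ?_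
          refine natDegree_mul_le.trans ?_
          rw [natDegree_C, zero_add, natDegree_divByMonic _ (monic_X_sub_C w), hx]
          exact Nat.sub_le _ _
        have h4 := natDegree_wr_le hPd hQd
        rw [← hN] at h4
        omega
    omega
  · intro z hz
    have h1 : Q.eval z ^ 3 = D.eval z * S.eval z + N.eval z * ∑ w ∈ D.roots.toFinset,
        Q.eval w ^ 4 / N.eval w ^ 2 * (D /ₘ (X - C w)).eval z := by
      have h2 := congrArg (eval z) hS
      rw [hA, eval_sub, eval_pow, eval_mul, eval_mul, eval_finset_sum] at h2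
      simp only [eval_mul, eval_C] at h2
      linear_combination h2
    rw [h1, add_div, mul_div_cancel_left₀ _ hz, mul_div_assoc, Finset.sum_div]
    congr 2
    refine Finset.sum_congr rfl fun w hw => ?_
    have h3 : (X - C w) * (D /ₘ (X - C w)) = D := mul_divByMonic_eq_iff_isRoot.2 (hmem w hw)
    have h4 := congrArg (eval z) h3
    rw [eval_mul, eval_sub, eval_X, eval_C] at h4
    have h5 : z - w ≠ 0 := by
      intro h0
      rw [h0, zero_mul] at h4
      exact hz h4.symm
    rw [← h4]
    have h6 : (D /ₘ (X - C w)).eval z ≠ 0 := by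
      intro h0
      rw [h0, mul_zero] at h4
      exact hz h4.symm
    field_simp

end Pool.Agent.H792R2.CE
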