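import Mathlib
import Pool.Agent.Helper114.KRat
import Pool.Agent.H762R2.RtA

set_option autoImplicit false

open Filter Topology Metric Set Polynomial MeasureTheory
open scoped OnePoint

namespace Pool.Agent.H792R2.CE

open Pool.Agent.Helper114.Herman

/-- numerator of the derivative of `P / Q` (Wronskian) -/
noncomputable def wr (P Q : ℂ[X]) : ℂ[X] := derivative P * Q - P * derivative Q

/-- the rational function `P / Q` in the plane (junk value `0` at the poles) -/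
noncomputable def rf (P Q : ℂ[X]) (z : ℂ) : ℂ := P.eval z / Q.eval z

/-- the Cauchy series `∑ α_j / (x - v_j)` -/
noncomputable def phi (α v : ℕ → ℂ) (x : ℂ) : ℂ := ∑' j, α j / (x - v j)

/-- the rational map `P / Q` of degree `d` on the sphere -/
noncomputable def sph (d : ℕ) (P Q : ℂ[X]) (x : OnePoint ℂ) : OnePoint ℂ :=
  x.elim (pr (P.coeff d) (Q.coeff d)) (fun z => pr (P.eval z) (Q.eval z))

/-- `x` is attracted by an attracting cycle of `P / Q` consisting of finite points -/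
def Att (d : ℕ) (P Q : ℂ[X]) (x : OnePoint ℂ) : Prop :=
  ∃ n : ℕ, 0 < n ∧ ∃ z : ℂ, (∀ i : ℕ, (sph d P Q)^[i] (z : OnePoint ℂ) ≠ ∞) ∧
    (sph d P Q)^[n] (z : OnePoint ℂ) = (z : OnePoint ℂ) ∧
    ‖deriv ((rf P Q)^[n]) z‖ < 1 ∧
    Tendsto (fun k : ℕ => (sph d P Q)^[n * k] x) atTop (𝓝 (z : OnePoint ℂ))

theorem sph_infty (d : ℕ) (P Q : ℂ[X]) : sph d P Q ∞ = pr (P.coeff d) (Q.coeff d) := rfl

theorem sph_coe (d : ℕ) (P Q : ℂ[X]) (z : ℂ) :
    sph d P Q (z : OnePoint ℂ) = pr (P.eval z) (Q.eval z) := rfl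

theorem sph_coe_of_ne {d : ℕ} {P Q : ℂ[X]} {z : ℂ} (h : Q.eval z ≠ 0) :
    sph d P Q (z : OnePoint ℂ) = ((rf P Q z : ℂ) : OnePoint ℂ) := by
  rw [sph_coe, pr_ne h, rf]

theorem wr_family (P Q H G : ℂ[X]) (s : ℂ) :
    wr (P + C s * H) (Q + C s * G) =
      wr P Q + C s * (wr H Q + wr P G) + C (s ^ 2) * wr H G := by
  unfold wr
  simp only [derivative_add, derivative_mul, derivative_C, zero_mul, zero_add, map_pow]
  ring

/-- the family `(s, z) ↦ (P + s^K H)(z) / (Q + s^K G)(z)` is `C^1` off the poles -/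
theorem rf_contDiffAt {P Q H G : ℂ[X]} {K : ℕ} {p : ℂ × ℂ}
    (h : (Q + C (p.1 ^ K) * G).eval p.2 ≠ 0) :
    ContDiffAt ℂ 1 (fun q : ℂ × ℂ => rf (P + C (q.1 ^ K) * H) (Q + C (q.1 ^ K) * G) q.2) p := by
  unfold rf
  simp only [eval_add, eval_mul, eval_C] at h ⊢
  have hp : ∀ R : ℂ[X], ContDiffAt ℂ 1 (fun q : ℂ × ℂ => R.eval q.2) p := by
    intro R
    have h1 : ContDiff ℂ 1 (fun z : ℂ => R.eval z) := R.differentiable.contDiff
    exact (h1.comp contDiff_snd).contDiffAt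
  have hs : ContDiffAt ℂ 1 (fun q : ℂ × ℂ => q.1 ^ K) p := (contDiff_fst.pow K).contDiffAt
  exact ((hp P).add (hs.mul (hp H))).div ((hp Q).add (hs.mul (hp G))) h

end Pool.Agent.H792R2.CE
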