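import Pool.Agent.H792R2.CE.Defs

/-!
Stubs of project CE (MP_8f2e1c_an, Fatou's conjecture): a rational map whose non-attracted set has
zero area and all of whose non-attracted critical points are expanding is a limit of hyperbolic
maps. See table h792_tasks for the written proofs.
-/

set_option autoImplicit false

open Filter Topology Metric Set Polynomial MeasureTheory
open scoped OnePoint ENNReal

namespace Pool.Agent.H792R2.CE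

open Pool.Agent.Helper114.Herman Pool.Agent.H762R2.Rt

/-- A1. Puiseux parametrisation of the critical points of a perturbed rational map. -/
theorem A1_branch {P Q H G : ℂ[X]} {c : ℂ} {k : ℕ} (hk : 1 ≤ k)
    (hmult : (wr P Q).rootMultiplicity c = k) (hN : wr P Q ≠ 0)
    (hN₁ : (wr H Q + wr P G).eval c ≠ 0) :
    ∃ (τ : ℂ → ℂ) (t : ℂ) (ρ : ℝ), 0 < ρ ∧ t ≠ 0 ∧ τ 0 = c ∧ HasDerivAt τ t 0 ∧
      (∀ b, ‖b‖ < ρ → DifferentiableAt ℂ τ b) ∧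
      (∀ b, ‖b‖ < ρ → (wr (P + C (b ^ k) * H) (Q + C (b ^ k) * G)).eval (τ b) = 0) ∧
      ∀ z b, ‖z - c‖ < ρ → ‖b‖ < ρ → (wr (P + C (b ^ k) * H) (Q + C (b ^ k) * G)).eval z = 0 →
        ∃ ω : ℂ, ω ^ k = 1 ∧ z = τ (ω * b) := sorry

/-- A2. Difference of the critical values after splitting. -/
theorem A2_split {P Q H G : ℂ[X]} {c : ℂ} {k : ℕ} (hk : 2 ≤ k) {τ : ℂ → ℂ} {t : ℂ} {ρ : ℝ}
    (hρ : 0 < ρ) (ht : t ≠ 0) (hτ0 : τ 0 = c) (hτd : HasDerivAt τ t 0)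
    (hτD : ∀ b, ‖b‖ < ρ → DifferentiableAt ℂ τ b)
    (hcrit : ∀ b, ‖b‖ < ρ → (wr (P + C (b ^ k) * H) (Q + C (b ^ k) * G)).eval (τ b) = 0)
    (hQ : Q.eval c ≠ 0) (hN₁ : (wr H Q + wr P G).eval c ≠ 0)
    {ω : ℂ} (hω : ω ^ k = 1) (hω1 : ω ≠ 1) :
    ∃ κ : ℂ, κ ≠ 0 ∧ Tendsto (fun b : ℂ =>
      (rf (P + C (b ^ k) * H) (Q + C (b ^ k) * G) (τ b) -
        rf (P + C (b ^ k) * H) (Q + C (b ^ k) * G) (τ (ω * b))) / b ^ (k + 1))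
      (𝓝[≠] 0) (𝓝 κ) := sorry

/-- B1. -/
theorem B1_continuous {d : ℕ} {P Q : ℂ[X]} (hc : IsCoprime P Q) (hPd : P.natDegree ≤ d)
    (hQd : Q.natDegree = d) : Continuous (sph d P Q) := sorry

/-- B2. joint continuity of the iterates at the parameter `0`. -/
theorem B2_joint {d : ℕ} {P Q H G : ℂ[X]} (hd : 0 < d) (hc : IsCoprime P Q)
    (hPd : P.natDegree ≤ d) (hQd : Q.natDegree = d) (hHd : H.natDegree ≤ d)
    (hGd : G.natDegree ≤ d) (n : ℕ) (x : OnePoint ℂ) :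
    ContinuousAt (fun p : ℂ × OnePoint ℂ =>
      (sph d (P + C p.1 * H) (Q + C p.1 * G))^[n] p.2) (0, x) := sorry

/-- B3. small perturbations are still reduced fractions of the same degree. -/
theorem B3_coprime {d : ℕ} {P Q H G : ℂ[X]} (hd : 0 < d) (hc : IsCoprime P Q)
    (hPd : P.natDegree ≤ d) (hQd : Q.natDegree = d) (hHd : H.natDegree ≤ d)
    (hGd : G.natDegree ≤ d) :
    ∀ᶠ s : ℂ in 𝓝 0, IsCoprime (P + C s * H) (Q + C s * G) ∧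
      (P + C s * H).natDegree ≤ d ∧ (Q + C s * G).natDegree = d := sorry

/-- C1. attracted points stay attracted under perturbation of the map and of the point. -/
theorem C1_stable {d : ℕ} {P Q H G : ℂ[X]}
    (hB : ∀ (n : ℕ) (x : OnePoint ℂ), ContinuousAt (fun p : ℂ × OnePoint ℂ =>
      (sph d (P + C p.1 * H) (Q + C p.1 * G))^[n] p.2) (0, x))
    {x : OnePoint ℂ} (hx : Att d P Q x) :
    ∀ᶠ p : ℂ × OnePoint ℂ in 𝓝 (0, x), Att d (P + C p.1 * H) (Q + C p.1 * G) p.2 := sorry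

/-- C2. -/
theorem C2_step {d : ℕ} {P Q : ℂ[X]} (hcont : Continuous (sph d P Q)) {x : OnePoint ℂ}
    (h : Att d P Q (sph d P Q x)) : Att d P Q x := sorry

/-- C3. -/
theorem C3_sinks {d : ℕ} {P Q : ℂ[X]} (hcont : Continuous (sph d P Q)) {x : OnePoint ℂ}
    (h : Att d P Q x) : Sinks (sph d P Q) x := sorry

/-- C4. -/
theorem C4_inj {d : ℕ} {P Q : ℂ[X]} {c : ℂ} (hQ : Q.eval c ≠ 0) (hN : (wr P Q).eval c ≠ 0) :
    ∃ U ∈ 𝓝 (c : OnePoint ℂ), Set.InjOn (sph d P Q) U := sorry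

/-- D1. partial fractions. -/
theorem D1_pf {P Q : ℂ[X]} {d : ℕ} (hPd : P.natDegree ≤ d) (hQd : Q.natDegree ≤ d) {x : ℂ}
    (hx : (P - C x * Q).natDegree = d) (hx0 : P - C x * Q ≠ 0)
    (hs : ∀ w, (P - C x * Q).eval w = 0 → (wr P Q).eval w ≠ 0) :
    ∃ S : ℂ[X], S.natDegree ≤ 2 * d ∧ ∀ z, (P - C x * Q).eval z ≠ 0 →
      Q.eval z ^ 3 / (P - C x * Q).eval z = S.eval z + (wr P Q).eval z *
        ∑ w ∈ (P - C x * Q).roots.toFinset, Q.eval w ^ 4 / (wr P Q).eval w ^ 2 / (z - w) := sorry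

/-- D2. invariance of the Cauchy series under the Ruelle operator. -/
theorem D2_inv {P Q : ℂ[X]} {d : ℕ} {c : ℂ} {v α : ℕ → ℂ} (hc : (wr P Q).eval c = 0)
    (hQc : Q.eval c ≠ 0) (hv0 : v 0 = rf P Q c) (hvs : ∀ j, v (j + 1) = rf P Q (v j))
    (hα0 : α 0 = 1) (hαs : ∀ j, α (j + 1) = α j * (Q.eval (v j) ^ 2 / (wr P Q).eval (v j)))
    (hQv : ∀ j, Q.eval (v j) ≠ 0) (hNv : ∀ j, (wr P Q).eval (v j) ≠ 0)
    (hT : ∀ S : ℂ[X], S.natDegree ≤ 2 * d →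
      (Summable fun j => S.eval (v j) / (wr P Q).eval (v j) * α j) ∧
      S.eval c / Q.eval c ^ 2 + ∑' j, S.eval (v j) / (wr P Q).eval (v j) * α j = 0)
    {x : ℂ} (hx0 : P - C x * Q ≠ 0) (hxv : ∀ j, x ≠ v j)
    (hsum : Summable fun j => α j / (x - v j))
    (hsumw : ∀ w, (P - C x * Q).eval w = 0 → Summable fun j => α j / (w - v j))
    (hpf : ∃ S : ℂ[X], S.natDegree ≤ 2 * d ∧ ∀ z, (P - C x * Q).eval z ≠ 0 →
      Q.eval z ^ 3 / (P - C x * Q).eval z = S.eval z + (wr P Q).eval z *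
        ∑ w ∈ (P - C x * Q).roots.toFinset, Q.eval w ^ 4 / (wr P Q).eval w ^ 2 / (z - w)) :
    phi α v x = ∑ w ∈ (P - C x * Q).roots.toFinset,
      Q.eval w ^ 4 / (wr P Q).eval w ^ 2 * phi α v w := sorry

/-- D3a. the Cauchy kernel is locally integrable, uniformly in the pole. -/
theorem D3a_kernel (R : ℝ) : ∃ C : ℝ≥0∞, C ≠ ⊤ ∧ ∀ v : ℂ,
    ∫⁻ x in ball (0 : ℂ) R, ‖(x - v)⁻¹‖ₑ ≤ C := sorry

/-- D3b. -/
theorem D3b_ae {α v : ℕ → ℂ} (hα : Summable fun j => ‖α j‖)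
    (hker : ∀ R : ℝ, ∃ C : ℝ≥0∞, C ≠ ⊤ ∧ ∀ v : ℂ, ∫⁻ x in ball (0 : ℂ) R, ‖(x - v)⁻¹‖ₑ ≤ C) :
    ∀ᵐ x : ℂ, Summable fun j => ‖α j / (x - v j)‖ := sorry

/-- D3c. -/
theorem D3c_int {α v : ℕ → ℂ} (hα : Summable fun j => ‖α j‖) {M : ℝ} (hM : ∀ j, ‖v j‖ ≤ M)
    (hker : ∀ R : ℝ, ∃ C : ℝ≥0∞, C ≠ ⊤ ∧ ∀ v : ℂ, ∫⁻ x in ball (0 : ℂ) R, ‖(x - v)⁻¹‖ₑ ≤ C)
    (h0 : ∑' j, α j = 0) (h1 : ∑' j, α j * v j = 0) (h2 : ∑' j, α j * v j ^ 2 = 0) :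
    Measurable (phi α v) ∧ ∫⁻ x : ℂ, ‖phi α v x‖ₑ ≠ ⊤ := sorry

/-- D4. change of variables for the branched cover `P / Q`. -/
theorem D4_area {P Q : ℂ[X]} (hc : IsCoprime P Q) (hN : wr P Q ≠ 0) {u : ℂ → ℝ≥0∞}
    (hu : Measurable u) {A : Set ℂ} (hA : MeasurableSet A) :
    ∫⁻ x in A, (∑ w ∈ (P - C x * Q).roots.toFinset,
      ‖Q.eval w ^ 4 / (wr P Q).eval w ^ 2‖ₑ * u w) ≤ ∫⁻ w in rf P Q ⁻¹' A, u w := sorry

/-- D6. a Cauchy series which vanishes almost everywhere has no mass at any point. -/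
theorem D6_unique {α v : ℕ → ℂ} (hα : Summable fun j => ‖α j‖)
    (hker : ∀ R : ℝ, ∃ C : ℝ≥0∞, C ≠ ⊤ ∧ ∀ v : ℂ, ∫⁻ x in ball (0 : ℂ) R, ‖(x - v)⁻¹‖ₑ ≤ C)
    (h : ∀ᵐ x : ℂ, phi α v x = 0) (p : ℂ) :
    ∑' j, (open Classical in if v j = p then α j else 0) = 0 := sorry

/-- D8. almost every point has a wandering neighbourhood. -/
theorem D8_wandering {d : ℕ} {P Q : ℂ[X]} (hd : 2 ≤ d) (hc : IsCoprime P Q)
    (hPd : P.natDegree ≤ d) (hQd : Q.natDegree = d)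
    (hvol : volume {z : ℂ | ¬ Att d P Q (z : OnePoint ℂ)} = 0) :
    ∀ᵐ x : ℂ, ∃ U : Set ℂ, x ∈ U ∧ IsOpen U ∧ ∀ y ∈ U, ∀ k, 0 < k → (rf P Q)^[k] y ∉ U := sorry

/-- D9. -/
theorem D9_bezout {P Q : ℂ[X]} {d : ℕ} (hc : IsCoprime P Q) (hPd : P.natDegree ≤ d)
    (hQd : Q.natDegree = d) (hd : 0 < d) {S : ℂ[X]} (hS : S.natDegree ≤ 2 * d) :
    ∃ H G : ℂ[X], H.natDegree ≤ d ∧ G.natDegree ≤ d ∧ H * Q - P * G = S := sorry

/-- D10. -/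
theorem D10_choice {ι : Type*} [Finite ι] {D : ℕ} (L : ι → ℂ[X] → ℂ)
    (hadd : ∀ i (S T : ℂ[X]), S.natDegree ≤ D → T.natDegree ≤ D → L i (S + T) = L i S + L i T)
    (hmul : ∀ i (t : ℂ) (S : ℂ[X]), S.natDegree ≤ D → L i (C t * S) = t * L i S)
    (hne : ∀ i, ∃ S : ℂ[X], S.natDegree ≤ D ∧ L i S ≠ 0) :
    ∃ S : ℂ[X], S.natDegree ≤ D ∧ ∀ i, L i S ≠ 0 := sorry

/-- E1. derivative of the critical orbit with respect to the parameter. -/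
theorem E1_orbit {P Q H G : ℂ[X]} {c : ℂ} {τ : ℂ → ℂ} {t : ℂ} (hτ0 : τ 0 = c)
    (hτd : HasDerivAt τ t 0) (hc : (wr P Q).eval c = 0)
    (hQ : ∀ j, Q.eval ((rf P Q)^[j] c) ≠ 0)
    (hne : ∀ j, deriv ((rf P Q)^[j]) (rf P Q c) ≠ 0) (n : ℕ) :
    HasDerivAt (fun s : ℂ => (rf (P + C s * H) (Q + C s * G))^[n + 1] (τ s))
      (deriv ((rf P Q)^[n]) (rf P Q c) * ∑ j ∈ Finset.range (n + 1),
        (H * Q - P * G).eval ((rf P Q)^[j] c) / Q.eval ((rf P Q)^[j] c) ^ 2 /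
          deriv ((rf P Q)^[j]) (rf P Q c)) 0 := sorry

end Pool.Agent.H792R2.CE
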